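import Mathlib

set_option autoImplicit false

open MeasureTheory Set Filter Topology Real
open scoped Matrix Convolution

namespace LTd

/-- Real square matrices. -/
abbrev Mat (n : ℕ) := Matrix (Fin n) (Fin n) ℝ

/-- Symmetric positive semidefinite matrices. -/
def PSD {n : ℕ} (M : Mat n) : Prop :=
  (∀ i j, M i j = M j i) ∧ ∀ v : Fin n → ℝ, 0 ≤ ∑ i, ∑ j, v i * v j * M i j

/-- Positive semidefinite kernels on a set of reals. -/
def PSDK (I : Set ℝ) (k : ℝ → ℝ → ℝ) : Prop :=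
  ∀ (n : ℕ) (y : Fin n → ℝ), (∀ i, y i ∈ I) → PSD (Matrix.of fun i j => k (y i) (y j) : Mat n)

/-- The polynomial kernel with coefficients `w`. -/
noncomputable def PK (A : Finset (ℕ × ℕ)) (w : ℕ × ℕ → ℝ) (s t : ℝ) : ℝ :=
  ∑ q ∈ A, w q * (s ^ q.1 * t ^ q.2)

/-- The complete homogeneous sum `(s ^ a - r ^ a) / (s - r)`. -/
noncomputable def gs (a : ℕ) (s r : ℝ) : ℝ := ∑ l ∈ Finset.range a, s ^ l * r ^ (a - 1 - l)

/-- The sum of the divided differences of the kernel in its two slots. -/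
noncomputable def DK (A : Finset (ℕ × ℕ)) (w : ℕ × ℕ → ℝ) (s r t : ℝ) : ℝ :=
  ∑ q ∈ A, w q * (t ^ q.2 * gs q.1 s r + t ^ q.1 * gs q.2 s r)

/-- The derivative of `B ^ a` in the direction `R`. -/
noncomputable def dpow {n : ℕ} (B R : Mat n) (a : ℕ) : Mat n :=
  ∑ l ∈ Finset.range a, B ^ l * R * B ^ (a - 1 - l)

/-- The kernel applied to `R` as a Schur multiplier in the eigenbasis of `B`. -/
noncomputable def YK {n : ℕ} (A : Finset (ℕ × ℕ)) (w : ℕ × ℕ → ℝ) (B R : Mat n) : Mat n :=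
  ∑ q ∈ A, w q • (B ^ q.1 * R * B ^ q.2)

/-- The exact kernel expression for the parameter `θ`. -/
noncomputable def TK (θ s r t : ℝ) : ℝ :=
  -(θ ^ 2 / 4) * ((sinc (θ * (s - r) / 2) - cos (θ * (s - r) / 2)) /
    (cos (θ * (s + t) / 2) * cos (θ * (r + t) / 2)))

/-- Slice systems: `R = ∫ w wᵀ`, `S = ∫ w' wᵀ`, `Q = ∫ w' w'ᵀ` for a family of functions
`w(x, ·)` depending on the real variable `x`. -/
structure Sys {n : ℕ} (R S Q : ℝ → Mat n) : Prop where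
  symR : ∀ x i j, R x i j = R x j i
  der : ∀ x i j, HasDerivAt (fun t => R t i j) (S x i j + S x j i) x
  cS : ∀ i j, Continuous fun x => S x i j
  cQ : ∀ i j, Continuous fun x => Q x i j
  supp : ∃ M : ℝ, ∀ x, M < |x| → R x = 0 ∧ S x = 0 ∧ Q x = 0
  key : ∀ x (X Y : Mat n),
    0 ≤ (X * Q x * Xᵀ).trace - 2 * (X * S x * Yᵀ).trace + (Y * R x * Yᵀ).trace

/-- The total Gram matrix of a system. -/
noncomputable def Tot {n : ℕ} (R : ℝ → Mat n) : Mat n := Matrix.of fun i j => ∫ x, R x i j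

/-- The partial Gram matrix of a system. -/
noncomputable def Gam {n : ℕ} (R : ℝ → Mat n) (x : ℝ) : Mat n :=
  Matrix.of fun i j => ∫ t in Iic x, R t i j

/-- The dual exponent `g / (g - 1)`. -/
noncomputable def pp (g : ℝ) : ℝ := g / (g - 1)

/-- The duality constant `(g - 1) ^ (g - 1) / g ^ g`. -/
noncomputable def cc (g : ℝ) : ℝ := (g - 1) ^ (g - 1) / g ^ g

/-- The invariant constant in dimension `m` (`h = m / 2`) for the exponent `g`. -/
noncomputable def JJ (h g : ℝ) : ℝ :=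
  cc (g + h) * (4 * π) ^ h * Gamma (g + 1 + h) / (cc g * Gamma (g + 1))

/-- The constant in front of `∫ ρ ^ pp (g + h)`, if the constant in front of `tr F ^ pp g` is `a`. -/
noncomputable def bco (h g a : ℝ) : ℝ := (JJ h g * a ^ (g - 1)) ^ (1 / (g + h - 1))

/-- The weight of the Aizenman-Lieb step: `3/2 (E - τ)_+^{1/2} / l`. -/
noncomputable def aw (E l τ : ℝ) : ℝ := 3 / 2 * √(max (E - τ) 0) / l

/-- Partial derivatives on `Fin m → ℝ`. -/
noncomputable def pd {m : ℕ} (k : Fin m) (f : (Fin m → ℝ) → ℝ) (x : Fin m → ℝ) : ℝ :=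
  fderiv ℝ f x (Pi.single k 1)

/-- The semiclassical inequality in dimension `m` for the exponent `g` (Gram matrix diagonal). -/
def Tm (m : ℕ) (g : ℝ) : Prop :=
  ∀ (a : ℝ), 0 < a → ∀ (n : ℕ) (w : Fin n → (Fin m → ℝ) → ℝ) (l : Fin n → ℝ),
    (∀ i, ContDiff ℝ 1 (w i)) → (∀ i, HasCompactSupport (w i)) →
    (∀ i j, ∫ x, w i x * w j x = if i = j then l i else 0) →
    bco (m / 2) g a * ∫ x, (∑ i, w i x ^ 2) ^ pp (g + m / 2) ≤
      (∫ x, ∑ k, ∑ i, pd k (w i) x ^ 2) + a * ∑ i, l i ^ pp g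

/-- Normalisation of the Aizenman-Lieb weight. -/
noncomputable def LamC (g : ℝ) : ℝ := 3 / 2 * (Gamma (g - 3 / 2) * Gamma (3 / 2) / Gamma g)

/-- The energy belonging to the occupation number `l`. -/
noncomputable def EE (g l : ℝ) : ℝ := (l / LamC g) ^ (1 / (g - 1))

/-- The constant of the dual integral. -/
noncomputable def DC (g : ℝ) : ℝ := 3 / 16 * (Gamma (g - 3 / 2) * Gamma 3 / Gamma (g + 3 / 2))

/-- Normalised constants. -/
noncomputable def a0C (g : ℝ) : ℝ := (1 - 1 / g) * LamC g ^ (-(1 / (g - 1)))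

/-- Normalised constants. -/
noncomputable def b0C (g : ℝ) : ℝ :=
  (1 - 1 / (g + 1 / 2)) * ((g + 1 / 2) * DC g) ^ (-(1 / (g - 1 / 2)))

/-- The averaged products of the weights. -/
noncomputable def kap (g l l' : ℝ) : ℝ :=
  ∫ τ in Ioi (0:ℝ), τ ^ (g - 5 / 2) * (aw (EE g l) l τ * aw (EE g l') l' τ)

/-- The averaged first moments of the weights. -/
noncomputable def muC (g l : ℝ) : ℝ := ∫ τ in Ioi (0:ℝ), τ ^ (g - 3 / 2) * aw (EE g l) l τ

/-- The averaged cubes of the weights. -/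
noncomputable def nuC (g l : ℝ) : ℝ :=
  ∫ τ in Ioi (0:ℝ), τ ^ (g - 5 / 2) * (aw (EE g l) l τ * l) ^ 3

/-- Gram matrix of the slices. -/
noncomputable def RS {m n : ℕ} (w : Fin n → (Fin (m + 1) → ℝ) → ℝ) (x : ℝ) : Mat n :=
  Matrix.of fun i j => ∫ y : Fin m → ℝ,
    w i (Fin.cons x y : Fin (m + 1) → ℝ) * w j (Fin.cons x y : Fin (m + 1) → ℝ)

/-- Mixed Gram matrix of the slices. -/
noncomputable def SS {m n : ℕ} (w : Fin n → (Fin (m + 1) → ℝ) → ℝ) (x : ℝ) : Mat n :=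
  Matrix.of fun i j => ∫ y : Fin m → ℝ,
    pd 0 (w i) (Fin.cons x y : Fin (m + 1) → ℝ) * w j (Fin.cons x y : Fin (m + 1) → ℝ)

/-- Gram matrix of the derivatives of the slices. -/
noncomputable def QS {m n : ℕ} (w : Fin n → (Fin (m + 1) → ℝ) → ℝ) (x : ℝ) : Mat n :=
  Matrix.of fun i j => ∫ y : Fin m → ℝ,
    pd 0 (w i) (Fin.cons x y : Fin (m + 1) → ℝ) * pd 0 (w j) (Fin.cons x y : Fin (m + 1) → ℝ)

/-- The semiclassical constant of the kinetic energy inequality in dimension `d`. -/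
noncomputable def Kcl (d : ℕ) : ℝ :=
  d / (d + 2) * ((2 * π) ^ 2 /
    (volume (Metric.ball (0 : EuclideanSpace ℝ (Fin d)) 1)).toReal ^ ((2:ℝ) / d))

/-- `f ∈ H¹(ℝ^d)` with weak partial derivatives `g k` (real valued functions). -/
structure WGrad {d : ℕ} (f : (Fin d → ℝ) → ℝ) (g : Fin d → (Fin d → ℝ) → ℝ) : Prop where
  f2 : MemLp f 2 volume
  g2 : ∀ k, MemLp (g k) 2 volume
  weak : ∀ k (φ : (Fin d → ℝ) → ℝ), ContDiff ℝ (⊤ : ℕ∞) φ → HasCompactSupport φ →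
    ∫ x, f x * pd k φ x = - ∫ x, g k x * φ x

/-- `u ∈ H¹(ℝ^d; ℂ)` with weak partial derivatives `g k`. -/
structure WGradC {d : ℕ} (u : (Fin d → ℝ) → ℂ) (g : Fin d → (Fin d → ℝ) → ℂ) : Prop where
  f2 : MemLp u 2 volume
  g2 : ∀ k, MemLp (g k) 2 volume
  weak : ∀ k (φ : (Fin d → ℝ) → ℝ), ContDiff ℝ (⊤ : ℕ∞) φ → HasCompactSupport φ →
    ∫ x, u x * (pd k φ x : ℂ) = - ∫ x, g k x * (φ x : ℂ)

end LTd
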