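import Pool.Agent.Helper717.LT.Defs
import Pool.Agent.Helper490.LTSech

set_option autoImplicit false

open MeasureTheory Set Filter Topology Real

namespace LTd

/-- The constants `K` admissible in the kinetic energy inequality in dimension `d`: for every
family of functions of `H¹(ℝ^d; ℂ)` which is orthonormal in `L²`, the power `1 + 2 / d` of the
density is integrable and `K ∫ ρ ^ (1 + 2 / d) ≤ ∑ ∫ |∇ u_n|²`. -/
def Admissible (d : ℕ) (K : ℝ) : Prop :=
  ∀ (N : ℕ) (u : Fin N → (Fin d → ℝ) → ℂ) (g : Fin N → Fin d → (Fin d → ℝ) → ℂ),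
    (∀ n, WGradC (u n) (g n)) →
    (∀ n m, ∫ x, (starRingEnd ℂ) (u n x) * u m x = if n = m then 1 else 0) →
    Integrable (fun x => (∑ n, ‖u n x‖ ^ 2) ^ (1 + 2 / (d : ℝ))) ∧
    K * ∫ x, (∑ n, ‖u n x‖ ^ 2) ^ (1 + 2 / (d : ℝ)) ≤ ∑ n, ∑ k, ∫ x, ‖g n k x‖ ^ 2

/-- The constants `K` admissible in the one-particle inequality in dimension `d`. -/
def AdmissibleOne (d : ℕ) (K : ℝ) : Prop :=
  ∀ (u : (Fin d → ℝ) → ℂ) (g : Fin d → (Fin d → ℝ) → ℂ), WGradC u g →
    K * ((∫ x, ‖u x‖ ^ (2 + 4 / (d : ℝ))) * (∫ x, ‖u x‖ ^ 2) ^ (-(2 / (d : ℝ)))) ≤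
      ∑ k, ∫ x, ‖g k x‖ ^ 2

lemma mp1 : MeasurePreserving (fun x : Fin 1 → ℝ => x 0) := by
  have h := volume_preserving_funUnique (Fin 1) ℝ
  exact h

lemma fun1_eq (x : Fin 1 → ℝ) : (fun _ : Fin 1 => x 0) = x := by
  funext i
  rw [Subsingleton.elim i 0]

/-- Integrals over `Fin 1 → ℝ`. -/
lemma int_fin1 {E : Type*} [NormedAddCommGroup E] [NormedSpace ℝ E] (f : ℝ → E) :
    ∫ x : Fin 1 → ℝ, f (x 0) = ∫ t, f t :=
  (volume_preserving_funUnique (Fin 1) ℝ).integral_comp' f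

/-- The optimiser of the one-particle inequality in dimension one, as a complex function. -/
noncomputable def W1 (x : Fin 1 → ℝ) : ℂ := (Pool.Helper490.Sech.w (x 0) : ℂ)

/-- Its derivative. -/
noncomputable def W1' (_ : Fin 1) (x : Fin 1 → ℝ) : ℂ := (Pool.Helper490.Sech.w' (x 0) : ℂ)

lemma norm_W1 (x : Fin 1 → ℝ) : ‖W1 x‖ ^ 2 = Pool.Helper490.Sech.w (x 0) ^ 2 := by
  rw [W1, Complex.norm_real, Real.norm_eq_abs, sq_abs]

lemma norm_W1' (k : Fin 1) (x : Fin 1 → ℝ) :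
    ‖W1' k x‖ ^ 2 = Pool.Helper490.Sech.w' (x 0) ^ 2 := by
  rw [W1', Complex.norm_real, Real.norm_eq_abs, sq_abs]

lemma parts_fin1 (w w' : ℝ → ℝ) (hw : ∀ x, HasDerivAt w (w' x) x) (hc : Continuous w')
    (k : Fin 1) (φ : (Fin 1 → ℝ) → ℝ) (hφ : ContDiff ℝ (⊤ : ℕ∞) φ) (hs : HasCompactSupport φ) :
    ∫ x : Fin 1 → ℝ, (w (x 0) : ℂ) * (pd k φ x : ℂ) =
      - ∫ x : Fin 1 → ℝ, (w' (x 0) : ℂ) * (φ x : ℂ) := by
  have hcw : Continuous w := continuous_iff_continuousAt.2 fun x => (hw x).continuousAt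
  set ι : ℝ → (Fin 1 → ℝ) := fun t => fun _ => t with hι
  have hιc : Continuous ι := continuous_pi fun _ => continuous_id
  have hιd : ∀ t, HasDerivAt ι (Pi.single k 1) t := by
    intro t
    rw [hasDerivAt_pi]
    intro i
    rw [Subsingleton.elim i k, Pi.single_eq_same]
    exact hasDerivAt_id t
  have hψ : ∀ t, HasDerivAt (fun t => φ (ι t)) (pd k φ (ι t)) t := by
    intro t
    have h1 : HasFDerivAt φ (fderiv ℝ φ (ι t)) (ι t) :=
      (hφ.differentiable (by simp) (ι t)).hasFDerivAt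
    exact h1.comp_hasDerivAt t (hιd t)
  have hpc : Continuous (pd k φ) := by
    have := hφ.continuous_fderiv (by simp)
    exact this.clm_apply continuous_const
  have hps : HasCompactSupport (pd k φ) := by
    have h := hs.fderiv (𝕜 := ℝ)
    refine HasCompactSupport.comp_left (g := fun L : (Fin 1 → ℝ) →L[ℝ] ℝ => L (Pi.single k 1)) h ?_
    simp
  have hιe : Topology.IsClosedEmbedding ι := by
    have : Isometry ι := by
      intro a b
      simp [hι, edist_pi_def]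
    exact this.isClosedEmbedding
  have hs1 : HasCompactSupport fun t => φ (ι t) := hs.comp_isClosedEmbedding hιe
  have hs2 : HasCompactSupport fun t => pd k φ (ι t) := hps.comp_isClosedEmbedding hιe
  have e1 : ∀ x : Fin 1 → ℝ, (w (x 0) : ℂ) * (pd k φ x : ℂ) =
      (fun t => ((w t * pd k φ (ι t) : ℝ) : ℂ)) (x 0) := by
    intro x
    simp only [hι, fun1_eq, Complex.ofReal_mul]
  have e2 : ∀ x : Fin 1 → ℝ, (w' (x 0) : ℂ) * (φ x : ℂ) =
      (fun t => ((w' t * φ (ι t) : ℝ) : ℂ)) (x 0) := by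
    intro x
    simp only [hι, fun1_eq, Complex.ofReal_mul]
  simp only [e1, e2]
  rw [int_fin1 (fun t => ((w t * pd k φ (ι t) : ℝ) : ℂ)),
    int_fin1 (fun t => ((w' t * φ (ι t) : ℝ) : ℂ)), integral_complex_ofReal,
    integral_complex_ofReal, ← Complex.ofReal_neg]
  congr 1
  refine integral_mul_deriv_eq_deriv_mul_of_integrable (fun x _ => hw x) (fun x _ => hψ x) ?_ ?_ ?_
  · exact (hcw.mul (hpc.comp hιc)).integrable_of_hasCompactSupport hs2.mul_left
  · exact (hc.mul (hφ.continuous.comp hιc)).integrable_of_hasCompactSupport hs1.mul_left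
  · exact (hcw.mul (hφ.continuous.comp hιc)).integrable_of_hasCompactSupport hs1.mul_left

lemma W1_wgrad : WGradC W1 W1' := by
  refine ⟨?_, ?_, ?_⟩
  · have hc : Continuous W1 :=
      Complex.continuous_ofReal.comp (Pool.Helper490.Sech.w_cont.comp (continuous_apply 0))
    rw [memLp_two_iff_integrable_sq_norm hc.aestronglyMeasurable]
    simp only [norm_W1]
    exact mp1.integrable_comp_of_integrable Pool.Helper490.Sech.int_w_sq
  · intro k
    have hc : Continuous (W1' k) :=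
      Complex.continuous_ofReal.comp (Pool.Helper490.Sech.w'_cont.comp (continuous_apply 0))
    rw [memLp_two_iff_integrable_sq_norm hc.aestronglyMeasurable]
    simp only [norm_W1']
    exact mp1.integrable_comp_of_integrable Pool.Helper490.Sech.int_w'_sq
  · intro k φ hφ hs
    exact parts_fin1 _ _ Pool.Helper490.Sech.w_deriv Pool.Helper490.Sech.w'_cont k φ hφ hs

lemma AdmissibleOne_le {K : ℝ} (h : AdmissibleOne 1 K) : K ≤ π ^ 2 / 4 := by
  have h1 := h _ _ W1_wgrad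
  have e6 : ∀ x, ‖W1 x‖ ^ (2 + 4 / ((1:ℕ) : ℝ)) = (Pool.Helper490.Sech.w (x 0) ^ 2) ^ 3 := by
    intro x
    have : (2 + 4 / ((1:ℕ) : ℝ)) = ((6:ℕ) : ℝ) := by norm_num
    rw [this, Real.rpow_natCast, ← norm_W1]; ring
  simp only [e6, norm_W1, norm_W1'] at h1
  rw [int_fin1 (fun t => (Pool.Helper490.Sech.w t ^ 2) ^ 3),
    int_fin1 (fun t => Pool.Helper490.Sech.w t ^ 2)] at h1
  have e7 : ∀ k : Fin 1, ∫ x : Fin 1 → ℝ, Pool.Helper490.Sech.w' (x 0) ^ 2 = π / 8 := by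
    intro _
    rw [int_fin1 (fun t => Pool.Helper490.Sech.w' t ^ 2), Pool.Helper490.Sech.integral_w'_sq]
  have e8 : -(2 / ((1:ℕ) : ℝ)) = ((-2 : ℤ) : ℝ) := by norm_num
  rw [Finset.sum_congr rfl (fun k _ => e7 k), Pool.Helper490.Sech.integral_w_six,
    Pool.Helper490.Sech.integral_w_sq, e8, Real.rpow_intCast] at h1
  have hpi := Real.pi_pos
  have h2 : K * (π / 2 * π ^ (-2 : ℤ)) = K / (2 * π) := by
    rw [zpow_neg]
    field_simp
  rw [h2, div_le_iff₀ (by positivity)] at h1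
  simp only [Finset.univ_unique, Finset.sum_singleton] at h1
  calc K ≤ π / 8 * (2 * π) := h1
    _ = π ^ 2 / 4 := by ring

/-- Every constant which is admissible for systems is admissible for one function. -/
lemma Admissible_one {d : ℕ} (hd : 1 ≤ d) {K : ℝ} (h : Admissible d K) : AdmissibleOne d K := by
  intro u g hu
  have hd0 : (0:ℝ) < d := by exact_mod_cast hd
  set m : ℝ := ∫ x, ‖u x‖ ^ 2 with hm
  have hm0 : 0 ≤ m := integral_nonneg fun x => sq_nonneg _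
  have hg0 : 0 ≤ ∑ k, ∫ x, ‖g k x‖ ^ 2 :=
    Finset.sum_nonneg fun k _ => integral_nonneg fun x => sq_nonneg _
  rcases hm0.eq_or_lt with h0 | hpos
  · rw [← h0, Real.zero_rpow (by
      have : 0 < 2 / (d:ℝ) := by positivity
      linarith)]
    simpa using hg0
  set c : ℝ := (√m)⁻¹ with hc
  have hsm : 0 < √m := Real.sqrt_pos.2 hpos
  have hc0 : 0 < c := inv_pos.2 hsm
  have hc2 : c ^ 2 = m⁻¹ := by rw [hc, inv_pow, Real.sq_sqrt hm0]
  have hcn : ∀ z : ℂ, ‖(c : ℂ) * z‖ ^ 2 = m⁻¹ * ‖z‖ ^ 2 := by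
    intro z
    rw [norm_mul, mul_pow, Complex.norm_real, Real.norm_eq_abs, sq_abs, hc2]
  have hs : WGradC (fun x => (c : ℂ) * u x) (fun k x => (c : ℂ) * g k x) := by
    refine ⟨hu.f2.const_mul _, fun k => (hu.g2 k).const_mul _, fun k φ hφ hs => ?_⟩
    simp only [mul_assoc]
    rw [integral_const_mul, integral_const_mul, hu.weak k φ hφ hs]
    ring
  have h1 := (h 1 (fun _ x => (c : ℂ) * u x) (fun _ k x => (c : ℂ) * g k x) (fun _ => hs) (by
    intro n m'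
    rw [if_pos (Subsingleton.elim n m')]
    have e : ∀ x, (starRingEnd ℂ) ((c : ℂ) * u x) * ((c : ℂ) * u x) =
        ((m⁻¹ * ‖u x‖ ^ 2 : ℝ) : ℂ) := by
      intro x
      rw [← hcn, ← Complex.normSq_eq_norm_sq, mul_comm]
      exact Complex.mul_conj _
    simp only [e]
    rw [integral_complex_ofReal, integral_const_mul, ← hm, inv_mul_cancel₀ hpos.ne']
    simp)).2
  simp only [Finset.univ_unique, Finset.sum_singleton, hcn] at h1
  simp only [integral_const_mul] at h1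
  have e6 : ∀ x, (m⁻¹ * ‖u x‖ ^ 2) ^ (1 + 2 / (d:ℝ)) =
      m⁻¹ ^ (1 + 2 / (d:ℝ)) * ‖u x‖ ^ (2 + 4 / (d:ℝ)) := by
    intro x
    rw [Real.mul_rpow (by positivity) (by positivity), ← Real.rpow_natCast ‖u x‖ 2,
      ← Real.rpow_mul (norm_nonneg _)]
    congr 2
    push_cast
    ring
  simp only [e6] at h1
  rw [integral_const_mul, ← Finset.mul_sum] at h1
  have h2 := mul_le_mul_of_nonneg_left h1 hm0
  have e7 : m * m⁻¹ ^ (1 + 2 / (d:ℝ)) = m ^ (-(2 / (d:ℝ))) := by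
    rw [Real.rpow_add (by positivity), Real.rpow_one, Real.rpow_neg hm0, Real.inv_rpow hm0]
    field_simp
  have e8 : m * (K * (m⁻¹ ^ (1 + 2 / (d:ℝ)) * ∫ x, ‖u x‖ ^ (2 + 4 / (d:ℝ)))) =
      K * ((∫ x, ‖u x‖ ^ (2 + 4 / (d:ℝ))) * m ^ (-(2 / (d:ℝ)))) := by
    rw [← e7]; ring
  have e9 : m * (m⁻¹ * ∑ k, ∫ x, ‖g k x‖ ^ 2) = ∑ k, ∫ x, ‖g k x‖ ^ 2 := by
    rw [← mul_assoc, mul_inv_cancel₀ hpos.ne', one_mul]
  rw [e8, e9] at h2
  exact h2

lemma Kcl_one : Kcl 1 = π ^ 2 / 3 := by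
  have hv : (volume (Metric.ball (0 : EuclideanSpace ℝ (Fin 1)) 1)).toReal = 2 := by
    rw [EuclideanSpace.volume_ball]
    simp only [Fintype.card_fin]
    rw [ENNReal.toReal_mul]
    have : Gamma (((1:ℕ):ℝ) / 2 + 1) = √π / 2 := by
      rw [Real.Gamma_add_one (by norm_num)]
      have : ((1:ℕ):ℝ) / 2 = 1 / 2 := by norm_num
      rw [this, Real.Gamma_one_half_eq]
      ring
    rw [this]
    have hp : 0 < √π := Real.sqrt_pos.2 Real.pi_pos
    rw [ENNReal.toReal_ofReal (by positivity)]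
    simp
    field_simp
  rw [Kcl, hv]
  have : ((2:ℝ) / ((1:ℕ):ℝ)) = ((2:ℕ):ℝ) := by norm_num
  rw [this, Real.rpow_natCast]
  push_cast
  ring

end LTd
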