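import Pool.Agent.Helper717.LT.Defs

set_option autoImplicit false

open MeasureTheory Set Filter Topology Real
open scoped Matrix

namespace LTd



theorem hasDerivAt_mulE {n : ℕ} {M N : ℝ → Mat n} {M' N' : Mat n} {x : ℝ}
    (hM : ∀ i j, HasDerivAt (fun t => M t i j) (M' i j) x)
    (hN : ∀ i j, HasDerivAt (fun t => N t i j) (N' i j) x) (i j : Fin n) :
    HasDerivAt (fun t => (M t * N t) i j) ((M' * N x + M x * N') i j) x := by
  have h : HasDerivAt (fun t => ∑ k, M t i k * N t k j)
      (∑ k, (M' i k * N x k j + M x i k * N' k j)) x :=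
    HasDerivAt.fun_sum fun k _ => (hM i k).mul (hN k j)
  simp only [Matrix.mul_apply, Matrix.add_apply]
  rw [← Finset.sum_add_distrib]
  exact h

theorem hasDerivAt_powE {n : ℕ} {B R : ℝ → Mat n} (x : ℝ)
    (hB : ∀ i j, HasDerivAt (fun t => B t i j) (R x i j) x) (a : ℕ) (i j : Fin n) :
    HasDerivAt (fun t => (B t ^ a) i j) (dpow (B x) (R x) a i j) x := by
  induction a generalizing i j with
  | zero =>
    simp only [pow_zero, dpow, Finset.range_zero, Finset.sum_empty, Matrix.zero_apply]
    exact hasDerivAt_const x _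
  | succ a ih =>
    have h1 := hasDerivAt_mulE (M := fun t => B t ^ a) (N := B) (M' := dpow (B x) (R x) a)
      (N' := R x) ih hB i j
    have h2 : (fun t => (B t ^ (a + 1)) i j) = fun t => (B t ^ a * B t) i j := by
      funext t; rw [pow_succ]
    have h3 : dpow (B x) (R x) (a + 1) = dpow (B x) (R x) a * B x + B x ^ a * R x := by
      unfold dpow
      rw [Finset.sum_range_succ, Finset.sum_mul, Nat.add_sub_cancel, Nat.sub_self, pow_zero,
        mul_one]
      congr 1
      refine Finset.sum_congr rfl fun l hl => ?_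
      have hl' : l < a := Finset.mem_range.1 hl
      rw [mul_assoc (B x ^ l * R x), ← pow_succ]
      congr 2
      omega
    rw [h2, h3]
    exact h1

theorem A_deriv {n : ℕ} {B R R' : ℝ → Mat n}
    (hB : ∀ x i j, HasDerivAt (fun t => B t i j) (R x i j) x)
    (hR : ∀ x i j, HasDerivAt (fun t => R t i j) (R' x i j) x) (a b : ℕ) (x : ℝ) :
    HasDerivAt (fun t => (R t * B t ^ a * R t * B t ^ b).trace)
      ((R' x * B x ^ a * R x * B x ^ b).trace + (R x * dpow (B x) (R x) a * R x * B x ^ b).trace +
        (R x * B x ^ a * R' x * B x ^ b).trace +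
        (R x * B x ^ a * R x * dpow (B x) (R x) b).trace) x := by
  have ha := hasDerivAt_powE x (hB x) a
  have hb := hasDerivAt_powE x (hB x) b
  have h1 := hasDerivAt_mulE (M := R) (N := fun t => B t ^ a) (M' := R' x)
    (N' := dpow (B x) (R x) a) (hR x) ha
  have h2 := hasDerivAt_mulE (M := fun t => R t * B t ^ a) (N := R)
    (M' := R' x * B x ^ a + R x * dpow (B x) (R x) a) (N' := R' x) h1 (hR x)
  have h3 := hasDerivAt_mulE (M := fun t => R t * B t ^ a * R t) (N := fun t => B t ^ b)
    (M' := (R' x * B x ^ a + R x * dpow (B x) (R x) a) * R x + R x * B x ^ a * R' x)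
    (N' := dpow (B x) (R x) b) h2 hb
  have h4 : HasDerivAt (fun t => ∑ i, (R t * B t ^ a * R t * B t ^ b) i i)
      (∑ i, (((R' x * B x ^ a + R x * dpow (B x) (R x) a) * R x + R x * B x ^ a * R' x) *
        B x ^ b + R x * B x ^ a * R x * dpow (B x) (R x) b) i i) x :=
    HasDerivAt.fun_sum fun i _ => h3 i i
  have h5 : (∑ i, (((R' x * B x ^ a + R x * dpow (B x) (R x) a) * R x + R x * B x ^ a * R' x) *
        B x ^ b + R x * B x ^ a * R x * dpow (B x) (R x) b) i i) =
      (R' x * B x ^ a * R x * B x ^ b).trace + (R x * dpow (B x) (R x) a * R x * B x ^ b).trace +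
        (R x * B x ^ a * R' x * B x ^ b).trace +
        (R x * B x ^ a * R x * dpow (B x) (R x) b).trace := by
    have : ∀ P : Mat n, (∑ i, P i i) = P.trace := fun P => rfl
    rw [this]
    simp only [add_mul, Matrix.trace_add]
  rw [h5] at h4
  exact h4

end LTd
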