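import Pool.Agent.Helper717.LT.Defs

set_option autoImplicit false

open MeasureTheory Set Filter Topology Real
open scoped Matrix

namespace LTd



theorem specS {n : ℕ} {M : Mat n} (hM : ∀ i j, M i j = M j i) :
    ∃ (V : Mat n) (e : Fin n → ℝ), V * Vᵀ = 1 ∧ Vᵀ * V = 1 ∧
      M = V * Matrix.diagonal e * Vᵀ := by
  have hH : M.IsHermitian := by
    ext i j
    simp [Matrix.conjTranspose_apply, hM i j]
  let U := hH.eigenvectorUnitary
  have hT : (star (U : Mat n)) = (U : Mat n)ᵀ := by
    ext i j
    simp [Matrix.star_apply]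
  refine ⟨(U : Mat n), hH.eigenvalues, ?_, ?_, ?_⟩
  · rw [← hT]
    exact Unitary.mul_star_self_of_mem U.2
  · rw [← hT]
    exact Unitary.star_mul_self_of_mem U.2
  · rw [← hT]
    have h := hH.spectral_theorem
    rw [Unitary.conjStarAlgAut_apply] at h
    exact h

end LTd
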