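import Pool.Agent.Helper717.LT.Defs
import Pool.Agent.Helper717.LT.P_specS

set_option autoImplicit false

open MeasureTheory Set Filter Topology Real
open scoped Matrix

namespace LTd



theorem specP {n : ℕ} {M : Mat n} (hM : PSD M) :
    ∃ (V : Mat n) (r : Fin n → ℝ), V * Vᵀ = 1 ∧ Vᵀ * V = 1 ∧ (∀ i, 0 ≤ r i) ∧
      M = V * Matrix.diagonal r * Vᵀ := by
  obtain ⟨V, e, h1, h2, h3⟩ := specS hM.1
  refine ⟨V, e, h1, h2, fun i => ?_, h3⟩
  have h4 : Vᵀ * M * V = Matrix.diagonal e := by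
    rw [h3]
    calc Vᵀ * (V * Matrix.diagonal e * Vᵀ) * V
        = (Vᵀ * V) * Matrix.diagonal e * (Vᵀ * V) := by simp only [Matrix.mul_assoc]
      _ = Matrix.diagonal e := by rw [h2]; simp
  have h5 : (Vᵀ * M * V) i i = e i := by rw [h4]; simp
  have h6 := hM.2 (fun k => V k i)
  have h7 : ∑ k, ∑ l, V k i * V l i * M k l = (Vᵀ * M * V) i i := by
    simp only [Matrix.mul_apply, Matrix.transpose_apply, Finset.sum_mul]
    rw [Finset.sum_comm]
    refine Finset.sum_congr rfl fun l _ => Finset.sum_congr rfl fun k _ => ?_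
    ring
  rw [← h5, ← h7]
  exact h6

end LTd
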