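import Pool.Agent.Helper717.LT.Defs
import Pool.Agent.Helper717.LT.P_specP

set_option autoImplicit false

open MeasureTheory Set Filter Topology Real
open scoped Matrix

namespace LTd



theorem PSD_quad2 {n : ℕ} {R : Mat n} (hR : PSD R) (i j : Fin n) (c : ℝ) :
    0 ≤ R i i + c ^ 2 * R j j + 2 * c * R i j := by
  have h := hR.2 (fun a => (if a = i then 1 else 0) + c * (if a = j then 1 else 0))
  have h2 : ∑ a, ∑ b, ((if a = i then (1:ℝ) else 0) + c * (if a = j then 1 else 0)) *
      ((if b = i then (1:ℝ) else 0) + c * (if b = j then 1 else 0)) * R a b =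
      R i i + c ^ 2 * R j j + c * R i j + c * R j i := by
    simp only [add_mul, mul_add, Finset.sum_add_distrib]
    simp only [mul_assoc, ite_mul, one_mul, zero_mul, mul_ite, mul_zero, Finset.sum_ite_eq',
      Finset.mem_univ, if_true, mul_one, Finset.sum_ite_irrel, Finset.sum_const_zero]
    ring
  rw [h2, hR.1 j i] at h
  linarith

theorem PSD_diag {n : ℕ} {R : Mat n} (hR : PSD R) (i : Fin n) : 0 ≤ R i i := by
  have h := PSD_quad2 hR i i 0
  simpa using h

theorem PSD_entry {n : ℕ} {R : Mat n} (hR : PSD R) (i j : Fin n) : |R i j| ≤ R.trace := by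
  have h1 := PSD_quad2 hR i j 1
  have h2 := PSD_quad2 hR i j (-1)
  have h3 : ∀ k, R k k ≤ R.trace := fun k =>
    Finset.single_le_sum (f := fun k => R k k) (fun a _ => PSD_diag hR a) (Finset.mem_univ k)
  have h4 := h3 i
  have h5 := h3 j
  rw [abs_le]
  constructor <;> nlinarith

theorem PSD_trace3 {n : ℕ} {R : Mat n} (hR : PSD R) :
    R.trace ^ 3 ≤ n ^ 2 * (R * R * R).trace := by
  obtain ⟨V, r, h1, h2, h3, h4⟩ := specP hR
  have e1 : R.trace = ∑ i, r i := by
    rw [h4, Matrix.mul_assoc, Matrix.trace_mul_comm, Matrix.mul_assoc, h2, Matrix.mul_one,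
      Matrix.trace_diagonal]
  have e2 : (R * R * R).trace = ∑ i, r i ^ 3 := by
    have e3 : R * R * R = V * Matrix.diagonal (fun i => r i ^ 3) * Vᵀ := by
      rw [h4]
      calc V * Matrix.diagonal r * Vᵀ * (V * Matrix.diagonal r * Vᵀ) * (V * Matrix.diagonal r * Vᵀ)
          = V * (Matrix.diagonal r * (Vᵀ * V) * Matrix.diagonal r * (Vᵀ * V) * Matrix.diagonal r) *
            Vᵀ := by simp only [Matrix.mul_assoc]
        _ = _ := by
          rw [h2, Matrix.mul_one, Matrix.mul_one, Matrix.diagonal_mul_diagonal,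
            Matrix.diagonal_mul_diagonal]
          congr 3
          funext i
          ring
    rw [e3, Matrix.mul_assoc, Matrix.trace_mul_comm, Matrix.mul_assoc, h2, Matrix.mul_one,
      Matrix.trace_diagonal]
  rw [e1, e2]
  rcases Nat.eq_zero_or_pos n with hn | hn
  · subst hn
    simp
  · have h5 := pow_sum_div_card_le_sum_pow (s := Finset.univ) (f := r) (fun a _ => h3 a) 2
    rw [Finset.card_univ, Fintype.card_fin, div_le_iff₀ (by positivity)] at h5
    calc (∑ i, r i) ^ 3 ≤ (∑ i, r i ^ 3) * (n : ℝ) ^ 2 := h5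
      _ = _ := mul_comm _ _

theorem A_err {n : ℕ} (R : Mat n) (hR : PSD R) (x : Fin n → Fin n → Fin n → ℝ) (ε : ℝ)
    (hε : 0 ≤ ε) (hx : ∀ i j k, |x i j k| ≤ ε) :
    |∑ i, ∑ j, ∑ k, R i j * R j k * R k i * x i j k| ≤ ε * n ^ 5 * (R * R * R).trace := by
  have ht : 0 ≤ R.trace := Finset.sum_nonneg fun a _ => PSD_diag hR a
  have h1 : |∑ i, ∑ j, ∑ k, R i j * R j k * R k i * x i j k| ≤
      ∑ i : Fin n, ∑ j : Fin n, ∑ k : Fin n, R.trace ^ 3 * ε := by
    refine (Finset.abs_sum_le_sum_abs _ _).trans (Finset.sum_le_sum fun i _ => ?_)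
    refine (Finset.abs_sum_le_sum_abs _ _).trans (Finset.sum_le_sum fun j _ => ?_)
    refine (Finset.abs_sum_le_sum_abs _ _).trans (Finset.sum_le_sum fun k _ => ?_)
    rw [abs_mul, abs_mul, abs_mul]
    have a1 := PSD_entry hR i j
    have a2 := PSD_entry hR j k
    have a3 := PSD_entry hR k i
    calc |R i j| * |R j k| * |R k i| * |x i j k| ≤ R.trace * R.trace * R.trace * ε := by
          gcongr
          exact hx i j k
      _ = R.trace ^ 3 * ε := by ring
  refine h1.trans ?_
  simp only [Finset.sum_const, Finset.card_univ, Fintype.card_fin, nsmul_eq_mul]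
  have h2 := PSD_trace3 hR
  have hn : (0:ℝ) ≤ (n : ℝ) ^ 3 * ε := by positivity
  nlinarith [mul_le_mul_of_nonneg_left h2 hn]

end LTd
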