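import Pool.Agent.Helper717.LT.Defs

set_option autoImplicit false

open MeasureTheory Set Filter Topology Real
open scoped Matrix

namespace LTd



/-- The antiderivative. -/
noncomputable def kerFF (K : ℕ) (a : ℕ → ℝ) (x : ℝ) : ℝ :=
  ∑ n ∈ Finset.range K, a n / (n + 1) * x ^ (n + 1)

/-- The index set. -/
def kerA (K : ℕ) : Finset (ℕ × ℕ) :=
  (Finset.range K).biUnion fun n => Finset.HasAntidiagonal.antidiagonal (n + 1)

/-- The coefficients. -/
noncomputable def kerw (a : ℕ → ℝ) (q : ℕ × ℕ) : ℝ :=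
  a (q.1 + q.2 - 1) / ((q.1 + q.2 : ℕ) : ℝ) * ((q.1 + q.2).choose q.1 : ℕ)

lemma ker_PK_eq (K : ℕ) (a : ℕ → ℝ) (s t : ℝ) :
    PK (kerA K) (kerw a) s t = kerFF K a (s + t) := by
  unfold PK kerA kerFF
  rw [Finset.sum_biUnion]
  · refine Finset.sum_congr rfl fun n _ => ?_
    rw [(Commute.all s t).add_pow', Finset.mul_sum]
    refine Finset.sum_congr rfl fun q hq => ?_
    rw [Finset.HasAntidiagonal.mem_antidiagonal] at hq
    unfold kerw
    rw [hq, nsmul_eq_mul, Nat.add_sub_cancel]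
    push_cast
    ring
  · intro m _ n _ hmn
    rw [Function.onFun, Finset.disjoint_left]
    intro q hq hq'
    rw [Finset.HasAntidiagonal.mem_antidiagonal] at hq hq'
    exact hmn (by omega)

lemma ker_FF_deriv (K : ℕ) (a : ℕ → ℝ) (x : ℝ) :
    HasDerivAt (kerFF K a) (∑ n ∈ Finset.range K, a n * x ^ n) x := by
  unfold kerFF
  have h : ∀ n ∈ Finset.range K,
      HasDerivAt (fun x : ℝ => a n / (n + 1) * x ^ (n + 1)) (a n * x ^ n) x := by
    intro n _
    have h1 := (hasDerivAt_pow (n + 1) x).const_mul (a n / (n + 1))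
    refine h1.congr_deriv ?_
    have : (n : ℝ) + 1 ≠ 0 := by positivity
    push_cast
    field_simp
  exact HasDerivAt.fun_sum h

lemma ker_FF_zero (K : ℕ) (a : ℕ → ℝ) : kerFF K a 0 = 0 := by
  unfold kerFF; simp

lemma ker_DK_mul (A : Finset (ℕ × ℕ)) (w : ℕ × ℕ → ℝ) (s r t : ℝ) :
    DK A w s r t * (s - r) = PK A w s t - PK A w r t + (PK A w t s - PK A w t r) := by
  unfold DK PK gs
  rw [Finset.sum_mul, ← Finset.sum_sub_distrib, ← Finset.sum_sub_distrib, ← Finset.sum_add_distrib]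
  refine Finset.sum_congr rfl fun q _ => ?_
  have h1 := Commute.geom_sum₂_mul (Commute.all s r) q.1
  have h2 := Commute.geom_sum₂_mul (Commute.all s r) q.2
  linear_combination w q * t ^ q.2 * h1 + w q * t ^ q.1 * h2

lemma ker_PK_cont (A : Finset (ℕ × ℕ)) (w : ℕ × ℕ → ℝ) (t : ℝ) :
    Continuous fun y => PK A w t y := by
  unfold PK; fun_prop

lemma ker_DK_cont (A : Finset (ℕ × ℕ)) (w : ℕ × ℕ → ℝ) (r t : ℝ) :
    Continuous fun y => DK A w y r t := by
  unfold DK gs; fun_prop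

lemma ker_mem {θ : ℝ} (hθ0 : 0 < θ) (hθ : θ < π) {x : ℝ} (hx : x ∈ Icc (-1 : ℝ) 1) :
    θ / 2 * x ∈ Ioo (-(π / 2)) (π / 2) := by
  obtain ⟨h1, h2⟩ := hx
  constructor <;> nlinarith

lemma ker_cos {θ : ℝ} (hθ0 : 0 < θ) (hθ : θ < π) {x : ℝ} (hx : x ∈ Icc (-1 : ℝ) 1) :
    cos (θ / 2 * x) ≠ 0 :=
  (cos_pos_of_mem_Ioo (ker_mem hθ0 hθ hx)).ne'

/-- exact identity -/
lemma ker_exact {θ s r t : ℝ} (hθ0 : 0 < θ) (h1 : cos (θ / 2 * (s + t)) ≠ 0)
    (h2 : cos (θ / 2 * (r + t)) ≠ 0) (hne : s ≠ r) :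
    θ ^ 2 / 4 * (tan (θ / 2 * (s + t)) * tan (θ / 2 * (r + t))) +
      θ / 2 * ((-tan (θ / 2 * (s + t)) - -tan (θ / 2 * (r + t))) / (s - r)) + θ ^ 2 / 4 =
      TK θ s r t := by
  have hsr : s - r ≠ 0 := sub_ne_zero.2 hne
  have hd : θ * (s - r) / 2 ≠ 0 := by
    refine div_ne_zero (mul_ne_zero hθ0.ne' hsr) (by norm_num)
  unfold TK
  rw [Real.sinc_of_ne_zero hd]
  have e1 : θ * (s + t) / 2 = θ / 2 * (s + t) := by ring
  have e2 : θ * (r + t) / 2 = θ / 2 * (r + t) := by ring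
  have e3 : θ * (s - r) / 2 = θ / 2 * (s + t) - θ / 2 * (r + t) := by ring
  rw [e1, e2]
  have e4 : sin (θ * (s - r) / 2) / (θ * (s - r) / 2) =
      2 / θ * (sin (θ / 2 * (s + t) - θ / 2 * (r + t)) / (s - r)) := by
    rw [e3]
    have : θ / 2 * (s + t) - θ / 2 * (r + t) = θ / 2 * (s - r) := by ring
    rw [this]
    field_simp
  rw [e4, e3, sin_sub, cos_sub, tan_eq_sin_div_cos, tan_eq_sin_div_cos]
  set a := θ / 2 * (s + t)
  set b := θ / 2 * (r + t)
  have hθ' := hθ0.ne'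
  field_simp
  ring

theorem A_kernel {θ : ℝ} (hθ0 : 0 < θ) (hθ : θ < π) {ε : ℝ} (hε : 0 < ε) :
    ∃ (A : Finset (ℕ × ℕ)) (w : ℕ × ℕ → ℝ), (∀ s t, PK A w s t = PK A w t s) ∧
      ∀ s ∈ Icc (-(1 / 2) : ℝ) (1 / 2), ∀ r ∈ Icc (-(1 / 2) : ℝ) (1 / 2),
        ∀ t ∈ Icc (-(1 / 2) : ℝ) (1 / 2),
        |4 * (θ / 4) ^ 2 * (PK A w t s * PK A w t r) + θ / 4 * DK A w s r t + θ ^ 2 / 4 -
          TK θ s r t| ≤ ε := by
  set C : ℝ := tan (θ / 2) with hC
  have hθ2 : θ / 2 ∈ Ioo (-(π / 2)) (π / 2) := by constructor <;> linarith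
  have hC0 : 0 ≤ C := (tan_pos_of_pos_of_lt_pi_div_two (by linarith) hθ2.2).le
  set B : ℝ := 4 * (θ / 4) ^ 2 * (2 * C + 1) + 2 * (θ / 4) with hB
  have hB0 : 0 < B := by positivity
  set η : ℝ := min 1 (ε / B) with hη
  have hη0 : 0 < η := lt_min one_pos (div_pos hε hB0)
  have hη1 : η ≤ 1 := min_le_left _ _
  have hηB : η * B ≤ ε := by
    have := min_le_right (1:ℝ) (ε / B)
    rw [← hη, le_div_iff₀ hB0] at this
    exact this
  have hmem : ∀ x ∈ Icc (-1 : ℝ) 1, θ / 2 * x ∈ Ioo (-(π / 2)) (π / 2) :=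
    fun x hx => ker_mem hθ0 hθ hx
  have hcos : ∀ x ∈ Icc (-1 : ℝ) 1, cos (θ / 2 * x) ≠ 0 := fun x hx => ker_cos hθ0 hθ hx
  have hcont : ContinuousOn (fun x : ℝ => -(θ / 2 * (1 / cos (θ / 2 * x) ^ 2))) (Icc (-1) 1) := by
    refine (ContinuousOn.mul continuousOn_const (ContinuousOn.div continuousOn_const ?_ ?_)).neg
    · fun_prop
    · intro x hx
      exact pow_ne_zero 2 (hcos x hx)
  obtain ⟨q, hq⟩ := exists_polynomial_near_of_continuousOn (-1) 1 _ hcont η hη0
  set K : ℕ := q.natDegree + 1 with hK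
  set a : ℕ → ℝ := q.coeff with ha
  set F : ℝ → ℝ := kerFF K a with hF
  have hFd : ∀ x, HasDerivAt F (q.eval x) x := by
    intro x
    rw [Polynomial.eval_eq_sum_range]
    exact ker_FF_deriv K a x
  set G : ℝ → ℝ := fun x => -tan (θ / 2 * x) with hG
  have hGd : ∀ x ∈ Icc (-1 : ℝ) 1, HasDerivAt G (-(θ / 2 * (1 / cos (θ / 2 * x) ^ 2))) x := by
    intro x hx
    have h1 : HasDerivAt (fun x : ℝ => θ / 2 * x) (θ / 2) x := by
      simpa using (hasDerivAt_id x).const_mul (θ / 2)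
    have h2 := (hasDerivAt_tan (hcos x hx)).comp x h1
    refine h2.neg.congr_deriv ?_
    ring
  set H : ℝ → ℝ := fun x => F x - G x with hH
  have hHd : ∀ x ∈ Icc (-1 : ℝ) 1,
      HasDerivWithinAt H (q.eval x - -(θ / 2 * (1 / cos (θ / 2 * x) ^ 2))) (Icc (-1) 1) x :=
    fun x hx => ((hFd x).sub (hGd x hx)).hasDerivWithinAt
  have hHL : ∀ x ∈ Icc (-1 : ℝ) 1, ∀ y ∈ Icc (-1 : ℝ) 1, |H y - H x| ≤ η * |y - x| := by
    intro x hx y hy
    have := (convex_Icc (-1 : ℝ) 1).norm_image_sub_le_of_norm_hasDerivWithin_le (C := η) hHd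
      (fun z hz => by rw [Real.norm_eq_abs]; exact (hq z hz).le) hx hy
    simpa only [Real.norm_eq_abs] using this
  have hH0 : H 0 = 0 := by simp [hH, hG, hF, ker_FF_zero]
  have hHb : ∀ x ∈ Icc (-1 : ℝ) 1, |H x| ≤ η := by
    intro x hx
    have h1 := hHL 0 (by constructor <;> norm_num) x hx
    rw [hH0, sub_zero, sub_zero] at h1
    have h2 : |x| ≤ 1 := abs_le.2 hx
    nlinarith only [h1, h2, hη0]
  have hGb : ∀ x ∈ Icc (-1 : ℝ) 1, |G x| ≤ C := by
    intro x hx
    simp only [hG, abs_neg, hC]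
    have hm := hmem x hx
    have hh2 := hθ2
    rw [abs_le, ← tan_neg]
    obtain ⟨h1, h2⟩ := hx
    have hneg : -(θ / 2) ∈ Ioo (-(π / 2)) (π / 2) := by
      constructor <;> linarith [hh2.1, hh2.2]
    constructor
    · exact strictMonoOn_tan.monotoneOn hneg hm (by nlinarith only [h1, hθ0])
    · exact strictMonoOn_tan.monotoneOn hm hh2 (by nlinarith only [h2, hθ0])
  refine ⟨kerA K, kerw a, fun s t => by rw [ker_PK_eq, ker_PK_eq, add_comm], ?_⟩
  -- the inequality off the diagonal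
  have hoff : ∀ s ∈ Icc (-(1 / 2) : ℝ) (1 / 2), ∀ r ∈ Icc (-(1 / 2) : ℝ) (1 / 2),
        ∀ t ∈ Icc (-(1 / 2) : ℝ) (1 / 2), s ≠ r →
        |4 * (θ / 4) ^ 2 * (PK (kerA K) (kerw a) t s * PK (kerA K) (kerw a) t r) +
          θ / 4 * DK (kerA K) (kerw a) s r t + θ ^ 2 / 4 - TK θ s r t| ≤ ε := by
    intro s hs r hr t ht hne
    have hsr : s - r ≠ 0 := sub_ne_zero.2 hne
    have hw : s + t ∈ Icc (-1 : ℝ) 1 := ⟨by linarith [hs.1, ht.1], by linarith [hs.2, ht.2]⟩
    have hw' : r + t ∈ Icc (-1 : ℝ) 1 := ⟨by linarith [hr.1, ht.1], by linarith [hr.2, ht.2]⟩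
    have hD : DK (kerA K) (kerw a) s r t = 2 * ((F (s + t) - F (r + t)) / (s - r)) := by
      have := ker_DK_mul (kerA K) (kerw a) s r t
      rw [ker_PK_eq, ker_PK_eq, ker_PK_eq, ker_PK_eq, add_comm t s, add_comm t r] at this
      rw [← mul_div_assoc, eq_div_iff hsr, this]
      ring
    rw [hD, ker_PK_eq, ker_PK_eq, add_comm t s, add_comm t r,
      ← ker_exact hθ0 (hcos _ hw) (hcos _ hw') hne]
    have hFG : ∀ x, F x = G x + H x := fun x => by simp [hH]
    change |4 * (θ / 4) ^ 2 * (F (s + t) * F (r + t)) + θ / 4 * (2 * ((F (s + t) - F (r + t)) /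
      (s - r))) + θ ^ 2 / 4 - _| ≤ ε
    rw [hFG, hFG (r + t)]
    have h5 : |(H (s + t) - H (r + t)) / (s - r)| ≤ η := by
      rw [abs_div, div_le_iff₀ (abs_pos.2 hsr)]
      have := hHL _ hw' _ hw
      have e : s + t - (r + t) = s - r := by ring
      rwa [e] at this
    have e1 : (G (s + t) + H (s + t) - (G (r + t) + H (r + t))) / (s - r) =
        (G (s + t) - G (r + t)) / (s - r) + (H (s + t) - H (r + t)) / (s - r) := by
      rw [← add_div]; ring
    rw [e1]
    have hcross : |G (s + t) * H (r + t) + H (s + t) * G (r + t) + H (s + t) * H (r + t)| ≤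
        η * (2 * C + 1) := by
      have i1 : |G (s + t) * H (r + t)| ≤ C * η := by
        rw [abs_mul]; exact mul_le_mul (hGb _ hw) (hHb _ hw') (abs_nonneg _) hC0
      have i2 : |H (s + t) * G (r + t)| ≤ η * C := by
        rw [abs_mul]; exact mul_le_mul (hHb _ hw) (hGb _ hw') (abs_nonneg _) hη0.le
      have i3 : |H (s + t) * H (r + t)| ≤ η * η := by
        rw [abs_mul]; exact mul_le_mul (hHb _ hw) (hHb _ hw') (abs_nonneg _) hη0.le
      have i4 := abs_add_three (G (s + t) * H (r + t)) (H (s + t) * G (r + t))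
        (H (s + t) * H (r + t))
      nlinarith only [i1, i2, i3, i4, hη0, hη1]
    have eG : ∀ x, G x = -tan (θ / 2 * x) := fun x => rfl
    have etot : 4 * (θ / 4) ^ 2 * ((G (s + t) + H (s + t)) * (G (r + t) + H (r + t))) +
        θ / 4 * (2 * ((G (s + t) - G (r + t)) / (s - r) + (H (s + t) - H (r + t)) / (s - r))) +
        θ ^ 2 / 4 -
        (θ ^ 2 / 4 * (tan (θ / 2 * (s + t)) * tan (θ / 2 * (r + t))) +
        θ / 2 * ((-tan (θ / 2 * (s + t)) - -tan (θ / 2 * (r + t))) / (s - r)) + θ ^ 2 / 4) =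
        4 * (θ / 4) ^ 2 * (G (s + t) * H (r + t) + H (s + t) * G (r + t) + H (s + t) * H (r + t)) +
        2 * (θ / 4) * ((H (s + t) - H (r + t)) / (s - r)) := by
      rw [eG, eG]; ring
    rw [etot]
    have h6 : |4 * (θ / 4) ^ 2 *
        (G (s + t) * H (r + t) + H (s + t) * G (r + t) + H (s + t) * H (r + t))| ≤
        4 * (θ / 4) ^ 2 * (η * (2 * C + 1)) := by
      rw [abs_mul, abs_of_nonneg (by positivity : (0:ℝ) ≤ 4 * (θ / 4) ^ 2)]
      exact mul_le_mul_of_nonneg_left hcross (by positivity)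
    have h7 : |2 * (θ / 4) * ((H (s + t) - H (r + t)) / (s - r))| ≤ 2 * (θ / 4) * η := by
      rw [abs_mul, abs_of_nonneg (by positivity : (0:ℝ) ≤ 2 * (θ / 4))]
      exact mul_le_mul_of_nonneg_left h5 (by positivity)
    have h8 : 4 * (θ / 4) ^ 2 * (η * (2 * C + 1)) + 2 * (θ / 4) * η = η * B := by
      rw [hB]; ring
    exact (abs_add_le _ _).trans (by linarith only [h6, h7, h8, hηB])
  intro s hs r hr t ht
  by_cases hne : s = r
  · subst hne
    have hclos : ∀ y ∈ Icc (-(1 / 2) : ℝ) (1 / 2), y ≠ s →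
        |4 * (θ / 4) ^ 2 * (PK (kerA K) (kerw a) t y * PK (kerA K) (kerw a) t s) +
          θ / 4 * DK (kerA K) (kerw a) y s t + θ ^ 2 / 4 - TK θ y s t| ≤ ε :=
      fun y hy hys => hoff y hy s hs t ht hys
    have hw : s + t ∈ Icc (-1 : ℝ) 1 := ⟨by linarith [hs.1, ht.1], by linarith [hs.2, ht.2]⟩
    have hTc : ContinuousAt (fun y => TK θ y s t) s := by
      unfold TK
      have c1 : cos (θ * (s + t) / 2) ≠ 0 := by
        have := hcos _ hw
        rwa [show θ * (s + t) / 2 = θ / 2 * (s + t) by ring]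
      have hs1 : Continuous fun y : ℝ => sinc (θ * (y - s) / 2) :=
        Real.continuous_sinc.comp (by fun_prop)
      refine ContinuousAt.mul continuousAt_const (ContinuousAt.div ?_ ?_ ?_)
      · exact (hs1.sub (by fun_prop)).continuousAt
      · fun_prop
      · exact mul_ne_zero c1 c1
    have hcontf : ContinuousAt (fun y =>
        |4 * (θ / 4) ^ 2 * (PK (kerA K) (kerw a) t y * PK (kerA K) (kerw a) t s) +
          θ / 4 * DK (kerA K) (kerw a) y s t + θ ^ 2 / 4 - TK θ y s t|) s := by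
      have c2 := ker_PK_cont (kerA K) (kerw a) t
      have c3 := ker_DK_cont (kerA K) (kerw a) s t
      exact (((((continuous_const.mul (c2.mul continuous_const)).add
        (continuous_const.mul c3)).add continuous_const).continuousAt).sub hTc).abs
    set v : ℝ := if 0 < s then -1 else 1 with hv
    have hseq : Filter.Tendsto (fun n : ℕ => s + v * (1 / ((n : ℝ) + 2))) Filter.atTop
        (nhds (s + v * 0)) := by
      have h1 : Filter.Tendsto (fun n : ℕ => 1 / ((n : ℝ) + 2)) Filter.atTop (nhds 0) := by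
        have := (tendsto_one_div_add_atTop_nhds_zero_nat (𝕜 := ℝ)).comp
          (Filter.tendsto_add_atTop_nat 1)
        refine this.congr fun n => ?_
        simp only [Function.comp]
        push_cast
        ring_nf
      exact (h1.const_mul v).const_add s
    rw [mul_zero, add_zero] at hseq
    have hlim := (hcontf.tendsto).comp hseq
    refine le_of_tendsto hlim (Filter.Eventually.of_forall fun n => ?_)
    have hn : (0:ℝ) < 1 / ((n : ℝ) + 2) := by positivity
    have hn2 : 1 / ((n : ℝ) + 2) ≤ 1 / 2 := by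
      refine one_div_le_one_div_of_le (by norm_num) ?_
      have : (0:ℝ) ≤ n := Nat.cast_nonneg n
      linarith
    refine hclos _ ?_ ?_
    · by_cases h0 : 0 < s
      · simp only [hv, if_pos h0]
        constructor <;> linarith [hs.1, hs.2]
      · simp only [hv, if_neg h0]
        have : s ≤ 0 := not_lt.1 h0
        constructor <;> linarith [hs.1, hs.2]
    · by_cases h0 : 0 < s
      · simp only [hv, if_pos h0]
        intro h
        linarith
      · simp only [hv, if_neg h0]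
        intro h
        linarith
  · exact hoff s hs r hr t ht hne

end LTd
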