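import Pool.Agent.Helper717.LT.Defs

set_option autoImplicit false

open MeasureTheory Set Filter Topology Real
open scoped Matrix

namespace LTd



theorem A_trace1_pow {n : ℕ} (V : Mat n) (e : Fin n → ℝ) (hV : V * Vᵀ = 1) (hV' : Vᵀ * V = 1)
    (k : ℕ) : (V * Matrix.diagonal e * Vᵀ) ^ k = V * Matrix.diagonal (fun i => e i ^ k) * Vᵀ := by
  induction k with
  | zero => simp [hV]
  | succ k ih =>
    rw [pow_succ, ih]
    have : V * Matrix.diagonal (fun i => e i ^ k) * Vᵀ * (V * Matrix.diagonal e * Vᵀ)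
        = V * Matrix.diagonal (fun i => e i ^ k) * (Vᵀ * V) * Matrix.diagonal e * Vᵀ := by
      simp only [Matrix.mul_assoc]
    rw [this, hV', Matrix.mul_one, Matrix.mul_assoc V, Matrix.diagonal_mul_diagonal]
    congr 2
    
theorem A_trace1_tr {n : ℕ} (X : Mat n) (f g h : Fin n → ℝ) :
    (X * Matrix.diagonal f * X * Matrix.diagonal g * X * Matrix.diagonal h).trace =
      ∑ i, ∑ j, ∑ k, X i j * X j k * X k i * (h i * (f j * g k)) := by
  simp only [Matrix.trace, Matrix.diag_apply, Matrix.mul_diagonal]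
  refine Finset.sum_congr rfl fun i _ => ?_
  rw [Matrix.mul_apply, Finset.sum_mul, Finset.sum_comm]
  refine Finset.sum_congr rfl fun k _ => ?_
  rw [Matrix.mul_diagonal, Matrix.mul_apply, Finset.sum_mul, Finset.sum_mul, Finset.sum_mul]
  refine Finset.sum_congr rfl fun j _ => ?_
  rw [Matrix.mul_diagonal]
  ring

theorem A_trace1 {n : ℕ} (V R : Mat n) (e : Fin n → ℝ) (hV : V * Vᵀ = 1) (hV' : Vᵀ * V = 1)
    (a b : ℕ) :
    (R * dpow (V * Matrix.diagonal e * Vᵀ) R a * R * (V * Matrix.diagonal e * Vᵀ) ^ b).trace =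
      ∑ i, ∑ j, ∑ k, (Vᵀ * R * V) i j * (Vᵀ * R * V) j k * (Vᵀ * R * V) k i *
        (e i ^ b * gs a (e j) (e k)) := by
  unfold dpow gs
  rw [Matrix.mul_sum, Matrix.sum_mul, Matrix.sum_mul, Matrix.trace_sum]
  have h1 : ∀ l ∈ Finset.range a, (R * ((V * Matrix.diagonal e * Vᵀ) ^ l * R *
      (V * Matrix.diagonal e * Vᵀ) ^ (a - 1 - l)) * R * (V * Matrix.diagonal e * Vᵀ) ^ b).trace
      = ∑ i, ∑ j, ∑ k, (Vᵀ * R * V) i j * (Vᵀ * R * V) j k * (Vᵀ * R * V) k i *
        (e i ^ b * (e j ^ l * e k ^ (a - 1 - l))) := by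
    intro l _
    rw [A_trace1_pow V e hV hV', A_trace1_pow V e hV hV', A_trace1_pow V e hV hV']
    rw [← A_trace1_tr (Vᵀ * R * V) (fun j => e j ^ l) (fun k => e k ^ (a - 1 - l)) (fun i => e i ^ b)]
    have e1 : R * (V * Matrix.diagonal (fun i => e i ^ l) * Vᵀ * R *
        (V * Matrix.diagonal (fun i => e i ^ (a - 1 - l)) * Vᵀ)) * R *
        (V * Matrix.diagonal (fun i => e i ^ b) * Vᵀ)
        = (R * V * Matrix.diagonal (fun i => e i ^ l) * Vᵀ * R * V *
          Matrix.diagonal (fun i => e i ^ (a - 1 - l)) * Vᵀ * R * V *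
          Matrix.diagonal (fun i => e i ^ b)) * Vᵀ := by
      simp only [Matrix.mul_assoc]
    rw [e1, Matrix.trace_mul_comm]
    congr 1
    simp only [Matrix.mul_assoc]
  rw [Finset.sum_congr rfl h1]
  rw [Finset.sum_comm]
  refine Finset.sum_congr rfl fun i _ => ?_
  rw [Finset.sum_comm]
  refine Finset.sum_congr rfl fun j _ => ?_
  rw [Finset.sum_comm]
  refine Finset.sum_congr rfl fun k _ => ?_
  rw [Finset.mul_sum, Finset.mul_sum]

end LTd
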