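import Pool.Agent.Helper717.LT.Defs

set_option autoImplicit false

open MeasureTheory Set Filter Topology Real
open scoped Matrix

namespace LTd



theorem A_trace2_pow {n : ℕ} (V : Mat n) (e : Fin n → ℝ) (hV : V * Vᵀ = 1) (hV' : Vᵀ * V = 1)
    (k : ℕ) : (V * Matrix.diagonal e * Vᵀ) ^ k = V * Matrix.diagonal (fun i => e i ^ k) * Vᵀ := by
  induction k with
  | zero =>
    have h1 : (Matrix.diagonal fun i => e i ^ 0 : Mat n) = 1 := by simp
    rw [h1, Matrix.mul_one, hV, pow_zero]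
  | succ k ih =>
    rw [pow_succ, ih]
    have h1 : V * Matrix.diagonal (fun i => e i ^ k) * Vᵀ * (V * Matrix.diagonal e * Vᵀ) =
        V * Matrix.diagonal (fun i => e i ^ k) * (Vᵀ * V) * Matrix.diagonal e * Vᵀ := by
      simp only [Matrix.mul_assoc]
    rw [h1, hV', Matrix.mul_one, Matrix.mul_assoc V, Matrix.diagonal_mul_diagonal]
    simp only [pow_succ]

theorem A_trace2_one {n : ℕ} (V R : Mat n) (u v w : Fin n → ℝ) :
    (R * (V * Matrix.diagonal u * Vᵀ) * R *
      ((V * Matrix.diagonal v * Vᵀ) * R * (V * Matrix.diagonal w * Vᵀ))).trace =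
      ∑ i, ∑ j, ∑ k, (Vᵀ * R * V) i j * (Vᵀ * R * V) j k * (Vᵀ * R * V) k i *
        (u i * (v j * w k)) := by
  have h1 : R * (V * Matrix.diagonal u * Vᵀ) * R *
      ((V * Matrix.diagonal v * Vᵀ) * R * (V * Matrix.diagonal w * Vᵀ)) =
      (R * V * Matrix.diagonal u * Vᵀ * R * V * Matrix.diagonal v * Vᵀ * R * V *
        Matrix.diagonal w) * Vᵀ := by
    simp only [Matrix.mul_assoc]
  have h2 : Vᵀ * (R * V * Matrix.diagonal u * Vᵀ * R * V * Matrix.diagonal v * Vᵀ * R * V *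
        Matrix.diagonal w) =
      (Vᵀ * R * V) * Matrix.diagonal u * (Vᵀ * R * V) * Matrix.diagonal v * (Vᵀ * R * V) *
        Matrix.diagonal w := by
    simp only [Matrix.mul_assoc]
  rw [h1, Matrix.trace_mul_comm, h2]
  generalize (Vᵀ * R * V) = M
  have h3 : (M * Matrix.diagonal u * M * Matrix.diagonal v * M * Matrix.diagonal w).trace =
      ∑ k, ∑ j, ∑ i, M i j * M j k * M k i * (u i * (v j * w k)) := by
    simp only [Matrix.trace, Matrix.diag_apply]
    refine Finset.sum_congr rfl fun k _ => ?_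
    rw [Matrix.mul_diagonal, Matrix.mul_apply, Finset.sum_mul]
    refine Finset.sum_congr rfl fun j _ => ?_
    rw [Matrix.mul_diagonal, Matrix.mul_apply, Finset.sum_mul, Finset.sum_mul, Finset.sum_mul]
    refine Finset.sum_congr rfl fun i _ => ?_
    rw [Matrix.mul_diagonal]
    ring
  rw [h3, Finset.sum_comm]
  have h4 : ∀ j, ∑ k, ∑ i, M i j * M j k * M k i * (u i * (v j * w k)) =
      ∑ i, ∑ k, M i j * M j k * M k i * (u i * (v j * w k)) := fun j => Finset.sum_comm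
  simp only [h4]
  rw [Finset.sum_comm]

theorem A_trace2 {n : ℕ} (V R : Mat n) (e : Fin n → ℝ) (hV : V * Vᵀ = 1) (hV' : Vᵀ * V = 1)
    (a b : ℕ) :
    (R * (V * Matrix.diagonal e * Vᵀ) ^ a * R * dpow (V * Matrix.diagonal e * Vᵀ) R b).trace =
      ∑ i, ∑ j, ∑ k, (Vᵀ * R * V) i j * (Vᵀ * R * V) j k * (Vᵀ * R * V) k i *
        (e i ^ a * gs b (e j) (e k)) := by
  unfold dpow
  rw [Finset.mul_sum, Matrix.trace_sum]
  have h1 : ∀ l ∈ Finset.range b, (R * (V * Matrix.diagonal e * Vᵀ) ^ a * R *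
      ((V * Matrix.diagonal e * Vᵀ) ^ l * R * (V * Matrix.diagonal e * Vᵀ) ^ (b - 1 - l))).trace =
      ∑ i, ∑ j, ∑ k, (Vᵀ * R * V) i j * (Vᵀ * R * V) j k * (Vᵀ * R * V) k i *
        (e i ^ a * (e j ^ l * e k ^ (b - 1 - l))) := by
    intro l _
    rw [A_trace2_pow V e hV hV', A_trace2_pow V e hV hV', A_trace2_pow V e hV hV',
      A_trace2_one]
  rw [Finset.sum_congr rfl h1, Finset.sum_comm]
  refine Finset.sum_congr rfl fun i _ => ?_
  rw [Finset.sum_comm]
  refine Finset.sum_congr rfl fun j _ => ?_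
  rw [Finset.sum_comm]
  refine Finset.sum_congr rfl fun k _ => ?_
  unfold gs
  rw [← Finset.mul_sum, ← Finset.mul_sum]

end LTd
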