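import Pool.Agent.Helper717.LT.Defs

set_option autoImplicit false

open MeasureTheory Set Filter Topology Real
open scoped Matrix

namespace LTd



theorem conj_pow235 {n : ℕ} (V D : Mat n) (hV : V * Vᵀ = 1) (hV' : Vᵀ * V = 1) (a : ℕ) :
    (V * D * Vᵀ) ^ a = V * D ^ a * Vᵀ := by
  induction a with
  | zero => rw [pow_zero, pow_zero, Matrix.mul_one, hV]
  | succ a ih =>
    rw [pow_succ, ih, pow_succ]
    calc V * D ^ a * Vᵀ * (V * D * Vᵀ) = V * D ^ a * (Vᵀ * V) * D * Vᵀ := by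
          simp only [Matrix.mul_assoc]
      _ = V * (D ^ a * D) * Vᵀ := by rw [hV', Matrix.mul_one, Matrix.mul_assoc V]

theorem A_trace3 {n : ℕ} (A : Finset (ℕ × ℕ)) (w : ℕ × ℕ → ℝ) (V R : Mat n) (e : Fin n → ℝ)
    (hV : V * Vᵀ = 1) (hV' : Vᵀ * V = 1) :
    (YK A w (V * Matrix.diagonal e * Vᵀ) R * R * YK A w (V * Matrix.diagonal e * Vᵀ) R).trace =
      ∑ i, ∑ j, ∑ k, (Vᵀ * R * V) i j * (Vᵀ * R * V) j k * (Vᵀ * R * V) k i *
        (PK A w (e i) (e j) * PK A w (e k) (e i)) := by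
  obtain ⟨D, hD⟩ : ∃ D, D = (Matrix.diagonal e : Mat n) := ⟨_, rfl⟩
  obtain ⟨Rh, hRh⟩ : ∃ Rh, Rh = Vᵀ * R * V := ⟨_, rfl⟩
  obtain ⟨Yh, hYh⟩ : ∃ Yh, Yh = ∑ q ∈ A, w q • (D ^ q.1 * Rh * D ^ q.2) := ⟨_, rfl⟩
  have hY : YK A w (V * Matrix.diagonal e * Vᵀ) R = V * Yh * Vᵀ := by
    unfold YK
    rw [hYh, Matrix.mul_sum, Matrix.sum_mul]
    refine Finset.sum_congr rfl fun q _ => ?_
    rw [← hD, conj_pow235 V D hV hV', conj_pow235 V D hV hV', Matrix.mul_smul, Matrix.smul_mul,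
      hRh]
    simp only [Matrix.mul_assoc]
  have hYe : ∀ i j, Yh i j = PK A w (e i) (e j) * Rh i j := by
    intro i j
    rw [hYh, Matrix.sum_apply]
    unfold PK
    rw [Finset.sum_mul]
    refine Finset.sum_congr rfl fun q _ => ?_
    rw [Matrix.smul_apply, hD, Matrix.diagonal_pow, Matrix.diagonal_pow, Matrix.mul_diagonal,
      Matrix.diagonal_mul, smul_eq_mul, Pi.pow_apply, Pi.pow_apply]
    ring
  have h1 : YK A w (V * Matrix.diagonal e * Vᵀ) R * R * YK A w (V * Matrix.diagonal e * Vᵀ) R =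
      V * (Yh * Rh * Yh) * Vᵀ := by
    rw [hY, hRh]
    simp only [Matrix.mul_assoc]
  rw [h1, Matrix.trace_mul_comm, ← Matrix.mul_assoc, hV', Matrix.one_mul, ← hRh]
  unfold Matrix.trace
  refine Finset.sum_congr rfl fun i _ => ?_
  rw [Matrix.diag_apply, Matrix.mul_apply]
  have h2 : ∀ k, (Yh * Rh) i k * Yh k i = ∑ j, Yh i j * Rh j k * Yh k i := by
    intro k
    rw [Matrix.mul_apply, Finset.sum_mul]
  simp only [h2]
  rw [Finset.sum_comm]
  refine Finset.sum_congr rfl fun j _ => Finset.sum_congr rfl fun k _ => ?_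
  rw [hYe, hYe]
  ring

end LTd
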