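import Pool.Agent.Helper717.LT.Defs

set_option autoImplicit false

open MeasureTheory Set Filter Topology Real
open scoped Matrix

namespace LTd



theorem Q_int (x a : ℝ) :
    cos ((x + a) / 2) * (sinc ((x - a) / 2) - cos ((x - a) / 2)) =
      (x - a) ^ 2 / 2 * ∫ u in (0:ℝ)..1, u * (1 - u) * cos (u * a + (1 - u) * x) := by
  by_cases hxa : x = a
  · subst hxa
    simp
  · have hk : a - x ≠ 0 := sub_ne_zero.mpr (Ne.symm hxa)
    have hd : (x - a) / 2 ≠ 0 := by
      intro h0
      apply hk
      linarith
    have hder : ∀ u ∈ Set.uIcc (0:ℝ) 1, HasDerivAt (fun u : ℝ =>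
        u * (1 - u) * sin (u * a + (1 - u) * x) / (a - x) +
        (1 - 2 * u) * cos (u * a + (1 - u) * x) / (a - x) ^ 2 +
        2 * sin (u * a + (1 - u) * x) / (a - x) ^ 3)
        (u * (1 - u) * cos (u * a + (1 - u) * x)) u := by
      intro u _
      have h1 : HasDerivAt (fun u : ℝ => u * a + (1 - u) * x) (a - x) u := by
        have := ((hasDerivAt_id' u).mul_const a).fun_add (((hasDerivAt_id' u).const_sub 1).mul_const x)
        exact this.congr_deriv (by ring)
      have hs := h1.sin
      have hc := h1.cos
      have h2 : HasDerivAt (fun u : ℝ => u * (1 - u)) (1 - 2 * u) u := by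
        have := (hasDerivAt_id' u).fun_mul ((hasDerivAt_id' u).const_sub 1)
        exact this.congr_deriv (by ring)
      have h3 : HasDerivAt (fun u : ℝ => 1 - 2 * u) (-2) u := by
        have := ((hasDerivAt_id' u).const_mul 2).const_sub 1
        exact this.congr_deriv (by ring)
      have h4 := (((h2.fun_mul hs).div_const (a - x)).fun_add
        ((h3.fun_mul hc).div_const ((a - x) ^ 2))).fun_add
        ((hs.const_mul 2).div_const ((a - x) ^ 3))
      refine h4.congr_deriv ?_
      field_simp
      ring
    have hint : IntervalIntegrable (fun u : ℝ => u * (1 - u) * cos (u * a + (1 - u) * x)) volume 0 1 := by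
      apply Continuous.intervalIntegrable
      fun_prop
    rw [intervalIntegral.integral_eq_sub_of_hasDerivAt hder hint]
    rw [Real.sinc_of_ne_zero hd]
    have ea : cos a = cos ((x + a) / 2) * cos ((x - a) / 2) + sin ((x + a) / 2) * sin ((x - a) / 2) := by
      rw [← cos_sub]; congr 1; ring
    have ex : cos x = cos ((x + a) / 2) * cos ((x - a) / 2) - sin ((x + a) / 2) * sin ((x - a) / 2) := by
      rw [← cos_add]; congr 1; ring
    have sa : sin a = sin ((x + a) / 2) * cos ((x - a) / 2) - cos ((x + a) / 2) * sin ((x - a) / 2) := by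
      rw [← sin_sub]; congr 1; ring
    have sx : sin x = sin ((x + a) / 2) * cos ((x - a) / 2) + cos ((x + a) / 2) * sin ((x - a) / 2) := by
      rw [← sin_add]; congr 1; ring
    have e1 : (1:ℝ) * a + (1 - 1) * x = a := by ring
    have e0 : (0:ℝ) * a + (1 - 0) * x = x := by ring
    simp only [e1, e0]
    rw [ea, ex, sa, sx]
    generalize cos ((x + a) / 2) = p
    generalize sin ((x + a) / 2) = q
    generalize cos ((x - a) / 2) = r
    generalize sin ((x - a) / 2) = t
    have hk2 : x - a ≠ 0 := sub_ne_zero.mpr hxa
    have e3 : a - x = -(x - a) := by ring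
    rw [e3]
    generalize x - a = z at *
    field_simp
    ring

end LTd
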