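import Pool.Agent.Helper717.LT.Defs

set_option autoImplicit false

open MeasureTheory Set Filter Topology Real
open scoped Matrix

namespace LTd



theorem S_alg {n : ℕ} (W : Fin n → Fin n → Fin n → ℝ) (y : Fin n → ℝ)
    (h : Fin n → Fin n → ℝ) (hW1 : ∀ a b c, W a b c = W b a c)
    (hW2 : ∀ a b c, W a b c = W a c b) (hh : ∀ b c, h b c = h c b) :
    ∑ a, ∑ b, ∑ c, W a b c * ((y b - y c) ^ 2 * h b c) =
      ∑ b, ∑ a, ∑ c, W a b c * ((y b - y a) * (y b - y c) * (h b a + h b c)) := by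
  have e1 : ∑ a, ∑ b, ∑ c, W a b c * ((y b - y c) * (y a - y c) * h b c) =
      ∑ a, ∑ b, ∑ c, W a b c * ((y b - y a) * (y b - y c) * h b c) := by
    refine Finset.sum_congr rfl fun a _ => ?_
    rw [Finset.sum_comm]
    refine Finset.sum_congr rfl fun b _ => Finset.sum_congr rfl fun c _ => ?_
    rw [hW2 a c b, hh c b]
    ring
  have e2 : ∑ b, ∑ a, ∑ c, W a b c * ((y b - y a) * (y b - y c) * h b a) =
      ∑ b, ∑ a, ∑ c, W a b c * ((y b - y a) * (y b - y c) * h b c) := by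
    refine Finset.sum_congr rfl fun b _ => ?_
    rw [Finset.sum_comm]
    refine Finset.sum_congr rfl fun a _ => Finset.sum_congr rfl fun c _ => ?_
    rw [hW2 c b a, hW1 c a b, hW2 a c b]
    ring
  have e3 : ∑ b, ∑ a, ∑ c, W a b c * ((y b - y a) * (y b - y c) * h b c) =
      ∑ a, ∑ b, ∑ c, W a b c * ((y b - y a) * (y b - y c) * h b c) := Finset.sum_comm
  have e4 : ∑ a, ∑ b, ∑ c, W a b c * ((y b - y c) ^ 2 * h b c) =
      ∑ a, ∑ b, ∑ c, W a b c * ((y b - y a) * (y b - y c) * h b c) +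
      ∑ a, ∑ b, ∑ c, W a b c * ((y b - y c) * (y a - y c) * h b c) := by
    simp only [← Finset.sum_add_distrib]
    refine Finset.sum_congr rfl fun a _ => Finset.sum_congr rfl fun b _ =>
      Finset.sum_congr rfl fun c _ => ?_
    ring
  have e5 : ∑ b, ∑ a, ∑ c, W a b c * ((y b - y a) * (y b - y c) * (h b a + h b c)) =
      ∑ b, ∑ a, ∑ c, W a b c * ((y b - y a) * (y b - y c) * h b a) +
      ∑ b, ∑ a, ∑ c, W a b c * ((y b - y a) * (y b - y c) * h b c) := by
    simp only [← Finset.sum_add_distrib]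
    refine Finset.sum_congr rfl fun a _ => Finset.sum_congr rfl fun b _ =>
      Finset.sum_congr rfl fun c _ => ?_
    ring
  rw [e4, e5, e1, e2, e3]

end LTd
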