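import Pool.Agent.Helper717.LT.Defs

set_option autoImplicit false

open MeasureTheory Set Filter Topology Real
open scoped Matrix

namespace LTd



theorem K_add {I : Set ℝ} {k l : ℝ → ℝ → ℝ} {c d : ℝ} (hc : 0 ≤ c) (hd : 0 ≤ d)
    (hk : PSDK I k) (hl : PSDK I l) : PSDK I fun a b => c * k a b + d * l a b := by
  intro n y hy
  have h1 := hk n y hy
  have h2 := hl n y hy
  refine ⟨fun i j => ?_, fun v => ?_⟩
  · have e1 := h1.1 i j
    have e2 := h2.1 i j
    simp only [Matrix.of_apply] at e1 e2 ⊢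
    rw [e1, e2]
  · have e1 := h1.2 v
    have e2 := h2.2 v
    simp only [Matrix.of_apply] at e1 e2 ⊢
    have e3 : ∑ i, ∑ j, v i * v j * (c * k (y i) (y j) + d * l (y i) (y j)) =
        c * (∑ i, ∑ j, v i * v j * k (y i) (y j)) + d * (∑ i, ∑ j, v i * v j * l (y i) (y j)) := by
      simp only [Finset.mul_sum, ← Finset.sum_add_distrib]
      refine Finset.sum_congr rfl fun i _ => Finset.sum_congr rfl fun j _ => ?_
      ring
    rw [e3]
    exact add_nonneg (mul_nonneg hc e1) (mul_nonneg hd e2)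

end LTd
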