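import Pool.Agent.Helper717.LT.Defs

set_option autoImplicit false

open MeasureTheory Set Filter Topology Real
open scoped Matrix

namespace LTd



theorem K_cos (I : Set ℝ) (c : ℝ) : PSDK I fun a b => cos (c * (a - b)) := by
  intro n y _
  constructor
  · intro i j
    simp only [Matrix.of_apply]
    rw [← Real.cos_neg]
    congr 1
    ring
  · intro v
    have e : ∑ i, ∑ j, v i * v j * (Matrix.of fun i j => cos (c * (y i - y j)) : Mat n) i j =
        (∑ i, v i * cos (c * y i)) ^ 2 + (∑ i, v i * sin (c * y i)) ^ 2 := by
      rw [pow_two, pow_two, Finset.sum_mul_sum, Finset.sum_mul_sum, ← Finset.sum_add_distrib]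
      refine Finset.sum_congr rfl fun i _ => ?_
      rw [← Finset.sum_add_distrib]
      refine Finset.sum_congr rfl fun j _ => ?_
      rw [Matrix.of_apply, mul_sub, Real.cos_sub]
      ring
    rw [e]
    positivity

end LTd
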