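import Pool.Agent.Helper717.LT.Defs

set_option autoImplicit false

open MeasureTheory Set Filter Topology Real
open scoped Matrix

namespace LTd



theorem schur_psd_iff {n : ℕ} (M : Mat n) : PSD M ↔ M.PosSemidef := by
  rw [Matrix.posSemidef_iff_dotProduct_mulVec]
  have h : ∀ v : Fin n → ℝ, star v ⬝ᵥ (M *ᵥ v) = ∑ i, ∑ j, v i * v j * M i j := by
    intro v
    simp only [dotProduct, Matrix.mulVec, Pi.star_apply, star_trivial, Finset.mul_sum]
    refine Finset.sum_congr rfl fun i _ => Finset.sum_congr rfl fun j _ => ?_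
    ring
  constructor
  · rintro ⟨h1, h2⟩
    refine ⟨?_, fun v => by rw [h]; exact h2 v⟩
    ext i j
    simp only [Matrix.conjTranspose_apply, star_trivial]
    exact h1 j i
  · rintro ⟨h1, h2⟩
    refine ⟨fun i j => ?_, fun v => by rw [← h]; exact h2 v⟩
    have := congrFun (congrFun h1 j) i
    simpa only [Matrix.conjTranspose_apply, star_trivial] using this

theorem schur {n : ℕ} {A B : Mat n} (hA : PSD A) (hB : PSD B) :
    PSD (Matrix.of fun i j => A i j * B i j : Mat n) := by
  rw [schur_psd_iff] at hA hB ⊢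
  exact hA.hadamard hB

end LTd
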