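import Pool.Agent.Helper717.LT.Defs
import Pool.Agent.Helper717.LT.P_schur

set_option autoImplicit false

open MeasureTheory Set Filter Topology Real
open scoped Matrix

namespace LTd



theorem K_mul {I : Set ℝ} {k l : ℝ → ℝ → ℝ} (hk : PSDK I k) (hl : PSDK I l) :
    PSDK I fun a b => k a b * l a b := by
  intro n y hy
  exact schur (hk n y hy) (hl n y hy)

end LTd
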