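import Pool.Agent.Helper717.LT.Defs

set_option autoImplicit false

open MeasureTheory Set Filter Topology Real
open scoped Matrix

namespace LTd



theorem K_cauchy {I : Set ℝ} {p : ℝ → ℝ} (hp : ∀ a ∈ I, 0 < p a) :
    PSDK I fun a b => 1 / (p a + p b) := by
  intro n y hy
  refine ⟨fun i j => ?_, fun v => ?_⟩
  · simp only [Matrix.of_apply]
    rw [add_comm]
  · have hneg : ∀ i j, -(p (y i) + p (y j)) < 0 := fun i j => by
      have h1 := hp _ (hy i)
      have h2 := hp _ (hy j)
      linarith
    have hint : ∀ i j, Integrable (fun t : ℝ => v i * v j * Real.exp (-(p (y i) + p (y j)) * t))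
        (volume.restrict (Ioi 0)) := fun i j =>
      (integrableOn_exp_mul_Ioi (hneg i j) 0).const_mul (v i * v j)
    have e1 : ∑ i, ∑ j, v i * v j * (Matrix.of (fun i j => 1 / (p (y i) + p (y j))) : Mat n) i j =
        ∫ t in Ioi (0 : ℝ), ∑ i, ∑ j, v i * v j * Real.exp (-(p (y i) + p (y j)) * t) := by
      rw [integral_finsetSum _ (fun i _ => integrable_finsetSum _ (fun j _ => hint i j))]
      refine Finset.sum_congr rfl fun i _ => ?_
      rw [integral_finsetSum _ (fun j _ => hint i j)]
      refine Finset.sum_congr rfl fun j _ => ?_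
      rw [integral_const_mul, integral_exp_mul_Ioi (hneg i j) 0, Matrix.of_apply, mul_zero,
        Real.exp_zero, neg_div_neg_eq]
    rw [e1]
    refine integral_nonneg fun t => ?_
    have e2 : ∑ i, ∑ j, v i * v j * Real.exp (-(p (y i) + p (y j)) * t) =
        (∑ i, v i * Real.exp (-p (y i) * t)) ^ 2 := by
      rw [sq, Finset.sum_mul_sum]
      refine Finset.sum_congr rfl fun i _ => Finset.sum_congr rfl fun j _ => ?_
      rw [show -(p (y i) + p (y j)) * t = -p (y i) * t + -p (y j) * t by ring, Real.exp_add]
      ring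
    rw [Pi.zero_apply, e2]
    exact sq_nonneg _

end LTd
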