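import Pool.Agent.Helper717.LT.Defs
import Pool.Agent.Helper717.LT.P_K_add
import Pool.Agent.Helper717.LT.P_K_cauchy

set_option autoImplicit false

open MeasureTheory Set Filter Topology Real
open scoped Matrix

namespace LTd



theorem K_congr_aux {I : Set ℝ} {k l : ℝ → ℝ → ℝ} (h : ∀ a ∈ I, ∀ b ∈ I, k a b = l a b)
    (hk : PSDK I k) : PSDK I l := by
  intro n y hy
  have := hk n y hy
  have e : (Matrix.of fun i j => l (y i) (y j) : Mat n) = (Matrix.of fun i j => k (y i) (y j)) := by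
    ext i j
    simp only [Matrix.of_apply]
    exact (h _ (hy i) _ (hy j)).symm
  rw [e]; exact this

theorem K_one_aux {I : Set ℝ} : PSDK I fun _ _ => (1:ℝ) := by
  intro n y hy
  refine ⟨fun i j => by simp, fun v => ?_⟩
  have : ∑ i, ∑ j, v i * v j * (Matrix.of fun (_ _ : Fin n) => (1:ℝ)) i j = (∑ i, v i) ^ 2 := by
    simp only [Matrix.of_apply, mul_one]
    rw [sq, Finset.sum_mul_sum]
  have h2 : ∑ i, ∑ j, v i * v j * (Matrix.of fun (i j : Fin n) => (fun _ _ => (1:ℝ)) (y i) (y j)) i j = (∑ i, v i) ^ 2 := this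
  rw [h2]; positivity

theorem K_factor {c u : ℝ} (hc : π ≤ c) (hu0 : 0 ≤ u) (hu1 : u ≤ 1) :
    PSDK (Ioo 0 π) fun a b =>
      (1 - u ^ 2 * ((a + b) / 2) ^ 2 / c ^ 2) / (1 - ((a + b) / 2) ^ 2 / c ^ 2) := by
  have hπ := Real.pi_pos
  have hc0 : 0 < c := lt_of_lt_of_le hπ hc
  have h1 : PSDK (Ioo 0 π) fun a b => 1 / ((fun a => c - a) a + (fun a => c - a) b) :=
    K_cauchy (fun a ha => by
      have := ha.2
      show 0 < c - a
      linarith)
  have h2 : PSDK (Ioo 0 π) fun a b => 1 / ((fun a => c + a) a + (fun a => c + a) b) :=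
    K_cauchy (fun a ha => by
      have := ha.1
      show 0 < c + a
      linarith)
  have h3 := K_add (I := Ioo 0 π) (c := (1 - u ^ 2) * c) (d := (1 - u ^ 2) * c)
    (mul_nonneg (by nlinarith) hc0.le) (mul_nonneg (by nlinarith) hc0.le) h1 h2
  have h4 := K_add (I := Ioo 0 π) (c := u ^ 2) (d := 1) (by positivity) zero_le_one K_one_aux h3
  refine K_congr_aux ?_ h4
  intro a ha b hb
  have ha1 := ha.1
  have ha2 := ha.2
  have hb1 := hb.1
  have hb2 := hb.2
  have e1 : c - a + (c - b) ≠ 0 := by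
    have : 0 < c - a + (c - b) := by linarith
    exact this.ne'
  have e2 : c + a + (c + b) ≠ 0 := by
    have : 0 < c + a + (c + b) := by linarith
    exact this.ne'
  have e3 : 1 - ((a + b) / 2) ^ 2 / c ^ 2 ≠ 0 := by
    have h : 1 - ((a + b) / 2) ^ 2 / c ^ 2 = (c - a + (c - b)) * (c + a + (c + b)) / (4 * c ^ 2) := by
      field_simp
      ring
    rw [h]
    have : 0 < c ^ 2 := by positivity
    exact div_ne_zero (mul_ne_zero e1 e2) (by positivity)
  show u ^ 2 * 1 + 1 * ((1 - u ^ 2) * c * (1 / (c - a + (c - b))) + (1 - u ^ 2) * c * (1 / (c + a + (c + b)))) = _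
  rw [eq_div_iff e3]
  have hc0' := hc0.ne'
  field_simp
  ring

end LTd
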