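import Pool.Agent.Helper717.LT.Defs

set_option autoImplicit false

open MeasureTheory Set Filter Topology Real
open scoped Matrix

namespace LTd



theorem K_lim {I : Set ℝ} {k : ℕ → ℝ → ℝ → ℝ} {l : ℝ → ℝ → ℝ} (hk : ∀ N, PSDK I (k N))
    (hl : ∀ a ∈ I, ∀ b ∈ I, Tendsto (fun N => k N a b) atTop (𝓝 (l a b))) : PSDK I l := by
  intro n y hy
  have hT : ∀ i j, Tendsto (fun N => k N (y i) (y j)) atTop (𝓝 (l (y i) (y j))) :=
    fun i j => hl _ (hy i) _ (hy j)
  constructor
  · intro i j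
    have h1 : ∀ N, k N (y i) (y j) = k N (y j) (y i) := fun N => (hk N n y hy).1 i j
    have h2 := hT i j
    simp_rw [h1] at h2
    exact tendsto_nhds_unique h2 (hT j i)
  · intro v
    have h1 : Tendsto (fun N => ∑ i, ∑ j, v i * v j * k N (y i) (y j)) atTop
        (𝓝 (∑ i, ∑ j, v i * v j * l (y i) (y j))) :=
      tendsto_finsetSum _ fun i _ => tendsto_finsetSum _ fun j _ => (hT i j).const_mul _
    exact ge_of_tendsto' h1 fun N => (hk N n y hy).2 v

end LTd
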