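import Pool.Agent.Helper717.LT.Defs
import Pool.Agent.Helper717.LT.P_K_mul
import Pool.Agent.Helper717.LT.P_K_add
import Pool.Agent.Helper717.LT.P_K_lim
import Pool.Agent.Helper717.LT.P_K_factor

set_option autoImplicit false

open MeasureTheory Set Filter Topology Real
open scoped Matrix

namespace LTd



theorem K_const14152 {I : Set ℝ} {u : ℝ} (hu : 0 ≤ u) : PSDK I fun _ _ => u := by
  intro n y _
  refine ⟨fun i j => rfl, fun v => ?_⟩
  simp only [Matrix.of_apply]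
  have : ∑ i, ∑ j, v i * v j * u = u * (∑ i, v i) ^ 2 := by
    rw [sq, Finset.sum_mul_sum, Finset.mul_sum]
    refine Finset.sum_congr rfl fun i _ => ?_
    rw [Finset.mul_sum]
    exact Finset.sum_congr rfl fun j _ => by ring
  rw [this]; positivity

theorem K_prod14152 {u : ℝ} (hu0 : 0 ≤ u) (hu1 : u ≤ 1) (n : ℕ) :
    PSDK (Ioo 0 π) fun a b => u * ∏ j ∈ Finset.range n,
      ((1 - u ^ 2 * ((a + b) / 2) ^ 2 / (((j : ℝ) + 1) * π) ^ 2) /
        (1 - ((a + b) / 2) ^ 2 / (((j : ℝ) + 1) * π) ^ 2)) := by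
  induction n with
  | zero =>
    simp only [Finset.range_zero, Finset.prod_empty, mul_one]
    exact K_const14152 hu0
  | succ n ih =>
    have hc : π ≤ ((n : ℝ) + 1) * π := by
      have h1 : (0:ℝ) ≤ n := Nat.cast_nonneg n
      have h2 := Real.pi_pos
      nlinarith
    have h := K_mul ih (K_factor hc hu0 hu1)
    simp only [Finset.prod_range_succ]
    have e : (fun a b : ℝ => u * ((∏ j ∈ Finset.range n,
      ((1 - u ^ 2 * ((a + b) / 2) ^ 2 / (((j : ℝ) + 1) * π) ^ 2) /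
        (1 - ((a + b) / 2) ^ 2 / (((j : ℝ) + 1) * π) ^ 2))) *
        ((1 - u ^ 2 * ((a + b) / 2) ^ 2 / (((n : ℝ) + 1) * π) ^ 2) /
        (1 - ((a + b) / 2) ^ 2 / (((n : ℝ) + 1) * π) ^ 2)))) = fun a b : ℝ =>
      (u * ∏ j ∈ Finset.range n,
      ((1 - u ^ 2 * ((a + b) / 2) ^ 2 / (((j : ℝ) + 1) * π) ^ 2) /
        (1 - ((a + b) / 2) ^ 2 / (((j : ℝ) + 1) * π) ^ 2))) *
        ((1 - u ^ 2 * ((a + b) / 2) ^ 2 / (((n : ℝ) + 1) * π) ^ 2) /
        (1 - ((a + b) / 2) ^ 2 / (((n : ℝ) + 1) * π) ^ 2)) := by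
      funext a b
      ring
    rw [e]
    exact h

theorem K_sin {u : ℝ} (hu0 : 0 ≤ u) (hu1 : u ≤ 1) :
    PSDK (Ioo 0 π) fun a b => sin (u * ((a + b) / 2)) / sin ((a + b) / 2) := by
  refine K_lim (K_prod14152 hu0 hu1) ?_
  intro a ha b hb
  obtain ⟨y, hy⟩ : ∃ y, y = (a + b) / 2 := ⟨_, rfl⟩
  rw [← hy]
  have hy0 : 0 < y := by rw [hy]; linarith [ha.1, hb.1]
  have hyπ : y < π := by rw [hy]; linarith [ha.2, hb.2]
  have hs : sin y ≠ 0 := (Real.sin_pos_of_pos_of_lt_pi hy0 hyπ).ne'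
  have hπ := Real.pi_ne_zero
  have t1 := Real.tendsto_euler_sin_prod (u * y / π)
  have t2 := Real.tendsto_euler_sin_prod (y / π)
  rw [mul_div_cancel₀ _ hπ] at t1 t2
  have t3 := t1.div t2 hs
  refine t3.congr fun n => ?_
  simp only [Pi.div_apply]
  rw [Finset.prod_div_distrib, mul_div_mul_comm]
  congr 1
  · field_simp
  · congr 1
    · refine Finset.prod_congr rfl fun j _ => ?_
      rw [div_pow, mul_pow, mul_pow, div_div, mul_comm (π ^ 2)]
    · refine Finset.prod_congr rfl fun j _ => ?_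
      rw [div_pow, mul_pow, div_div, mul_comm (π ^ 2)]

end LTd
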