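import Pool.Agent.Helper717.LT.Defs
import Pool.Agent.Helper717.LT.P_K_mul
import Pool.Agent.Helper717.LT.P_K_add
import Pool.Agent.Helper717.LT.P_K_cos
import Pool.Agent.Helper717.LT.P_K_sin

set_option autoImplicit false

open MeasureTheory Set Filter Topology Real
open scoped Matrix

namespace LTd



theorem K_main_comp {I J : Set ℝ} {k : ℝ → ℝ → ℝ} (φ : ℝ → ℝ) (hφ : ∀ a ∈ I, φ a ∈ J)
    (hk : PSDK J k) : PSDK I fun a b => k (φ a) (φ b) :=
  fun n y hy => hk n (fun i => φ (y i)) fun i => hφ _ (hy i)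

theorem K_main_congr {I : Set ℝ} {k l : ℝ → ℝ → ℝ} (hk : PSDK I k)
    (h : ∀ a ∈ I, ∀ b ∈ I, k a b = l a b) : PSDK I l := by
  intro n y hy
  have h1 : (Matrix.of fun i j => l (y i) (y j) : Mat n) = Matrix.of fun i j => k (y i) (y j) := by
    ext i j
    exact (h _ (hy i) _ (hy j)).symm
  rw [h1]
  exact hk n y hy

theorem K_main_id (s c t : ℝ) :
    sin (s + c) * sin (s + t) = sin (s + t + c) * sin s + sin c * sin t := by
  have e1 : sin (s + t + c) = sin (s + t) * cos c + cos (s + t) * sin c := sin_add _ _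
  have e2 : sin t = sin (s + t) * cos s - cos (s + t) * sin s := by
    rw [← sin_sub]; congr 1; ring
  rw [e1, e2, sin_add s c]
  ring

theorem K_main {x u : ℝ} (hx : x ∈ Ioo (-(π / 2)) (π / 2)) (hu : u ∈ Ioo (0:ℝ) 1) :
    PSDK (Ioo (-(π / 2)) (π / 2)) fun a b =>
      cos (u * ((a + b) / 2) + (1 - u) * x) / cos ((a + b) / 2) * cos (u * ((a - b) / 2)) := by
  obtain ⟨hx1, hx2⟩ := hx
  obtain ⟨hu1, hu2⟩ := hu
  have hpi := Real.pi_pos
  set c : ℝ := (1 - u) * (x + π / 2) with hc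
  have hc0 : 0 < c := mul_pos (by linarith) (by linarith)
  have hcpi : c < (1 - u) * π := mul_lt_mul_of_pos_left (by linarith) (by linarith)
  have huπ0 : 0 < u * π := mul_pos hu1 hpi
  have huπ1 : u * π < π := by nlinarith
  have hsu : 0 < sin (u * π) := sin_pos_of_pos_of_lt_pi huπ0 huπ1
  have hA : 0 ≤ sin (u * π + c) / sin (u * π) :=
    div_nonneg (sin_pos_of_pos_of_lt_pi (by linarith) (by nlinarith)).le hsu.le
  have hB : 0 ≤ sin c / sin (u * π) :=
    div_nonneg (sin_pos_of_pos_of_lt_pi hc0 (by nlinarith)).le hsu.le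
  have k1 : PSDK (Ioo (-(π / 2)) (π / 2)) fun a b =>
      sin (u * (((a + π / 2) + (b + π / 2)) / 2)) / sin (((a + π / 2) + (b + π / 2)) / 2) :=
    K_main_comp (J := Ioo 0 π) (fun a => a + π / 2) (fun a ha => ⟨by linarith [ha.1], by linarith [ha.2]⟩)
      (K_sin hu1.le hu2.le)
  have k2 : PSDK (Ioo (-(π / 2)) (π / 2)) fun a b =>
      sin (u * (((π / 2 - a) + (π / 2 - b)) / 2)) / sin (((π / 2 - a) + (π / 2 - b)) / 2) :=
    K_main_comp (J := Ioo 0 π) (fun a => π / 2 - a) (fun a ha => ⟨by linarith [ha.2], by linarith [ha.1]⟩)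
      (K_sin hu1.le hu2.le)
  have k3 := K_mul (K_add hA hB k1 k2) (K_cos (Ioo (-(π / 2)) (π / 2)) (u / 2))
  refine K_main_congr k3 ?_
  intro a ha b hb
  have hy1 : -(π / 2) < (a + b) / 2 := by linarith [ha.1, hb.1]
  have hy2 : (a + b) / 2 < π / 2 := by linarith [ha.2, hb.2]
  set y := (a + b) / 2 with hy
  have e1 : ((a + π / 2) + (b + π / 2)) / 2 = y + π / 2 := by rw [hy]; ring
  have e2 : ((π / 2 - a) + (π / 2 - b)) / 2 = π / 2 - y := by rw [hy]; ring
  have e3 : u / 2 * (a - b) = u * ((a - b) / 2) := by ring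
  rw [e1, e2, e3]
  congr 1
  have hcy : 0 < cos y := cos_pos_of_mem_Ioo ⟨hy1, hy2⟩
  rw [sin_add_pi_div_two, sin_pi_div_two_sub]
  have hid := K_main_id (u * (y + π / 2)) c (u * (π / 2 - y))
  have e4 : u * (y + π / 2) + u * (π / 2 - y) = u * π := by ring
  have e5 : u * (y + π / 2) + c = u * y + (1 - u) * x + π / 2 := by rw [hc]; ring
  rw [e4, e5, sin_add_pi_div_two] at hid
  rw [div_mul_div_comm, div_mul_div_comm, ← add_div, ← hid,
    mul_comm (cos (u * y + (1 - u) * x)) (sin (u * π)), mul_div_mul_left _ _ hsu.ne']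

end LTd
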