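import Pool.Agent.Helper717.LT.Defs
import Pool.Agent.Helper717.LT.P_schur
import Pool.Agent.Helper717.LT.P_K_main

set_option autoImplicit false

open MeasureTheory Set Filter Topology Real
open scoped Matrix

namespace LTd



theorem S_u {n : ℕ} (R : Mat n) (hR : PSD R) (y : Fin n → ℝ)
    (hy : ∀ i, y i ∈ Ioo (-(π / 2)) (π / 2)) (b : Fin n) (u : ℝ) (hu : u ∈ Ioo (0:ℝ) 1) :
    0 ≤ ∑ a, ∑ c, R a b * R b c * R c a /
        (cos ((y a + y b) / 2) * cos ((y b + y c) / 2) * cos ((y c + y a) / 2)) *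
      ((y b - y a) * (y b - y c) *
        (cos (u * ((y a + y c) / 2) + (1 - u) * y b) * cos (u * ((y a - y c) / 2)))) := by
  have hK := K_main (hy b) hu n y hy
  have h := (schur hR hK).2 (fun a => R a b * (y b - y a) / cos ((y a + y b) / 2))
  refine h.trans_eq (Finset.sum_congr rfl fun a _ => Finset.sum_congr rfl fun c _ => ?_)
  simp only [Matrix.of_apply]
  rw [hR.1 c b, hR.1 a c, add_comm (y c) (y b), add_comm (y c) (y a)]
  ring

end LTd
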