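import Pool.Agent.Helper717.LT.Defs
import Pool.Agent.Helper717.LT.P_Q_int
import Pool.Agent.Helper717.LT.P_S_alg
import Pool.Agent.Helper717.LT.P_S_u

set_option autoImplicit false

open MeasureTheory Set Filter Topology Real
open scoped Matrix

namespace LTd



/-- the weight -/
noncomputable def sn_W {n : ℕ} (R : Mat n) (y : Fin n → ℝ) (a b c : Fin n) : ℝ :=
  R a b * R b c * R c a /
    (cos ((y a + y b) / 2) * cos ((y b + y c) / 2) * cos ((y c + y a) / 2))

/-- the half integrals -/
noncomputable def sn_h {n : ℕ} (y : Fin n → ℝ) (b c : Fin n) : ℝ :=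
  1 / 2 * ∫ u in (0:ℝ)..1, u * (1 - u) * cos (u * y c + (1 - u) * y b)

theorem sn_W1 {n : ℕ} (R : Mat n) (hR : ∀ i j, R i j = R j i) (y : Fin n → ℝ) (a b c : Fin n) :
    sn_W R y a b c = sn_W R y b a c := by
  unfold sn_W
  rw [hR b a, hR a c, hR c b, add_comm (y b) (y a), add_comm (y a) (y c), add_comm (y c) (y b)]
  ring

theorem sn_W2 {n : ℕ} (R : Mat n) (hR : ∀ i j, R i j = R j i) (y : Fin n → ℝ) (a b c : Fin n) :
    sn_W R y a b c = sn_W R y a c b := by
  unfold sn_W
  rw [hR c b, hR a c, hR b a, add_comm (y c) (y b), add_comm (y a) (y c), add_comm (y b) (y a)]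
  ring

theorem sn_hh {n : ℕ} (y : Fin n → ℝ) (b c : Fin n) : sn_h y b c = sn_h y c b := by
  unfold sn_h
  congr 1
  have h := intervalIntegral.integral_comp_sub_left (a := (0:ℝ)) (b := 1)
    (fun u => u * (1 - u) * cos (u * y c + (1 - u) * y b)) 1
  rw [sub_self, sub_zero] at h
  rw [← h]
  congr 1
  funext u
  congr 1
  · ring
  · congr 1
    ring

theorem sn_hadd {n : ℕ} (y : Fin n → ℝ) (b a c : Fin n) : sn_h y b a + sn_h y b c =
    ∫ u in (0:ℝ)..1, u * (1 - u) *
      (cos (u * ((y a + y c) / 2) + (1 - u) * y b) * cos (u * ((y a - y c) / 2))) := by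
  unfold sn_h
  rw [← mul_add, ← intervalIntegral.integral_add, ← intervalIntegral.integral_const_mul]
  · congr 1
    funext u
    have h1 : cos (u * y a + (1 - u) * y b) + cos (u * y c + (1 - u) * y b) =
        2 * (cos (u * ((y a + y c) / 2) + (1 - u) * y b) * cos (u * ((y a - y c) / 2))) := by
      have h2 : u * y a + (1 - u) * y b =
        (u * ((y a + y c) / 2) + (1 - u) * y b) + u * ((y a - y c) / 2) := by ring
      have h3 : u * y c + (1 - u) * y b =
        (u * ((y a + y c) / 2) + (1 - u) * y b) - u * ((y a - y c) / 2) := by ring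
      rw [h2, h3, cos_add, cos_sub]
      ring
    rw [← mul_add, h1]
    ring
  · exact Continuous.intervalIntegrable (by fun_prop) _ _
  · exact Continuous.intervalIntegrable (by fun_prop) _ _

theorem S_nonneg {n : ℕ} (R : Mat n) (hR : PSD R) (y : Fin n → ℝ)
    (hy : ∀ i, y i ∈ Ioo (-(π / 2)) (π / 2)) :
    0 ≤ ∑ a, ∑ b, ∑ c, R a b * R b c * R c a *
      ((sinc ((y b - y c) / 2) - cos ((y b - y c) / 2)) /
        (cos ((y b + y a) / 2) * cos ((y c + y a) / 2))) := by
  have hcos : ∀ i j, cos ((y i + y j) / 2) ≠ 0 := by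
    intro i j
    apply ne_of_gt
    apply cos_pos_of_mem_Ioo
    obtain ⟨h1, h2⟩ := hy i
    obtain ⟨h3, h4⟩ := hy j
    exact ⟨by linarith, by linarith⟩
  have h1 : ∀ a b c, R a b * R b c * R c a *
      ((sinc ((y b - y c) / 2) - cos ((y b - y c) / 2)) /
        (cos ((y b + y a) / 2) * cos ((y c + y a) / 2))) =
      sn_W R y a b c * ((y b - y c) ^ 2 * sn_h y b c) := by
    intro a b c
    have h2 := Q_int (y b) (y c)
    have h3 : (y b - y c) ^ 2 * sn_h y b c = cos ((y b + y c) / 2) *
        (sinc ((y b - y c) / 2) - cos ((y b - y c) / 2)) := by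
      rw [h2]
      unfold sn_h
      ring
    rw [h3]
    unfold sn_W
    rw [add_comm (y b) (y a)]
    have h4 := hcos a b
    have h5 := hcos b c
    have h6 := hcos c a
    field_simp
  simp only [h1]
  rw [S_alg (sn_W R y) y (sn_h y) (sn_W1 R hR.1 y) (sn_W2 R hR.1 y) (sn_hh y)]
  refine Finset.sum_nonneg fun b _ => ?_
  have h2 : ∑ a, ∑ c, sn_W R y a b c * ((y b - y a) * (y b - y c) * (sn_h y b a + sn_h y b c)) =
      ∫ u in (0:ℝ)..1, ∑ a, ∑ c, u * (1 - u) * (sn_W R y a b c * ((y b - y a) * (y b - y c) *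
        (cos (u * ((y a + y c) / 2) + (1 - u) * y b) * cos (u * ((y a - y c) / 2))))) := by
    rw [intervalIntegral.integral_finsetSum]
    · refine Finset.sum_congr rfl fun a _ => ?_
      rw [intervalIntegral.integral_finsetSum]
      · refine Finset.sum_congr rfl fun c _ => ?_
        rw [sn_hadd, ← mul_assoc, ← intervalIntegral.integral_const_mul]
        congr 1
        funext u
        ring
      · intro c _
        exact Continuous.intervalIntegrable (by fun_prop) _ _
    · intro a _
      exact Continuous.intervalIntegrable (by fun_prop) _ _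
  rw [h2]
  rw [intervalIntegral.integral_of_le zero_le_one, integral_Ioc_eq_integral_Ioo]
  refine setIntegral_nonneg measurableSet_Ioo fun u hu => ?_
  have h3 := S_u R hR y hy b u hu
  have h4 : ∑ a, ∑ c, u * (1 - u) * (sn_W R y a b c * ((y b - y a) * (y b - y c) *
        (cos (u * ((y a + y c) / 2) + (1 - u) * y b) * cos (u * ((y a - y c) / 2))))) =
      u * (1 - u) * ∑ a, ∑ c, (sn_W R y a b c * ((y b - y a) * (y b - y c) *
        (cos (u * ((y a + y c) / 2) + (1 - u) * y b) * cos (u * ((y a - y c) / 2))))) := by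
    simp only [Finset.mul_sum]
  rw [h4]
  exact mul_nonneg (mul_nonneg hu.1.le (by linarith [hu.2])) h3

end LTd
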