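import Pool.Agent.Helper717.LT.Defs
import Pool.Agent.Helper717.LT.P_specS
import Pool.Agent.Helper717.LT.P_S_nonneg
import Pool.Agent.Helper717.LT.P_A_trace1
import Pool.Agent.Helper717.LT.P_A_trace2
import Pool.Agent.Helper717.LT.P_A_trace3
import Pool.Agent.Helper717.LT.P_A_err

set_option autoImplicit false

open MeasureTheory Set Filter Topology Real
open scoped Matrix

namespace LTd



theorem ap_quad {n : ℕ} (M V : Mat n) (v : Fin n → ℝ) :
    ∑ i, ∑ j, v i * v j * (Vᵀ * M * V) i j =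
      ∑ a, ∑ b, (∑ i, V a i * v i) * (∑ j, V b j * v j) * M a b := by
  have h1 : ∀ N : Mat n, ∀ u : Fin n → ℝ,
      ∑ i, ∑ j, u i * u j * N i j = u ⬝ᵥ (N.mulVec u) := by
    intro N u
    simp only [dotProduct, Matrix.mulVec, Finset.mul_sum]
    refine Finset.sum_congr rfl fun i _ => Finset.sum_congr rfl fun j _ => ?_
    ring
  have h2 : (fun a => ∑ i, V a i * v i) = V.mulVec v := rfl
  have h3 := h1 M (V.mulVec v)
  have h4 : ∑ a, ∑ b, (∑ i, V a i * v i) * (∑ j, V b j * v j) * M a b =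
      (V.mulVec v) ⬝ᵥ (M.mulVec (V.mulVec v)) := h3
  rw [h4, h1, ← Matrix.mulVec_mulVec, ← Matrix.mulVec_mulVec, Matrix.dotProduct_mulVec,
    Matrix.vecMul_transpose]

theorem ap_psd {n : ℕ} (M V : Mat n) (hM : PSD M) : PSD (Vᵀ * M * V) := by
  have hs : Mᵀ = M := by
    ext i j
    exact hM.1 j i
  refine ⟨fun i j => ?_, fun v => ?_⟩
  · have h1 : (Vᵀ * M * V)ᵀ = Vᵀ * M * V := by
      rw [Matrix.transpose_mul, Matrix.transpose_mul, Matrix.transpose_transpose, hs,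
        Matrix.mul_assoc]
    calc (Vᵀ * M * V) i j = (Vᵀ * M * V)ᵀ j i := rfl
      _ = (Vᵀ * M * V) j i := by rw [h1]
  · rw [ap_quad]
    exact hM.2 _

theorem ap_diag {n : ℕ} (M : Mat n) (hM : PSD M) (i : Fin n) : 0 ≤ M i i := by
  classical
  have h := hM.2 (fun j => if j = i then 1 else 0)
  simpa using h

theorem ap_tr {n : ℕ} (M : Mat n) :
    (M * M * M).trace = ∑ i, ∑ j, ∑ k, M i j * M j k * M k i := by
  simp only [Matrix.trace, Matrix.diag, Matrix.mul_apply, Finset.sum_mul]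
  refine Finset.sum_congr rfl fun i _ => ?_
  rw [Finset.sum_comm]

theorem ap_tr2 {n : ℕ} (V R : Mat n) (hV : V * Vᵀ = 1) :
    ((Vᵀ * R * V) * (Vᵀ * R * V) * (Vᵀ * R * V)).trace = (R * R * R).trace := by
  have h1 : (Vᵀ * R * V) * (Vᵀ * R * V) * (Vᵀ * R * V) =
      Vᵀ * (R * (V * Vᵀ) * R * (V * Vᵀ) * R * V) := by
    simp only [Matrix.mul_assoc]
  rw [h1, hV, Matrix.trace_mul_comm]
  have h2 : R * 1 * R * 1 * R * V * Vᵀ = R * R * R * (V * Vᵀ) := by
    simp only [Matrix.mul_assoc, Matrix.one_mul]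
  rw [h2, hV, Matrix.mul_one]

theorem A_point {n : ℕ} {θ ε : ℝ} (hθ0 : 0 < θ) (hθ : θ < π) (hε : 0 ≤ ε)
    (A : Finset (ℕ × ℕ)) (w : ℕ × ℕ → ℝ) (hsym : ∀ s t, PK A w s t = PK A w t s)
    (hK : ∀ s ∈ Icc (-(1 / 2) : ℝ) (1 / 2), ∀ r ∈ Icc (-(1 / 2) : ℝ) (1 / 2),
        ∀ t ∈ Icc (-(1 / 2) : ℝ) (1 / 2),
        |4 * (θ / 4) ^ 2 * (PK A w t s * PK A w t r) + θ / 4 * DK A w s r t + θ ^ 2 / 4 -
          TK θ s r t| ≤ ε)
    (B R : Mat n) (hB : ∀ i j, B i j = B j i) (hB1 : PSD ((1 / 2 : ℝ) • 1 + B))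
    (hB2 : PSD ((1 / 2 : ℝ) • 1 - B)) (hR : PSD R) :
    θ / 4 * (∑ q ∈ A, w q * ((R * dpow B R q.1 * R * B ^ q.2).trace +
        (R * B ^ q.1 * R * dpow B R q.2).trace)) +
      4 * (θ / 4) ^ 2 * (YK A w B R * R * YK A w B R).trace +
      (θ ^ 2 / 4 - ε * n ^ 5) * (R * R * R).trace ≤ 0 := by
  obtain ⟨V, e, hV, hV', rfl⟩ := specS hB
  set Rh : Mat n := Vᵀ * R * V with hRh
  have hRhP : PSD Rh := ap_psd R V hR
  have hD : Vᵀ * (V * Matrix.diagonal e * Vᵀ) * V = Matrix.diagonal e := by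
    calc Vᵀ * (V * Matrix.diagonal e * Vᵀ) * V =
        (Vᵀ * V) * Matrix.diagonal e * (Vᵀ * V) := by simp only [Matrix.mul_assoc]
      _ = Matrix.diagonal e := by rw [hV', Matrix.one_mul, Matrix.mul_one]
  have hI : Vᵀ * ((1 / 2 : ℝ) • (1 : Mat n)) * V = (1 / 2 : ℝ) • (1 : Mat n) := by
    rw [Matrix.mul_smul, Matrix.mul_one, Matrix.smul_mul, hV']
  have he : ∀ i, e i ∈ Icc (-(1 / 2) : ℝ) (1 / 2) := by
    intro i
    constructor
    · have h1 := ap_diag _ (ap_psd _ V hB1) i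
      rw [Matrix.mul_add, Matrix.add_mul, hD, hI] at h1
      simp only [Matrix.add_apply, Matrix.smul_apply, Matrix.one_apply_eq,
        Matrix.diagonal_apply_eq, smul_eq_mul, mul_one] at h1
      linarith
    · have h1 := ap_diag _ (ap_psd _ V hB2) i
      rw [Matrix.mul_sub, Matrix.sub_mul, hD, hI] at h1
      simp only [Matrix.sub_apply, Matrix.smul_apply, Matrix.one_apply_eq,
        Matrix.diagonal_apply_eq, smul_eq_mul, mul_one] at h1
      linarith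
  -- the four sums
  have e1 : ∑ q ∈ A, w q * ((R * dpow (V * Matrix.diagonal e * Vᵀ) R q.1 * R *
        (V * Matrix.diagonal e * Vᵀ) ^ q.2).trace +
      (R * (V * Matrix.diagonal e * Vᵀ) ^ q.1 * R *
        dpow (V * Matrix.diagonal e * Vᵀ) R q.2).trace) =
      ∑ i, ∑ j, ∑ k, Rh i j * Rh j k * Rh k i * DK A w (e j) (e k) (e i) := by
    have h1 : ∀ q ∈ A, w q * ((R * dpow (V * Matrix.diagonal e * Vᵀ) R q.1 * R *
        (V * Matrix.diagonal e * Vᵀ) ^ q.2).trace +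
      (R * (V * Matrix.diagonal e * Vᵀ) ^ q.1 * R *
        dpow (V * Matrix.diagonal e * Vᵀ) R q.2).trace) =
        ∑ i, ∑ j, ∑ k, Rh i j * Rh j k * Rh k i * (w q * (e i ^ q.2 * gs q.1 (e j) (e k) +
          e i ^ q.1 * gs q.2 (e j) (e k))) := by
      intro q _
      rw [A_trace1 V R e hV hV' q.1 q.2, A_trace2 V R e hV hV' q.1 q.2,
        ← Finset.sum_add_distrib, Finset.mul_sum]
      refine Finset.sum_congr rfl fun i _ => ?_
      rw [← Finset.sum_add_distrib, Finset.mul_sum]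
      refine Finset.sum_congr rfl fun j _ => ?_
      rw [← Finset.sum_add_distrib, Finset.mul_sum]
      refine Finset.sum_congr rfl fun k _ => ?_
      ring
    rw [Finset.sum_congr rfl h1, Finset.sum_comm]
    refine Finset.sum_congr rfl fun i _ => ?_
    rw [Finset.sum_comm]
    refine Finset.sum_congr rfl fun j _ => ?_
    rw [Finset.sum_comm]
    refine Finset.sum_congr rfl fun k _ => ?_
    rw [DK, Finset.mul_sum]
  have e3 : (YK A w (V * Matrix.diagonal e * Vᵀ) R * R *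
      YK A w (V * Matrix.diagonal e * Vᵀ) R).trace =
      ∑ i, ∑ j, ∑ k, Rh i j * Rh j k * Rh k i *
        (PK A w (e i) (e j) * PK A w (e i) (e k)) := by
    rw [A_trace3 A w V R e hV hV']
    refine Finset.sum_congr rfl fun i _ => Finset.sum_congr rfl fun j _ =>
      Finset.sum_congr rfl fun k _ => ?_
    rw [hsym (e k) (e i)]
  have e4 : (R * R * R).trace = ∑ i, ∑ j, ∑ k, Rh i j * Rh j k * Rh k i := by
    rw [← ap_tr2 V R hV, ap_tr]
  have hs := S_nonneg Rh hRhP (fun i => θ * e i) (fun i => by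
    have h1 := (he i).1
    have h2 := (he i).2
    constructor <;> nlinarith)
  have hx := A_err Rh hRhP (fun i j k =>
    4 * (θ / 4) ^ 2 * (PK A w (e i) (e j) * PK A w (e i) (e k)) +
      θ / 4 * DK A w (e j) (e k) (e i) + θ ^ 2 / 4 - TK θ (e j) (e k) (e i)) ε hε
    (fun i j k => hK (e j) (he j) (e k) (he k) (e i) (he i))
  rw [ap_tr2 V R hV] at hx
  have hx2 := (abs_le.1 hx).2
  have hT : ∑ i, ∑ j, ∑ k, Rh i j * Rh j k * Rh k i * TK θ (e j) (e k) (e i) =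
      -(θ ^ 2 / 4) * ∑ a, ∑ b, ∑ c, Rh a b * Rh b c * Rh c a *
      ((sinc ((θ * e b - θ * e c) / 2) - cos ((θ * e b - θ * e c) / 2)) /
        (cos ((θ * e b + θ * e a) / 2) * cos ((θ * e c + θ * e a) / 2))) := by
    rw [Finset.mul_sum]
    refine Finset.sum_congr rfl fun i _ => ?_
    rw [Finset.mul_sum]
    refine Finset.sum_congr rfl fun j _ => ?_
    rw [Finset.mul_sum]
    refine Finset.sum_congr rfl fun k _ => ?_
    rw [TK, ← mul_sub, ← mul_add, ← mul_add]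
    ring
  have hT2 : ∑ i, ∑ j, ∑ k, Rh i j * Rh j k * Rh k i * TK θ (e j) (e k) (e i) ≤ 0 := by
    rw [hT]
    have : 0 ≤ θ ^ 2 / 4 := by positivity
    nlinarith
  have hsum : ∑ i, ∑ j, ∑ k, Rh i j * Rh j k * Rh k i *
      (4 * (θ / 4) ^ 2 * (PK A w (e i) (e j) * PK A w (e i) (e k)) +
      θ / 4 * DK A w (e j) (e k) (e i) + θ ^ 2 / 4 - TK θ (e j) (e k) (e i)) =
      4 * (θ / 4) ^ 2 * (∑ i, ∑ j, ∑ k, Rh i j * Rh j k * Rh k i *
        (PK A w (e i) (e j) * PK A w (e i) (e k))) +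
      θ / 4 * (∑ i, ∑ j, ∑ k, Rh i j * Rh j k * Rh k i * DK A w (e j) (e k) (e i)) +
      θ ^ 2 / 4 * (∑ i, ∑ j, ∑ k, Rh i j * Rh j k * Rh k i) -
      ∑ i, ∑ j, ∑ k, Rh i j * Rh j k * Rh k i * TK θ (e j) (e k) (e i) := by
    simp only [Finset.mul_sum, ← Finset.sum_add_distrib, ← Finset.sum_sub_distrib]
    refine Finset.sum_congr rfl fun i _ => Finset.sum_congr rfl fun j _ =>
      Finset.sum_congr rfl fun k _ => ?_
    ring
  rw [hsum, ← e4, ← e1, ← e3] at hx2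
  linarith

end LTd
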