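import Pool.Agent.Helper717.LT.Defs

set_option autoImplicit false

open MeasureTheory Set Filter Topology Real
open scoped Matrix

namespace LTd



theorem gam_der {n : ℕ} {R S Q : ℝ → Mat n} (h : Sys R S Q) (x : ℝ) (i j : Fin n) :
    HasDerivAt (fun t => Gam R t i j) (R x i j) x := by
  obtain ⟨M, hM⟩ := h.supp
  have hc : Continuous fun t => R t i j :=
    continuous_iff_continuousAt.2 fun y => (h.der y i j).continuousAt
  have hcs : HasCompactSupport fun t => R t i j := by
    refine HasCompactSupport.intro (isCompact_Icc (a := -M) (b := M)) fun y hy => ?_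
    have hy2 : M < |y| := by
      by_contra hcon
      push Not at hcon
      exact hy (abs_le.1 hcon)
    rw [(hM y hy2).1]
    rfl
  have hint : Integrable fun t => R t i j := hc.integrable_of_hasCompactSupport hcs
  have h1 : (fun t => Gam R t i j) = fun t => Gam R x i j + ∫ s in x..t, R s i j := by
    ext t
    have h2 := intervalIntegral.integral_Iic_sub_Iic (f := fun t => R t i j) (a := x) (b := t)
      hint.integrableOn hint.integrableOn
    show ∫ s in Iic t, R s i j = (∫ s in Iic x, R s i j) + ∫ s in x..t, R s i j
    rw [← h2]
    ring
  rw [h1]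
  exact ((hc.integral_hasStrictDerivAt x x).hasDerivAt).const_add _

end LTd
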