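import Pool.Agent.Helper717.LT.Defs

set_option autoImplicit false

open MeasureTheory Set Filter Topology Real
open scoped Matrix

namespace LTd



theorem sys_psd {n : ℕ} {R S Q : ℝ → Mat n} (h : Sys R S Q) (x : ℝ) : PSD (R x) := by
  refine ⟨h.symR x, fun v => ?_⟩
  rcases Nat.eq_zero_or_pos n with hn | hn
  · subst hn
    simp
  · let i0 : Fin n := ⟨0, hn⟩
    let Y : Mat n := Matrix.of fun i j => if i = i0 then v j else 0
    have hk := h.key x 0 Y
    have e : (Y * R x * Yᵀ).trace = ∑ i, ∑ j, v i * v j * R x i j := by
      have e1 : (Y * R x * Yᵀ).trace = ∑ i, ∑ j, (∑ k, Y i k * R x k j) * Y i j := by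
        simp only [Matrix.trace, Matrix.diag, Matrix.mul_apply, Matrix.transpose_apply]
      rw [e1, Finset.sum_eq_single i0]
      · have hY : ∀ j, Y i0 j = v j := fun j => by simp [Y]
        simp only [hY, Finset.sum_mul]
        rw [Finset.sum_comm]
        refine Finset.sum_congr rfl fun i _ => Finset.sum_congr rfl fun j _ => ?_
        ring
      · intro i _ hi
        have hY : ∀ j, Y i j = 0 := fun j => by simp [Y, hi]
        simp [hY]
      · intro hi
        exact absurd (Finset.mem_univ _) hi
    rw [← e]
    simpa using hk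

end LTd
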