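import Pool.Agent.Helper717.LT.Defs
import Pool.Agent.Helper717.LT.P_sys_psd

set_option autoImplicit false

open MeasureTheory Set Filter Topology Real
open scoped Matrix

namespace LTd



theorem gam_psd_cont {n : ℕ} {R S Q : ℝ → Mat n} (h : Sys R S Q) (i j : Fin n) :
    Continuous fun t => R t i j :=
  continuous_iff_continuousAt.2 fun x => (h.der x i j).continuousAt

theorem gam_psd_int {n : ℕ} {R S Q : ℝ → Mat n} (h : Sys R S Q) (i j : Fin n) :
    Integrable fun t => R t i j := by
  obtain ⟨M, hM⟩ := h.supp
  refine (gam_psd_cont h i j).integrable_of_hasCompactSupport ?_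
  refine HasCompactSupport.of_support_subset_isCompact (isCompact_Icc (a := -M) (b := M)) ?_
  intro t ht
  by_contra hcon
  apply ht
  have h1 : M < |t| := by
    by_contra h2
    exact hcon (abs_le.1 (not_lt.1 h2))
  have := (hM t h1).1
  simp [this]

theorem gam_psd_set {n : ℕ} {R S Q : ℝ → Mat n} (h : Sys R S Q) (s : Set ℝ)
    (hs : MeasurableSet s) : PSD (Matrix.of fun i j => ∫ t in s, R t i j : Mat n) := by
  refine ⟨fun i j => ?_, fun v => ?_⟩
  · simp only [Matrix.of_apply]
    congr 1
    funext t
    exact h.symR t i j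
  · simp only [Matrix.of_apply]
    have h1 : ∑ i, ∑ j, v i * v j * ∫ t in s, R t i j
        = ∫ t in s, ∑ i, ∑ j, v i * v j * R t i j := by
      rw [integral_finsetSum]
      · refine Finset.sum_congr rfl fun i _ => ?_
        rw [integral_finsetSum]
        · refine Finset.sum_congr rfl fun j _ => ?_
          rw [integral_const_mul]
        · intro j _
          exact ((gam_psd_int h i j).integrableOn).const_mul _
      · intro i _
        refine integrable_finsetSum _ fun j _ => ?_
        exact ((gam_psd_int h i j).integrableOn).const_mul _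
    rw [h1]
    exact setIntegral_nonneg hs fun t _ => (sys_psd h t).2 v

theorem gam_psd {n : ℕ} {R S Q : ℝ → Mat n} (h : Sys R S Q) (x : ℝ) :
    PSD (Gam R x) ∧ PSD (Tot R - Gam R x) := by
  refine ⟨gam_psd_set h (Iic x) measurableSet_Iic, ?_⟩
  have h2 : Tot R - Gam R x = (Matrix.of fun i j => ∫ t in Ioi x, R t i j : Mat n) := by
    ext i j
    have := integral_add_compl (μ := volume) (s := Iic x) measurableSet_Iic (gam_psd_int h i j)
    rw [compl_Iic] at this
    simp only [Tot, Gam, Matrix.sub_apply, Matrix.of_apply]
    linarith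
  rw [h2]
  exact gam_psd_set h (Ioi x) measurableSet_Ioi

end LTd
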