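import Pool.Agent.Helper717.LT.Defs
import Pool.Agent.Helper717.LT.P_specS
import Pool.Agent.Helper717.LT.P_A_kernel
import Pool.Agent.Helper717.LT.P_A_point
import Pool.Agent.Helper717.LT.P_A_deriv
import Pool.Agent.Helper717.LT.P_sys_psd
import Pool.Agent.Helper717.LT.P_gam_der
import Pool.Agent.Helper717.LT.P_gam_psd

set_option autoImplicit false

open MeasureTheory Set Filter Topology Real
open scoped Matrix

namespace LTd



theorem A_main_psd_add {n : ℕ} {M N : Mat n} (hM : PSD M) (hN : PSD N) : PSD (M + N) := by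
  refine ⟨fun i j => by rw [Matrix.add_apply, Matrix.add_apply, hM.1 i j, hN.1 i j], fun v => ?_⟩
  have h1 := hM.2 v
  have h2 := hN.2 v
  have h3 : ∑ i, ∑ j, v i * v j * (M + N) i j =
      ∑ i, ∑ j, v i * v j * M i j + ∑ i, ∑ j, v i * v j * N i j := by
    simp only [Matrix.add_apply, mul_add, Finset.sum_add_distrib]
  rw [h3]
  exact add_nonneg h1 h2

theorem A_main_sym {n : ℕ} (A : Finset (ℕ × ℕ)) (w : ℕ × ℕ → ℝ)
    (hsym : ∀ s t, PK A w s t = PK A w t s) {B R : Mat n} (hB : ∀ i j, B i j = B j i)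
    (hR : ∀ i j, R i j = R j i) : (YK A w B R)ᵀ = YK A w B R := by
  obtain ⟨V, e, hV1, hV2, hBe⟩ := specS hB
  have hpow : ∀ a : ℕ, B ^ a = V * Matrix.diagonal (fun i => e i ^ a) * Vᵀ := by
    intro a
    induction a with
    | zero => simp [hV1]
    | succ a ih =>
      have e1 : B ^ (a + 1) = V * Matrix.diagonal (fun i => e i ^ a) * Vᵀ *
          (V * Matrix.diagonal e * Vᵀ) := by
        rw [pow_succ, ih, ← hBe]
      rw [e1]
      calc V * Matrix.diagonal (fun i => e i ^ a) * Vᵀ * (V * Matrix.diagonal e * Vᵀ)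
          = V * Matrix.diagonal (fun i => e i ^ a) * (Vᵀ * V) * Matrix.diagonal e * Vᵀ := by
            simp only [Matrix.mul_assoc]
        _ = V * (Matrix.diagonal (fun i => e i ^ a) * Matrix.diagonal e) * Vᵀ := by
            rw [hV2, Matrix.mul_one]
            simp only [Matrix.mul_assoc]
        _ = _ := by
            rw [Matrix.diagonal_mul_diagonal]
            simp only [pow_succ]
  have hRt : Rᵀ = R := by
    ext i j
    exact hR j i
  have hYK : YK A w B R = V * (Matrix.of fun i j => PK A w (e i) (e j) * (Vᵀ * R * V) i j) * Vᵀ := by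
    unfold YK
    have e1 : (Matrix.of fun i j => PK A w (e i) (e j) * (Vᵀ * R * V) i j : Mat n) =
        ∑ q ∈ A, w q • (Matrix.diagonal (fun i => e i ^ q.1) * (Vᵀ * R * V) *
          Matrix.diagonal (fun i => e i ^ q.2)) := by
      ext i j
      rw [Matrix.of_apply, Matrix.sum_apply]
      unfold PK
      rw [Finset.sum_mul]
      refine Finset.sum_congr rfl (fun q _ => ?_)
      rw [Matrix.smul_apply, Matrix.mul_diagonal, Matrix.diagonal_mul, smul_eq_mul]
      ring
    rw [e1, Matrix.mul_sum, Matrix.sum_mul]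
    refine Finset.sum_congr rfl (fun q _ => ?_)
    rw [hpow, hpow, Matrix.mul_smul, Matrix.smul_mul]
    simp only [Matrix.mul_assoc]
  rw [hYK, Matrix.transpose_mul, Matrix.transpose_mul, Matrix.transpose_transpose]
  have hRh : ∀ i j, (Vᵀ * R * V) i j = (Vᵀ * R * V) j i := by
    intro i j
    have e1 : (Vᵀ * R * V)ᵀ = Vᵀ * R * V := by
      rw [Matrix.transpose_mul, Matrix.transpose_mul, Matrix.transpose_transpose, hRt,
        Matrix.mul_assoc]
    conv_lhs => rw [← e1]
    rfl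
  have hK : (Matrix.of fun i j => PK A w (e i) (e j) * (Vᵀ * R * V) i j : Mat n)ᵀ =
      Matrix.of fun i j => PK A w (e i) (e j) * (Vᵀ * R * V) i j := by
    ext i j
    show PK A w (e j) (e i) * (Vᵀ * R * V) j i = PK A w (e i) (e j) * (Vᵀ * R * V) i j
    rw [hsym, hRh j i]
  rw [hK]
  exact (Matrix.mul_assoc _ _ _).symm

theorem A_main_pt {n : ℕ} (A : Finset (ℕ × ℕ)) (w : ℕ × ℕ → ℝ)
    (hsym : ∀ s t, PK A w s t = PK A w t s) (θ : ℝ) {B R : Mat n} (S : Mat n)
    (hB : ∀ i j, B i j = B j i) (hR : ∀ i j, R i j = R j i) :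
    θ / 4 * (∑ q ∈ A, w q * (((S + Sᵀ) * B ^ q.1 * R * B ^ q.2).trace +
      (R * B ^ q.1 * (S + Sᵀ) * B ^ q.2).trace)) = θ * (S * YK A w B R).trace := by
  have hRt : Rᵀ = R := by
    ext i j
    exact hR j i
  have hBt : Bᵀ = B := by
    ext i j
    exact hB j i
  have hs : YK A w B R = (YK A w B R)ᵀ := (A_main_sym A w hsym hB hR).symm
  have e1 : ∀ q : ℕ × ℕ, (R * B ^ q.1 * (S + Sᵀ) * B ^ q.2).trace =
      ((S + Sᵀ) * B ^ q.1 * R * B ^ q.2).trace := by
    intro q
    rw [← Matrix.trace_transpose]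
    simp only [Matrix.transpose_mul, Matrix.transpose_pow, hRt, hBt, Matrix.transpose_add,
      Matrix.transpose_transpose]
    rw [Matrix.trace_mul_comm]
    rw [add_comm (Sᵀ) S]
    simp only [Matrix.mul_assoc]
  have e2 : ∑ q ∈ A, w q * ((S + Sᵀ) * B ^ q.1 * R * B ^ q.2).trace =
      ((S + Sᵀ) * YK A w B R).trace := by
    unfold YK
    rw [Matrix.mul_sum, Matrix.trace_sum]
    refine Finset.sum_congr rfl (fun q _ => ?_)
    rw [Matrix.mul_smul, Matrix.trace_smul, smul_eq_mul]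
    simp only [Matrix.mul_assoc]
  have e3 : (Sᵀ * YK A w B R).trace = (S * YK A w B R).trace := by
    rw [← Matrix.trace_transpose, Matrix.transpose_mul, Matrix.transpose_transpose, ← hs,
      Matrix.trace_mul_comm]
  have e4 : ∑ q ∈ A, w q * (((S + Sᵀ) * B ^ q.1 * R * B ^ q.2).trace +
      (R * B ^ q.1 * (S + Sᵀ) * B ^ q.2).trace) = 4 * (S * YK A w B R).trace := by
    calc _ = 2 * ∑ q ∈ A, w q * ((S + Sᵀ) * B ^ q.1 * R * B ^ q.2).trace := by
          rw [Finset.mul_sum]
          refine Finset.sum_congr rfl (fun q _ => ?_)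
          rw [e1]
          ring
      _ = _ := by
          rw [e2, Matrix.add_mul, Matrix.trace_add, e3]
          ring
  rw [e4]
  ring

theorem A_main_key {n : ℕ} (A : Finset (ℕ × ℕ)) (w : ℕ × ℕ → ℝ)
    (hsym : ∀ s t, PK A w s t = PK A w t s) (θ : ℝ) {B R : Mat n} (S Q : Mat n)
    (hB : ∀ i j, B i j = B j i) (hR : ∀ i j, R i j = R j i)
    (hk : ∀ X Y : Mat n, 0 ≤ (X * Q * Xᵀ).trace - 2 * (X * S * Yᵀ).trace + (Y * R * Yᵀ).trace) :
    θ * (S * YK A w B R).trace - 4 * (θ / 4) ^ 2 * (YK A w B R * R * YK A w B R).trace ≤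
      Q.trace := by
  have h := hk 1 ((θ / 2) • YK A w B R)
  have hs := A_main_sym A w hsym hB hR
  rw [Matrix.transpose_one, Matrix.one_mul, Matrix.one_mul, Matrix.mul_one, Matrix.transpose_smul, hs,
    Matrix.mul_smul, Matrix.trace_smul, Matrix.smul_mul, Matrix.mul_smul, Matrix.smul_mul,
    Matrix.trace_smul, Matrix.trace_smul] at h
  simp only [smul_eq_mul] at h
  nlinarith

theorem A_main {n : ℕ} {R S Q : ℝ → Mat n} (h : Sys R S Q) (hT : PSD (1 - Tot R))
    {θ ε : ℝ} (hθ0 : 0 < θ) (hθ : θ < π) (hε : 0 < ε) :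
    (θ ^ 2 / 4 - ε * n ^ 5) * ∫ x, (R x * R x * R x).trace ≤ ∫ x, (Q x).trace := by
  obtain ⟨A, w, hsym, hK⟩ := A_kernel hθ0 hθ hε
  obtain ⟨B, hBdef⟩ : ∃ B : ℝ → Mat n, B = fun x => Gam R x - (1 / 2 : ℝ) • 1 := ⟨_, rfl⟩
  have hBd : ∀ x i j, HasDerivAt (fun t => B t i j) (R x i j) x := by
    intro x i j
    rw [hBdef]
    exact (gam_der h x i j).sub_const _
  have hRd : ∀ x i j, HasDerivAt (fun t => R t i j) ((S x + (S x)ᵀ) i j) x := h.der
  have hRc : Continuous R := by
    refine continuous_matrix (fun i j => ?_)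
    exact continuous_iff_continuousAt.2 (fun x => (hRd x i j).continuousAt)
  have hBc : Continuous B := by
    refine continuous_matrix (fun i j => ?_)
    exact continuous_iff_continuousAt.2 (fun x => (hBd x i j).continuousAt)
  have hSc : Continuous S := continuous_matrix h.cS
  have hQc : Continuous Q := continuous_matrix h.cQ
  have hBs : ∀ x i j, B x i j = B x j i := by
    intro x i j
    rw [hBdef]
    have h1 := (gam_psd h x).1.1 i j
    have h2 : (1 : Mat n) i j = (1 : Mat n) j i := by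
      rw [Matrix.one_apply, Matrix.one_apply]
      simp only [eq_comm]
    show Gam R x i j - (1 / 2 : ℝ) * (1 : Mat n) i j = Gam R x j i - (1 / 2 : ℝ) * (1 : Mat n) j i
    rw [h1, h2]
  obtain ⟨M, hM⟩ := h.supp
  have hcs : ∀ g : ℝ → ℝ, Continuous g → (∀ x, R x = 0 → S x = 0 → Q x = 0 → g x = 0) →
      Integrable g := by
    intro g hg hg0
    refine hg.integrable_of_hasCompactSupport (HasCompactSupport.intro (isCompact_Icc (a := -M) (b := M)) ?_)
    intro x hx
    have h1 : M < |x| := by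
      by_contra hc
      push Not at hc
      exact hx (mem_Icc.2 (abs_le.1 hc))
    obtain ⟨h2, h3, h4⟩ := hM x h1
    exact hg0 x h2 h3 h4
  have hdc : ∀ a : ℕ, Continuous (fun x => dpow (B x) (R x) a) := by
    intro a
    unfold dpow
    fun_prop
  have hΦd : ∀ x, HasDerivAt (fun t => θ / 4 * ∑ q ∈ A, w q * (R t * B t ^ q.1 * R t * B t ^ q.2).trace)
      (θ / 4 * ∑ q ∈ A, w q * (((S x + (S x)ᵀ) * B x ^ q.1 * R x * B x ^ q.2).trace +
        (R x * dpow (B x) (R x) q.1 * R x * B x ^ q.2).trace +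
        (R x * B x ^ q.1 * (S x + (S x)ᵀ) * B x ^ q.2).trace +
        (R x * B x ^ q.1 * R x * dpow (B x) (R x) q.2).trace)) x := by
    intro x
    refine HasDerivAt.const_mul _ (HasDerivAt.fun_sum (fun q _ => HasDerivAt.const_mul _ ?_))
    exact A_deriv hBd hRd q.1 q.2 x
  have hΦi : Integrable (fun t => θ / 4 * ∑ q ∈ A, w q * (R t * B t ^ q.1 * R t * B t ^ q.2).trace) := by
    refine hcs _ (by fun_prop) (fun x h1 _ _ => ?_)
    simp [h1]
  have hΦ'i : Integrable (fun x => θ / 4 * ∑ q ∈ A, w q * (((S x + (S x)ᵀ) * B x ^ q.1 * R x * B x ^ q.2).trace +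
        (R x * dpow (B x) (R x) q.1 * R x * B x ^ q.2).trace +
        (R x * B x ^ q.1 * (S x + (S x)ᵀ) * B x ^ q.2).trace +
        (R x * B x ^ q.1 * R x * dpow (B x) (R x) q.2).trace)) := by
    refine hcs _ ?_ (fun x h1 _ _ => ?_)
    · have := hdc
      fun_prop
    · simp [h1]
  have hint0 := integral_eq_zero_of_hasDerivAt_of_integrable hΦd hΦ'i hΦi
  have hR3i : Integrable (fun x => (R x * R x * R x).trace) := by
    refine hcs _ (by fun_prop) (fun x h1 _ _ => ?_)
    simp [h1]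
  have hQi : Integrable (fun x => (Q x).trace) := by
    refine hcs _ (by fun_prop) (fun x _ _ h1 => ?_)
    simp [h1]
  have hpt : ∀ x, (θ / 4 * ∑ q ∈ A, w q * (((S x + (S x)ᵀ) * B x ^ q.1 * R x * B x ^ q.2).trace +
        (R x * dpow (B x) (R x) q.1 * R x * B x ^ q.2).trace +
        (R x * B x ^ q.1 * (S x + (S x)ᵀ) * B x ^ q.2).trace +
        (R x * B x ^ q.1 * R x * dpow (B x) (R x) q.2).trace)) +
      (θ ^ 2 / 4 - ε * n ^ 5) * (R x * R x * R x).trace ≤ (Q x).trace := by
    intro x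
    have h1 := A_main_pt A w hsym θ (S x) (hBs x) (h.symR x)
    have h2 := A_main_key A w hsym θ (S x) (Q x) (hBs x) (h.symR x) (h.key x)
    have h3 := A_point hθ0 hθ hε.le A w hsym hK (B x) (R x) (hBs x)
      (by
        have e : (1 / 2 : ℝ) • (1 : Mat n) + B x = Gam R x := by
          rw [hBdef]
          module
        rw [e]
        exact (gam_psd h x).1)
      (by
        have e : (1 / 2 : ℝ) • (1 : Mat n) - B x = (1 - Tot R) + (Tot R - Gam R x) := by
          rw [hBdef]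
          module
        rw [e]
        exact A_main_psd_add hT (gam_psd h x).2)
      (sys_psd h x)
    have h4 : (θ / 4 * ∑ q ∈ A, w q * (((S x + (S x)ᵀ) * B x ^ q.1 * R x * B x ^ q.2).trace +
        (R x * dpow (B x) (R x) q.1 * R x * B x ^ q.2).trace +
        (R x * B x ^ q.1 * (S x + (S x)ᵀ) * B x ^ q.2).trace +
        (R x * B x ^ q.1 * R x * dpow (B x) (R x) q.2).trace)) =
        θ / 4 * (∑ q ∈ A, w q * (((S x + (S x)ᵀ) * B x ^ q.1 * R x * B x ^ q.2).trace +
          (R x * B x ^ q.1 * (S x + (S x)ᵀ) * B x ^ q.2).trace)) +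
        θ / 4 * (∑ q ∈ A, w q * ((R x * dpow (B x) (R x) q.1 * R x * B x ^ q.2).trace +
        (R x * B x ^ q.1 * R x * dpow (B x) (R x) q.2).trace)) := by
      rw [← mul_add, ← Finset.sum_add_distrib]
      congr 1
      refine Finset.sum_congr rfl (fun q _ => ?_)
      ring
    rw [h4, h1]
    linarith
  have hfin := integral_mono (hΦ'i.add (hR3i.const_mul (θ ^ 2 / 4 - ε * n ^ 5))) hQi hpt
  have e5 := integral_add hΦ'i (hR3i.const_mul (θ ^ 2 / 4 - ε * n ^ 5))
  rw [hint0, zero_add, integral_const_mul] at e5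
  calc _ = _ := e5.symm
    _ ≤ _ := hfin

end LTd
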