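import Pool.Agent.Helper717.LT.Defs

set_option autoImplicit false

open MeasureTheory Set Filter Topology Real
open scoped Matrix

namespace LTd



theorem Cc_LamC_pos {g : ℝ} (hg : 3 / 2 < g) : 0 < LamC g := by
  unfold LamC
  have h1 : 0 < Real.Gamma (g - 3 / 2) := Real.Gamma_pos_of_pos (by linarith)
  have h2 : 0 < Real.Gamma (3 / 2) := Real.Gamma_pos_of_pos (by norm_num)
  have h3 : 0 < Real.Gamma g := Real.Gamma_pos_of_pos (by linarith)
  positivity

theorem Cc_DC_pos {g : ℝ} (hg : 3 / 2 < g) : 0 < DC g := by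
  unfold DC
  have h1 : 0 < Real.Gamma (g - 3 / 2) := Real.Gamma_pos_of_pos (by linarith)
  have h2 : 0 < Real.Gamma 3 := Real.Gamma_pos_of_pos (by norm_num)
  have h3 : 0 < Real.Gamma (g + 3 / 2) := Real.Gamma_pos_of_pos (by linarith)
  positivity

theorem Cc_a {g : ℝ} (hg : 3 / 2 < g) : a0C g ^ (g - 1) = g * cc g / LamC g := by
  have hL := Cc_LamC_pos hg
  have hg0 : 0 < g := by linarith
  have hg1 : 0 < g - 1 := by linarith
  unfold a0C cc
  have e1 : 1 - 1 / g = (g - 1) / g := by field_simp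
  rw [e1, Real.mul_rpow (by positivity) (by positivity), ← Real.rpow_mul hL.le,
    Real.div_rpow hg1.le hg0.le]
  have e2 : -(1 / (g - 1)) * (g - 1) = -1 := by field_simp
  rw [e2, Real.rpow_neg_one, Real.rpow_sub_one hg0.ne' g]
  field_simp

theorem Cc_b {g : ℝ} (hg : 3 / 2 < g) : b0C g ^ (g - 1 / 2) = cc (g + 1 / 2) / DC g := by
  have hD := Cc_DC_pos hg
  have hg0 : 0 < g + 1 / 2 := by linarith
  have hg1 : 0 < g - 1 / 2 := by linarith
  unfold b0C cc
  have e1 : 1 - 1 / (g + 1 / 2) = (g - 1 / 2) / (g + 1 / 2) := by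
    rw [eq_div_iff hg0.ne', sub_mul, one_div_mul_cancel hg0.ne']
    ring
  have e3 : g + 1 / 2 - 1 = g - 1 / 2 := by ring
  rw [e1, Real.mul_rpow (by positivity) (by positivity), ← Real.rpow_mul (by positivity),
    Real.div_rpow hg1.le hg0.le]
  have e2 : -(1 / (g - 1 / 2)) * (g - 1 / 2) = -1 := by
    rw [neg_mul, one_div_mul_cancel hg1.ne']
  rw [e2, Real.rpow_neg_one, e3]
  have e4 : (g + 1 / 2) ^ (g + 1 / 2) = (g + 1 / 2) ^ (g - 1 / 2) * (g + 1 / 2) := by
    rw [← Real.rpow_add_one hg0.ne']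
    congr 1
    ring
  rw [e4]
  have h5 : 0 < (g + 1 / 2) ^ (g - 1 / 2) := by positivity
  rw [mul_inv, div_mul_eq_mul_div, div_eq_div_iff (by positivity) (by positivity)]
  field_simp

theorem Cc_key {g : ℝ} (hg : 3 / 2 < g) :
    JJ (1 / 2) g * a0C g ^ (g - 1) = b0C g ^ (g - 1 / 2) := by
  rw [Cc_a hg, Cc_b hg]
  have hg0 : 0 < g := by linarith
  have h1 : 0 < Real.Gamma (g - 3 / 2) := Real.Gamma_pos_of_pos (by linarith)
  have h2 : Real.Gamma (3 / 2) = √π / 2 := by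
    have h := Real.Gamma_add_one (s := 1 / 2) (by norm_num)
    rw [Real.Gamma_one_half_eq] at h
    have e : (3 / 2 : ℝ) = 1 / 2 + 1 := by norm_num
    rw [e, h]
    ring
  have h3 : 0 < Real.Gamma g := Real.Gamma_pos_of_pos (by linarith)
  have h4 : Real.Gamma 3 = 2 := by
    have h := Real.Gamma_nat_eq_factorial 2
    have e : ((2 : ℕ) : ℝ) + 1 = 3 := by norm_num
    rw [e] at h
    rw [h]
    norm_num [Nat.factorial]
  have h5 : 0 < Real.Gamma (g + 3 / 2) := Real.Gamma_pos_of_pos (by linarith)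
  have h6 : Real.Gamma (g + 1) = g * Real.Gamma g := Real.Gamma_add_one hg0.ne'
  have h7 : (4 * π) ^ (1 / 2 : ℝ) = 2 * √π := by
    rw [← Real.sqrt_eq_rpow, Real.sqrt_mul (by norm_num)]
    congr 1
    rw [show (4 : ℝ) = 2 ^ 2 by norm_num]
    exact Real.sqrt_sq (by norm_num)
  have h8 : g + 1 + 1 / 2 = g + 3 / 2 := by ring
  have hcc : 0 < cc g := by
    unfold cc
    have : 0 < g - 1 := by linarith
    positivity
  have hpi : 0 < √π := Real.sqrt_pos.mpr Real.pi_pos
  unfold JJ LamC DC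
  rw [h8, h2, h4, h6, h7]
  field_simp
  ring

theorem C_const {g : ℝ} (hg : 3 / 2 < g) : bco (1 / 2) g (a0C g) = b0C g := by
  have hD := Cc_DC_pos hg
  have hg0 : 0 < g + 1 / 2 := by linarith
  have hg1 : 0 < g - 1 / 2 := by linarith
  have hb : 0 ≤ b0C g := by
    unfold b0C
    have e1 : 1 - 1 / (g + 1 / 2) = (g - 1 / 2) / (g + 1 / 2) := by
      rw [eq_div_iff hg0.ne', sub_mul, one_div_mul_cancel hg0.ne']
      ring
    rw [e1]
    positivity
  unfold bco
  have e3 : g + 1 / 2 - 1 = g - 1 / 2 := by ring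
  rw [Cc_key hg, e3, ← Real.rpow_mul hb, mul_one_div_cancel hg1.ne', Real.rpow_one]

end LTd
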