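import Pool.Agent.Helper717.LT.Defs

set_option autoImplicit false

open MeasureTheory Set Filter Topology Real
open scoped Matrix

namespace LTd



theorem beta_int {x y E : ℝ} (hx : 0 < x) (hy : 1 < y) (hE : 0 ≤ E) :
    IntegrableOn (fun τ : ℝ => τ ^ (x - 1) * max (E - τ) 0 ^ (y - 1)) (Ioi 0) ∧
    ∫ τ in Ioi (0:ℝ), τ ^ (x - 1) * max (E - τ) 0 ^ (y - 1) =
      Gamma x * Gamma y / Gamma (x + y) * E ^ (x + y - 1) := by
  have hzero : ∀ τ ∈ Ioi E, τ ^ (x - 1) * max (E - τ) 0 ^ (y - 1) = 0 := by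
    intro τ hτ
    have h1 : max (E - τ) 0 = 0 := max_eq_right (by linarith [mem_Ioi.1 hτ])
    rw [h1, Real.zero_rpow (by linarith), mul_zero]
  have hint2 : IntegrableOn (fun τ : ℝ => τ ^ (x - 1) * max (E - τ) 0 ^ (y - 1)) (Ioi E) :=
    (integrableOn_zero).congr_fun (fun τ hτ => (hzero τ hτ).symm) measurableSet_Ioi
  have hint1' : IntervalIntegrable (fun τ : ℝ => τ ^ (x - 1) * max (E - τ) 0 ^ (y - 1))
      volume 0 E := by
    apply IntervalIntegrable.mul_continuousOn
    · exact intervalIntegral.intervalIntegrable_rpow' (by linarith)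
    · apply Continuous.continuousOn
      refine Continuous.rpow_const (by fun_prop) (fun τ => Or.inr (by linarith))
  have hint1 : IntegrableOn (fun τ : ℝ => τ ^ (x - 1) * max (E - τ) 0 ^ (y - 1)) (Ioc 0 E) :=
    (intervalIntegrable_iff_integrableOn_Ioc_of_le hE).1 hint1'
  have hun : Ioi (0:ℝ) = Ioc 0 E ∪ Ioi E := (Ioc_union_Ioi_eq_Ioi hE).symm
  refine ⟨by rw [hun]; exact hint1.union hint2, ?_⟩
  rw [hun, setIntegral_union (by
    rw [Set.disjoint_left]
    intro τ h1 h2
    exact absurd h1.2 (not_le.2 h2)) measurableSet_Ioi hint1 hint2,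
    setIntegral_congr_fun (g := fun _ => (0 : ℝ)) measurableSet_Ioi hzero]
  simp only [integral_zero, add_zero]
  rw [← intervalIntegral.integral_of_le hE]
  rcases hE.eq_or_lt with rfl | hE
  · rw [intervalIntegral.integral_same, Real.zero_rpow (by linarith), mul_zero]
  · have h1 := Complex.betaIntegral_scaled (x : ℂ) (y : ℂ) hE
    have h2 := Complex.betaIntegral_eq_Gamma_mul_div (x : ℂ) (y : ℂ) (by simpa using hx)
      (by simpa using (by linarith : (0:ℝ) < y))
    rw [h2] at h1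
    have h3 : ((∫ τ in (0:ℝ)..E, τ ^ (x - 1) * max (E - τ) 0 ^ (y - 1) : ℝ) : ℂ) =
        ∫ t in (0:ℝ)..E, (t : ℂ) ^ ((x : ℂ) - 1) * ((E : ℂ) - t) ^ ((y : ℂ) - 1) := by
      rw [← intervalIntegral.integral_ofReal]
      apply intervalIntegral.integral_congr
      intro t ht
      rw [uIcc_of_le hE.le] at ht
      have h4 : max (E - t) 0 = E - t := max_eq_left (by linarith [ht.2])
      simp only [h4]
      rw [Complex.ofReal_mul, Complex.ofReal_cpow ht.1, Complex.ofReal_cpow (by linarith [ht.2])]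
      push_cast
      rfl
    rw [← h3] at h1
    have h5 : ((∫ τ in (0:ℝ)..E, τ ^ (x - 1) * max (E - τ) 0 ^ (y - 1) : ℝ) : ℂ) =
        ((Gamma x * Gamma y / Gamma (x + y) * E ^ (x + y - 1) : ℝ) : ℂ) := by
      rw [h1]
      push_cast
      rw [Complex.ofReal_cpow hE.le, ← Complex.Gamma_ofReal, ← Complex.Gamma_ofReal,
        ← Complex.Gamma_ofReal]
      push_cast
      ring
    exact_mod_cast h5

end LTd
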