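import Pool.Agent.Helper717.LT.Defs
import Pool.Agent.Helper717.LT.P_beta_int

set_option autoImplicit false

open MeasureTheory Set Filter Topology Real
open scoped Matrix

namespace LTd



theorem C_dual {g r : ℝ} (hg : 3 / 2 < g) (hr : 0 ≤ r) (ρ : ℝ → ℝ)
    (h0 : ∀ τ, 0 < τ → 0 ≤ ρ τ)
    (h1 : IntegrableOn (fun τ : ℝ => τ ^ (g - 5 / 2) * ρ τ) (Ioi 0))
    (h2 : IntegrableOn (fun τ : ℝ => τ ^ (g - 5 / 2) * ρ τ ^ 2) (Ioi 0))
    (h3 : IntegrableOn (fun τ : ℝ => τ ^ (g - 3 / 2) * ρ τ) (Ioi 0))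
    (hn : ∫ τ in Ioi (0:ℝ), τ ^ (g - 5 / 2) * ρ τ = r) :
    b0C g * r ^ pp (g + 1 / 2) ≤
      4 / 3 * (∫ τ in Ioi (0:ℝ), τ ^ (g - 5 / 2) * ρ τ ^ 2) +
        ∫ τ in Ioi (0:ℝ), τ ^ (g - 3 / 2) * ρ τ := by
  have hG1 : 0 < Gamma (g - 3 / 2) := Gamma_pos_of_pos (by linarith)
  have hG2 : 0 < Gamma (3 : ℝ) := Gamma_pos_of_pos (by norm_num)
  have hG3 : 0 < Gamma (g + 3 / 2) := Gamma_pos_of_pos (by linarith)
  have hD : 0 < DC g := by unfold DC; positivity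
  have hgp : 0 < g + 1 / 2 := by linarith
  have hgm : 0 < g - 1 / 2 := by linarith
  have hK : 0 < (g + 1 / 2) * DC g := mul_pos hgp hD
  obtain ⟨ω, hω⟩ : ∃ ω : ℝ, ω = (r / ((g + 1 / 2) * DC g)) ^ (1 / (g - 1 / 2)) := ⟨_, rfl⟩
  have hq : 0 ≤ r / ((g + 1 / 2) * DC g) := div_nonneg hr hK.le
  have hω0 : 0 ≤ ω := by rw [hω]; exact rpow_nonneg hq _
  have hωp : ω ^ (g - 1 / 2) = r / ((g + 1 / 2) * DC g) := by
    rw [hω, ← rpow_mul hq, one_div_mul_cancel hgm.ne', rpow_one]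
  have hωg : ω ^ (g + 1 / 2) = r / ((g + 1 / 2) * DC g) * ω := by
    rw [show g + 1 / 2 = (g - 1 / 2) + 1 by ring, rpow_add_one' hω0 (by linarith), hωp]
    congr 3
    ring
  have hDw : DC g * ω ^ (g + 1 / 2) = 1 / (g + 1 / 2) * (ω * r) := by
    rw [hωg]
    field_simp
  have hLHS : b0C g * r ^ pp (g + 1 / 2) = (1 - 1 / (g + 1 / 2)) * (ω * r) := by
    unfold b0C
    rw [mul_assoc]
    congr 1
    have hpp : pp (g + 1 / 2) = 1 / (g - 1 / 2) + 1 := by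
      unfold pp
      rw [show g + 1 / 2 - 1 = g - 1 / 2 by ring, div_add_one hgm.ne']
      congr 1
      ring
    rw [hpp, rpow_add_one' hr (by positivity), hω, div_rpow hr hK.le, rpow_neg hK.le]
    field_simp
  obtain ⟨hb1, hb2⟩ := beta_int (x := g - 3 / 2) (y := 3) (E := ω) (by linarith) (by norm_num) hω0
  rw [show g - 3 / 2 - 1 = g - 5 / 2 by ring, show (3 : ℝ) - 1 = 2 by norm_num] at hb1 hb2
  rw [show g - 3 / 2 + 3 = g + 3 / 2 by ring, show g + 3 / 2 - 1 = g + 1 / 2 by ring] at hb2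
  have hint : ∫ τ in Ioi (0:ℝ), (ω * (τ ^ (g - 5 / 2) * ρ τ) -
      3 / 16 * (τ ^ (g - 5 / 2) * max (ω - τ) 0 ^ (2 : ℝ))) ≤
      ∫ τ in Ioi (0:ℝ), (4 / 3 * (τ ^ (g - 5 / 2) * ρ τ ^ 2) + τ ^ (g - 3 / 2) * ρ τ) := by
    refine setIntegral_mono_on ((h1.const_mul ω).sub (hb1.const_mul _))
      ((h2.const_mul _).add h3) measurableSet_Ioi ?_
    intro τ hτ
    have hτ0 : 0 < τ := hτ
    have hpow : τ ^ (g - 3 / 2) = τ ^ (g - 5 / 2) * τ := by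
      rw [show g - 3 / 2 = (g - 5 / 2) + 1 by ring, rpow_add_one hτ0.ne']
    have hA : 0 ≤ τ ^ (g - 5 / 2) := rpow_nonneg hτ0.le _
    have hρ := h0 τ hτ0
    have key : ω * ρ τ - 3 / 16 * max (ω - τ) 0 ^ (2 : ℝ) ≤ 4 / 3 * ρ τ ^ 2 + τ * ρ τ := by
      rw [rpow_two]
      rcases le_total ω τ with h | h
      · rw [max_eq_right (by linarith)]
        nlinarith [mul_le_mul_of_nonneg_right h hρ, sq_nonneg (ρ τ)]
      · rw [max_eq_left (by linarith)]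
        nlinarith [sq_nonneg (ρ τ - 3 / 8 * (ω - τ))]
    calc ω * (τ ^ (g - 5 / 2) * ρ τ) - 3 / 16 * (τ ^ (g - 5 / 2) * max (ω - τ) 0 ^ (2 : ℝ))
        = τ ^ (g - 5 / 2) * (ω * ρ τ - 3 / 16 * max (ω - τ) 0 ^ (2 : ℝ)) := by ring
      _ ≤ τ ^ (g - 5 / 2) * (4 / 3 * ρ τ ^ 2 + τ * ρ τ) := mul_le_mul_of_nonneg_left key hA
      _ = 4 / 3 * (τ ^ (g - 5 / 2) * ρ τ ^ 2) + τ ^ (g - 3 / 2) * ρ τ := by rw [hpow]; ring
  rw [integral_sub (h1.const_mul ω) (hb1.const_mul _), integral_const_mul, integral_const_mul,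
    integral_add (h2.const_mul _) h3, integral_const_mul, hn, hb2] at hint
  have hD2 : 3 / 16 * (Gamma (g - 3 / 2) * Gamma 3 / Gamma (g + 3 / 2) * ω ^ (g + 1 / 2)) =
      DC g * ω ^ (g + 1 / 2) := by unfold DC; ring
  rw [hD2, hDw] at hint
  rw [hLHS]
  linarith

end LTd
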