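import Pool.Agent.Helper717.LT.Defs
import Pool.Agent.Helper717.LT.P_beta_int

set_option autoImplicit false

open MeasureTheory Set Filter Topology Real
open scoped Matrix

namespace LTd



theorem ce_Lam_pos {g : ℝ} (hg : 3 / 2 < g) : 0 < LamC g := by
  unfold LamC
  have h1 : 0 < Gamma (g - 3 / 2) := Gamma_pos_of_pos (by linarith)
  have h2 : 0 < Gamma (3 / 2 : ℝ) := Gamma_pos_of_pos (by norm_num)
  have h3 : 0 < Gamma g := Gamma_pos_of_pos (by linarith)
  positivity

theorem ce_mu {g l : ℝ} (hg : 3 / 2 < g) (hl : 0 < l) :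
    l * muC g l = 3 / 2 * (Gamma (g - 1 / 2) * Gamma (3 / 2) / Gamma (g + 1) * EE g l ^ g) := by
  have hE : 0 ≤ EE g l := by
    unfold EE
    exact rpow_nonneg (div_nonneg hl.le (ce_Lam_pos hg).le) _
  have h1 := (beta_int (x := g - 1 / 2) (y := 3 / 2) (E := EE g l) (by linarith)
    (by norm_num) hE).2
  have e1 : g - 1 / 2 + 3 / 2 = g + 1 := by ring
  have e2 : g - 1 / 2 + 3 / 2 - 1 = g := by ring
  rw [e2, e1] at h1
  rw [← h1]
  unfold muC
  rw [← integral_const_mul, ← integral_const_mul]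
  refine integral_congr_ae (Eventually.of_forall fun τ => ?_)
  show l * (τ ^ (g - 3 / 2) * aw (EE g l) l τ) =
    3 / 2 * (τ ^ (g - 1 / 2 - 1) * max (EE g l - τ) 0 ^ ((3 / 2 : ℝ) - 1))
  have e3 : g - 1 / 2 - 1 = g - 3 / 2 := by ring
  have e4 : (3 / 2 : ℝ) - 1 = 1 / 2 := by norm_num
  rw [e3, e4, ← Real.sqrt_eq_rpow]
  unfold aw
  field_simp

theorem ce_nu {g l : ℝ} (hg : 3 / 2 < g) (hl : 0 < l) :
    4 / 27 * nuC g l = 1 / 2 * (Gamma (g - 3 / 2) * Gamma (5 / 2) / Gamma (g + 1) * EE g l ^ g) := by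
  have hE : 0 ≤ EE g l := by
    unfold EE
    exact rpow_nonneg (div_nonneg hl.le (ce_Lam_pos hg).le) _
  have h1 := (beta_int (x := g - 3 / 2) (y := 5 / 2) (E := EE g l) (by linarith)
    (by norm_num) hE).2
  have e1 : g - 3 / 2 + 5 / 2 = g + 1 := by ring
  have e2 : g - 3 / 2 + 5 / 2 - 1 = g := by ring
  rw [e2, e1] at h1
  rw [← h1]
  unfold nuC
  rw [← integral_const_mul, ← integral_const_mul]
  refine integral_congr_ae (Eventually.of_forall fun τ => ?_)
  show 4 / 27 * (τ ^ (g - 5 / 2) * (aw (EE g l) l τ * l) ^ 3) =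
    1 / 2 * (τ ^ (g - 3 / 2 - 1) * max (EE g l - τ) 0 ^ ((5 / 2 : ℝ) - 1))
  have e3 : g - 3 / 2 - 1 = g - 5 / 2 := by ring
  have e4 : (5 / 2 : ℝ) - 1 = (1 / 2) * (3 : ℕ) := by norm_num
  have hm : 0 ≤ max (EE g l - τ) 0 := le_max_right _ _
  have e5 : aw (EE g l) l τ * l = 3 / 2 * √(max (EE g l - τ) 0) := by
    unfold aw
    field_simp
  rw [e3, e4, rpow_mul hm, rpow_natCast, ← Real.sqrt_eq_rpow, e5]
  ring

theorem C_energy {g l : ℝ} (hg : 3 / 2 < g) (hl : 0 ≤ l) :
    l * muC g l + 4 / 27 * nuC g l = a0C g * l ^ pp g := by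
  have hg1 : 0 < g - 1 := by linarith
  have hg0 : 0 < g := by linarith
  have hpp : pp g ≠ 0 := by
    unfold pp
    exact (div_pos hg0 hg1).ne'
  rcases hl.eq_or_lt with h0 | hl
  · subst h0
    rw [zero_rpow hpp, zero_mul, mul_zero, zero_add]
    unfold nuC
    simp
  · rw [ce_mu hg hl, ce_nu hg hl]
    have hL := ce_Lam_pos hg
    have hE : EE g l ^ g = l ^ pp g * LamC g ^ (-(pp g)) := by
      unfold EE
      rw [← rpow_mul (div_nonneg hl.le hL.le)]
      have e1 : 1 / (g - 1) * g = pp g := by unfold pp; ring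
      rw [e1, div_rpow hl.le hL.le, rpow_neg hL.le, div_eq_mul_inv]
    have hG1 : Gamma (g - 1 / 2) = (g - 3 / 2) * Gamma (g - 3 / 2) := by
      have := Real.Gamma_add_one (s := g - 3 / 2) (by linarith)
      rw [← this]
      congr 1
      ring
    have hG2 : Gamma (5 / 2 : ℝ) = 3 / 2 * Gamma (3 / 2) := by
      have := Real.Gamma_add_one (s := (3 / 2 : ℝ)) (by norm_num)
      rw [← this]
      norm_num
    have hG3 : Gamma (g + 1) = g * Gamma g := Real.Gamma_add_one hg0.ne'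
    have hGg : 0 < Gamma g := Gamma_pos_of_pos hg0
    have hsum : 3 / 2 * (Gamma (g - 1 / 2) * Gamma (3 / 2) / Gamma (g + 1) * EE g l ^ g) +
        1 / 2 * (Gamma (g - 3 / 2) * Gamma (5 / 2) / Gamma (g + 1) * EE g l ^ g) =
        LamC g * (1 - 1 / g) * EE g l ^ g := by
      rw [hG1, hG2, hG3]
      unfold LamC
      field_simp
      ring
    rw [hsum, hE]
    unfold a0C
    have e2 : LamC g ^ (-(1 / (g - 1))) = LamC g * LamC g ^ (-(pp g)) := by
      conv_rhs => rw [← rpow_one (LamC g)]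
      rw [rpow_one (LamC g)]
      nth_rewrite 2 [← rpow_one (LamC g)]
      rw [← rpow_add hL]
      congr 1
      unfold pp
      field_simp
      ring
    rw [e2]
    ring

end LTd
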