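import Pool.Agent.Helper717.LT.Defs
import Pool.Agent.Helper717.LT.P_beta_int

set_option autoImplicit false

open MeasureTheory Set Filter Topology Real
open scoped Matrix

namespace LTd



theorem EE_nn {g : ℝ} (hg : 3 / 2 < g) (l : ℝ) (hl : 0 ≤ l) : 0 ≤ EE g l := by
  unfold EE LamC
  have h1 : 0 < Gamma (g - 3 / 2) := Gamma_pos_of_pos (by linarith)
  have h2 : 0 < Gamma (3 / 2 : ℝ) := Gamma_pos_of_pos (by norm_num)
  have h3 : 0 < Gamma g := Gamma_pos_of_pos (by linarith)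
  exact Real.rpow_nonneg (by positivity) _

theorem aw_int1 {x : ℝ} (hx : 0 < x) (E l : ℝ) (hE : 0 ≤ E) :
    IntegrableOn (fun τ : ℝ => τ ^ (x - 1) * aw E l τ) (Ioi 0) := by
  have h := ((beta_int (x := x) (y := 3 / 2) hx (by norm_num) hE).1).const_mul (3 / 2 / l)
  refine h.congr (Filter.Eventually.of_forall fun τ => ?_)
  show 3 / 2 / l * (τ ^ (x - 1) * max (E - τ) 0 ^ ((3 / 2 : ℝ) - 1)) = τ ^ (x - 1) * aw E l τ
  unfold aw
  rw [Real.sqrt_eq_rpow, show ((3 / 2 : ℝ) - 1) = 1 / 2 by norm_num]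
  ring

theorem C_integrable {g : ℝ} (hg : 3 / 2 < g) (l l' : ℝ) (hl : 0 ≤ l) (hl' : 0 ≤ l') :
    IntegrableOn (fun τ : ℝ => τ ^ (g - 5 / 2) * aw (EE g l) l τ) (Ioi 0) ∧
    IntegrableOn (fun τ : ℝ => τ ^ (g - 5 / 2) * (aw (EE g l) l τ * aw (EE g l') l' τ)) (Ioi 0) ∧
    IntegrableOn (fun τ : ℝ => τ ^ (g - 3 / 2) * aw (EE g l) l τ) (Ioi 0) ∧
    IntegrableOn (fun τ : ℝ => τ ^ (g - 5 / 2) * (aw (EE g l) l τ * l) ^ 3) (Ioi 0) := by
  have hE := EE_nn hg l hl
  have hE' := EE_nn hg l' hl'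
  generalize EE g l = E at hE ⊢
  generalize EE g l' = E' at hE' ⊢
  have h1 : IntegrableOn (fun τ : ℝ => τ ^ (g - 5 / 2) * aw E l τ) (Ioi 0) := by
    have h := aw_int1 (x := g - 3 / 2) (by linarith) E l hE
    rwa [show g - 3 / 2 - 1 = g - 5 / 2 by ring] at h
  refine ⟨h1, ?_, ?_, ?_⟩
  · refine Integrable.mono' (h1.mul_const (3 / 2 * √E' / l')) ?_ ?_
    · apply Measurable.aestronglyMeasurable
      unfold aw
      fun_prop
    · refine (ae_restrict_iff' measurableSet_Ioi).mpr (Filter.Eventually.of_forall fun τ hτ => ?_)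
      have hτ0 : 0 < τ := hτ
      have h2 : 0 ≤ aw E l τ := by
        unfold aw
        positivity
      have h3 : 0 ≤ aw E' l' τ := by
        unfold aw
        positivity
      have h4 : aw E' l' τ ≤ 3 / 2 * √E' / l' := by
        unfold aw
        have h5 : √(max (E' - τ) 0) ≤ √E' := by
          apply Real.sqrt_le_sqrt
          exact max_le (by linarith) hE'
        gcongr
      have h6 : 0 ≤ τ ^ (g - 5 / 2) := Real.rpow_nonneg hτ0.le _
      rw [Real.norm_of_nonneg (by positivity), ← mul_assoc]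
      exact mul_le_mul_of_nonneg_left h4 (by positivity)
  · have h := aw_int1 (x := g - 1 / 2) (by linarith) E l hE
    rwa [show g - 1 / 2 - 1 = g - 3 / 2 by ring] at h
  · have h := ((beta_int (x := g - 3 / 2) (y := 5 / 2) (by linarith) (by norm_num) hE).1).const_mul
      ((3 / 2 / l * l) ^ 3)
    refine h.congr (Filter.Eventually.of_forall fun τ => ?_)
    show (3 / 2 / l * l) ^ 3 * (τ ^ (g - 3 / 2 - 1) * max (E - τ) 0 ^ ((5 / 2 : ℝ) - 1)) =
      τ ^ (g - 5 / 2) * (aw E l τ * l) ^ 3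
    unfold aw
    have h7 : max (E - τ) 0 ^ ((5 / 2 : ℝ) - 1) = √(max (E - τ) 0) ^ 3 := by
      rw [Real.sqrt_eq_rpow, ← Real.rpow_natCast, ← Real.rpow_mul (le_max_right _ _)]
      norm_num
    rw [h7, show g - 3 / 2 - 1 = g - 5 / 2 by ring]
    ring

end LTd
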