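import Pool.Agent.Helper717.LT.Defs
import Pool.Agent.Helper717.LT.P_beta_int

set_option autoImplicit false

open MeasureTheory Set Filter Topology Real
open scoped Matrix

namespace LTd



theorem C_norm {g l : ℝ} (hg : 3 / 2 < g) (hl : 0 < l) :
    IntegrableOn (fun τ : ℝ => τ ^ (g - 5 / 2) * aw (EE g l) l τ) (Ioi 0) ∧
    ∫ τ in Ioi (0:ℝ), τ ^ (g - 5 / 2) * aw (EE g l) l τ = 1 := by
  have hg1 : 0 < g - 1 := by linarith
  have hG1 : 0 < Gamma (g - 3 / 2) := Gamma_pos_of_pos (by linarith)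
  have hG2 : 0 < Gamma (3 / 2) := Gamma_pos_of_pos (by norm_num)
  have hG3 : 0 < Gamma g := Gamma_pos_of_pos (by linarith)
  have hLam : 0 < LamC g := by unfold LamC; positivity
  have hE0 : 0 ≤ EE g l := by unfold EE; positivity
  have hEp : EE g l ^ (g - 1) = l / LamC g := by
    unfold EE
    rw [← Real.rpow_mul (by positivity), one_div, inv_mul_cancel₀ hg1.ne', Real.rpow_one]
  have hfun : (fun τ : ℝ => τ ^ (g - 5 / 2) * aw (EE g l) l τ) =
      fun τ => (3 / 2 / l) * (τ ^ ((g - 3 / 2) - 1) * max (EE g l - τ) 0 ^ ((3 / 2 : ℝ) - 1)) := by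
    funext τ
    unfold aw
    rw [Real.sqrt_eq_rpow, show (3 / 2 : ℝ) - 1 = 1 / 2 by norm_num,
      show g - 3 / 2 - 1 = g - 5 / 2 by ring]
    ring
  obtain ⟨h1, h2⟩ := beta_int (x := g - 3 / 2) (y := 3 / 2) (E := EE g l) (by linarith) (by norm_num)
    hE0
  rw [hfun]
  refine ⟨h1.const_mul _, ?_⟩
  rw [integral_const_mul, h2, show g - 3 / 2 + 3 / 2 - 1 = g - 1 by ring,
    show g - 3 / 2 + 3 / 2 = g by ring, hEp]
  have e : Gamma (g - 3 / 2) * Gamma (3 / 2) / Gamma g = 2 / 3 * LamC g := by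
    unfold LamC
    ring
  rw [e]
  field_simp

end LTd
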