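import Pool.Agent.Helper717.LT.Defs

set_option autoImplicit false

open MeasureTheory Set Filter Topology Real
open scoped Matrix

namespace LTd



theorem gam_ends {n : ℕ} {R S Q : ℝ → Mat n} (h : Sys R S Q) :
    ∃ M : ℝ, (∀ x, M < x → Gam R x = Tot R) ∧ ∀ x, x < -M → Gam R x = 0 := by
  obtain ⟨M, hM⟩ := h.supp
  refine ⟨max M 0, ?_, ?_⟩
  · intro x hx
    ext i j
    show ∫ t in Iic x, R t i j = ∫ t, R t i j
    apply setIntegral_eq_integral_of_forall_compl_eq_zero
    intro t ht
    have ht' : x < t := not_le.mp ht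
    have h1 : M < |t| := lt_of_le_of_lt (le_max_left M 0)
      (lt_of_lt_of_le (hx.trans ht') (le_abs_self t))
    rw [(hM t h1).1]
    rfl
  · intro x hx
    ext i j
    show ∫ t in Iic x, R t i j = 0
    apply setIntegral_eq_zero_of_forall_eq_zero
    intro t ht
    have ht' : t ≤ x := ht
    have h1 : M < |t| := by
      have h2 := le_max_left M 0
      have h3 := neg_le_abs t
      linarith
    rw [(hM t h1).1]
    rfl

end LTd
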