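import Pool.Agent.Helper717.LT.Defs
import Pool.Agent.Helper717.LT.P_gam_der
import Pool.Agent.Helper717.LT.P_gam_ends

set_option autoImplicit false

open MeasureTheory Set Filter Topology Real
open scoped Matrix

namespace LTd



/-- entrywise derivative -/
def blockB_MD {n : ℕ} (A : ℝ → Mat n) (A' : Mat n) (x : ℝ) : Prop :=
  ∀ i j, HasDerivAt (fun t => A t i j) (A' i j) x

theorem blockB_mul {n : ℕ} {A B : ℝ → Mat n} {A' B' : Mat n} {x : ℝ} (hA : blockB_MD A A' x)
    (hB : blockB_MD B B' x) : blockB_MD (fun t => A t * B t) (A' * B x + A x * B') x := by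
  intro i j
  have h1 : HasDerivAt (fun t => ∑ k, A t i k * B t k j)
      (∑ k, (A' i k * B x k j + A x i k * B' k j)) x :=
    HasDerivAt.fun_sum (fun k _ => (hA i k).mul (hB k j))
  have h2 : (A' * B x + A x * B') i j = ∑ k, (A' i k * B x k j + A x i k * B' k j) := by
    rw [Matrix.add_apply, Matrix.mul_apply, Matrix.mul_apply, Finset.sum_add_distrib]
  rw [h2]
  exact h1

theorem blockB_tr {n : ℕ} {A : ℝ → Mat n} {A' : Mat n} {x : ℝ} (hA : blockB_MD A A' x) :
    HasDerivAt (fun t => (A t).trace) (A'.trace) x :=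
  HasDerivAt.fun_sum (fun i _ => hA i i)

theorem blockB {n : ℕ} {R S Q : ℝ → Mat n} (h : Sys R S Q) :
    4 / 3 * ∫ x, (R x * R x).trace ≤
      (∫ x, (Q x).trace) + 4 / 27 * (Tot R * Tot R * Tot R).trace := by
  obtain ⟨E, hE⟩ : ∃ E : ℝ → Mat n, ∀ x, E x = Tot R - (2:ℝ) • Gam R x := ⟨_, fun _ => rfl⟩
  have hEs : ∀ x, (E x)ᵀ = E x := by
    intro x
    rw [hE]
    ext i j
    rw [Matrix.transpose_apply, Matrix.sub_apply, Matrix.sub_apply, Matrix.smul_apply,
      Matrix.smul_apply]
    have e1 : Tot R j i = Tot R i j := by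
      unfold Tot
      rw [Matrix.of_apply, Matrix.of_apply]
      congr 1
      funext t
      exact h.symR t j i
    have e2 : Gam R x j i = Gam R x i j := by
      unfold Gam
      rw [Matrix.of_apply, Matrix.of_apply]
      congr 1
      funext t
      exact h.symR t j i
    rw [e1, e2]
  have hEd : ∀ x, blockB_MD E ((-2:ℝ) • R x) x := by
    intro x i j
    have e1 : (fun t => E t i j) = fun t => Tot R i j - 2 * Gam R t i j := by
      funext t
      rw [hE, Matrix.sub_apply, Matrix.smul_apply, smul_eq_mul]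
    rw [e1, Matrix.smul_apply, smul_eq_mul]
    have e2 := ((gam_der h x i j).const_mul 2).const_sub (Tot R i j)
    have e3 : -2 * R x i j = -(2 * R x i j) := by ring
    rw [e3]
    exact e2
  have hRd : ∀ x, blockB_MD R (S x + (S x)ᵀ) x := fun x i j => h.der x i j
  have hRc : Continuous R := continuous_matrix (fun i j =>
    continuous_iff_continuousAt.mpr (fun x => (h.der x i j).continuousAt))
  have hEc : Continuous E := continuous_matrix (fun i j =>
    continuous_iff_continuousAt.mpr (fun x => (hEd x i j).continuousAt))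
  have hSc : Continuous S := continuous_matrix h.cS
  have hQc : Continuous Q := continuous_matrix h.cQ
  obtain ⟨g, hg⟩ : ∃ g : ℝ → ℝ, ∀ x, g x = 2 / 3 * (2 * (S x * E x).trace
    - 2 * (R x * R x).trace) - 4 / 9 * (E x * R x * E x).trace := ⟨_, fun _ => rfl⟩
  have cRR : Continuous (fun x => (R x * R x).trace) := (hRc.matrix_mul hRc).matrix_trace
  have cSE : Continuous (fun x => (S x * E x).trace) := (hSc.matrix_mul hEc).matrix_trace
  have cERE : Continuous (fun x => (E x * R x * E x).trace) :=
    ((hEc.matrix_mul hRc).matrix_mul hEc).matrix_trace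
  have cQ : Continuous (fun x => (Q x).trace) := hQc.matrix_trace
  have hgc : Continuous g := by
    have e1 : g = fun x => 2 / 3 * (2 * (S x * E x).trace
      - 2 * (R x * R x).trace) - 4 / 9 * (E x * R x * E x).trace := by
      funext x
      exact hg x
    rw [e1]
    exact (continuous_const.mul ((continuous_const.mul cSE).sub
      (continuous_const.mul cRR))).sub (continuous_const.mul cERE)
  -- pointwise inequality
  have hpt : ∀ x, g x + 4 / 3 * (R x * R x).trace ≤ (Q x).trace := by
    intro x
    have e1 := h.key x 1 ((2 / 3 : ℝ) • E x)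
    simp only [Matrix.transpose_smul, Matrix.transpose_one, Matrix.one_mul, Matrix.mul_one,
      Matrix.smul_mul, Matrix.mul_smul, Matrix.trace_smul, smul_eq_mul, hEs] at e1
    rw [hg]
    linarith
  -- the primitive
  obtain ⟨G, hG⟩ : ∃ G : ℝ → ℝ, ∀ x, G x = 2 / 3 * (R x * E x).trace
    + 2 / 27 * (E x * E x * E x).trace := ⟨_, fun _ => rfl⟩
  have hGd : ∀ x, HasDerivAt G (g x) x := by
    intro x
    have d1 := blockB_tr (blockB_mul (hRd x) (hEd x))
    have d2 := blockB_tr (blockB_mul (blockB_mul (hEd x) (hEd x)) (hEd x))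
    have d3 := (d1.const_mul (2 / 3)).add (d2.const_mul (2 / 27))
    have e1 : G = fun x => 2 / 3 * (R x * E x).trace + 2 / 27 * (E x * E x * E x).trace := by
      funext x
      exact hG x
    rw [e1]
    refine d3.congr_deriv ?_
    rw [hg]
    have f1 : ((S x)ᵀ * E x).trace = (S x * E x).trace := by
      rw [← Matrix.trace_transpose, Matrix.transpose_mul, Matrix.transpose_transpose, hEs,
        Matrix.trace_mul_comm]
    have f2 : (R x * E x * E x).trace = (E x * R x * E x).trace := by
      rw [Matrix.trace_mul_comm, Matrix.mul_assoc]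
    have f3 : (E x * E x * R x).trace = (E x * R x * E x).trace := by
      rw [Matrix.mul_assoc, Matrix.trace_mul_comm]
    simp only [Matrix.add_mul, Matrix.mul_smul, Matrix.smul_mul, Matrix.trace_add,
      Matrix.trace_smul, smul_eq_mul, f1, f2, f3]
    ring
  obtain ⟨M1, hM1⟩ := h.supp
  obtain ⟨M2, hM2, hM2'⟩ := gam_ends h
  obtain ⟨N, hN⟩ : ∃ N : ℝ, N = max (max M1 M2) 0 + 1 := ⟨_, rfl⟩
  have hN0 : 0 < N := by
    rw [hN]
    have := le_max_right (max M1 M2) 0
    linarith
  have hN1 : M1 < N := by
    rw [hN]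
    have := (le_max_left M1 M2).trans (le_max_left (max M1 M2) 0)
    linarith
  have hN2 : M2 < N := by
    rw [hN]
    have := (le_max_right M1 M2).trans (le_max_left (max M1 M2) 0)
    linarith
  have hout : ∀ x, x ∉ Ioc (-N) N → R x = 0 ∧ S x = 0 ∧ Q x = 0 := by
    intro x hx
    apply hM1
    refine lt_of_lt_of_le hN1 ?_
    by_contra hc
    push Not at hc
    have := abs_lt.mp hc
    exact hx ⟨this.1, this.2.le⟩
  have hRN : R N = 0 := (hM1 N (by rw [abs_of_pos hN0]; exact hN1)).1
  have hRN' : R (-N) = 0 := (hM1 (-N) (by rw [abs_neg, abs_of_pos hN0]; exact hN1)).1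
  have hEN : E N = -Tot R := by
    rw [hE, hM2 N hN2, two_smul]
    abel
  have hEN' : E (-N) = Tot R := by
    rw [hE, hM2' (-N) (by linarith), smul_zero, sub_zero]
  have hFTC : ∫ x in (-N)..N, g x = G N - G (-N) :=
    intervalIntegral.integral_eq_sub_of_hasDerivAt (fun x _ => hGd x)
      (hgc.intervalIntegrable _ _)
  have hGN : G N - G (-N) = -(4 / 27) * (Tot R * Tot R * Tot R).trace := by
    rw [hG, hG, hRN, hRN', hEN, hEN']
    simp only [Matrix.zero_mul, Matrix.trace_zero, Matrix.neg_mul, Matrix.mul_neg, neg_neg,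
      Matrix.trace_neg]
    ring
  have hIR : ∫ x in (-N)..N, (R x * R x).trace = ∫ x, (R x * R x).trace := by
    apply intervalIntegral.integral_eq_integral_of_support_subset
    intro x hx
    by_contra hc
    apply hx
    change (R x * R x).trace = 0
    rw [(hout x hc).1, Matrix.zero_mul, Matrix.trace_zero]
  have hIQ : ∫ x in (-N)..N, (Q x).trace = ∫ x, (Q x).trace := by
    apply intervalIntegral.integral_eq_integral_of_support_subset
    intro x hx
    by_contra hc
    apply hx
    change (Q x).trace = 0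
    rw [(hout x hc).2.2, Matrix.trace_zero]
  have hmono : ∫ x in (-N)..N, (g x + 4 / 3 * (R x * R x).trace) ≤ ∫ x in (-N)..N, (Q x).trace := by
    apply intervalIntegral.integral_mono_on (by linarith)
    · exact (hgc.add (continuous_const.mul cRR)).intervalIntegrable _ _
    · exact cQ.intervalIntegrable _ _
    · intro x _
      exact hpt x
  have cRR' : Continuous (fun x => 4 / 3 * (R x * R x).trace) := continuous_const.mul cRR
  rw [intervalIntegral.integral_add (hgc.intervalIntegrable _ _)
    (cRR'.intervalIntegrable _ _), intervalIntegral.integral_const_mul,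
    hFTC, hGN, hIR, hIQ] at hmono
  linarith

end LTd
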