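import Pool.Agent.Helper717.LT.Defs

set_option autoImplicit false

open MeasureTheory Set Filter Topology Real
open scoped Matrix

namespace LTd



theorem congr_sys {n : ℕ} {R S Q : ℝ → Mat n} (h : Sys R S Q) (D : Mat n) :
    Sys (fun x => D * R x * Dᵀ) (fun x => D * S x * Dᵀ) (fun x => D * Q x * Dᵀ) := by
  have hcont : ∀ (P : ℝ → Mat n), (∀ i j, Continuous fun x => P x i j) →
      ∀ i j, Continuous fun x => (D * P x * Dᵀ) i j := by
    intro P hP i j
    simp only [Matrix.mul_apply, Matrix.transpose_apply]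
    exact continuous_finsetSum _ fun b _ => (continuous_finsetSum _ fun a _ =>
      continuous_const.mul (hP a b)).mul continuous_const
  refine ⟨?_, ?_, hcont S h.cS, hcont Q h.cQ, ?_, ?_⟩
  · intro x i j
    have h1 : (R x)ᵀ = R x := by
      ext i j
      rw [Matrix.transpose_apply]
      exact h.symR x j i
    have h2 : (D * R x * Dᵀ)ᵀ = D * R x * Dᵀ := by
      rw [Matrix.transpose_mul, Matrix.transpose_mul, Matrix.transpose_transpose, h1,
        Matrix.mul_assoc]
    calc (D * R x * Dᵀ) i j = (D * R x * Dᵀ)ᵀ i j := by rw [h2]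
      _ = _ := rfl
  · intro x i j
    have h1 : (D * S x * Dᵀ) i j + (D * S x * Dᵀ) j i = (D * (S x + (S x)ᵀ) * Dᵀ) i j := by
      have h2 : D * (S x + (S x)ᵀ) * Dᵀ = D * S x * Dᵀ + (D * S x * Dᵀ)ᵀ := by
        rw [Matrix.transpose_mul, Matrix.transpose_mul, Matrix.transpose_transpose,
          Matrix.mul_add, Matrix.add_mul, Matrix.mul_assoc D (S x)ᵀ]
      rw [h2]
      rfl
    rw [h1]
    simp only [Matrix.mul_apply, Matrix.transpose_apply, Matrix.add_apply]
    exact HasDerivAt.fun_sum fun b _ => (HasDerivAt.fun_sum fun a _ =>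
      (h.der x a b).const_mul (D i a)).mul_const (D j b)
  · obtain ⟨M, hM⟩ := h.supp
    refine ⟨M, fun x hx => ?_⟩
    obtain ⟨e1, e2, e3⟩ := hM x hx
    simp only [e1, e2, e3, Matrix.mul_zero, Matrix.zero_mul, and_self]
  · intro x X Y
    have h1 : ∀ (P X Y : Mat n), X * (D * P * Dᵀ) * Yᵀ = (X * D) * P * (Y * D)ᵀ := by
      intro P X Y
      rw [Matrix.transpose_mul]
      simp only [Matrix.mul_assoc]
    rw [h1, h1, h1]
    exact h.key x (X * D) (Y * D)

end LTd
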