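import Pool.Agent.Helper717.LT.Defs

set_option autoImplicit false

open MeasureTheory Set Filter Topology Real
open scoped Matrix

namespace LTd



theorem congr_tot {n : ℕ} {R S Q : ℝ → Mat n} (h : Sys R S Q) (D : Mat n) :
    Tot (fun x => D * R x * Dᵀ) = D * Tot R * Dᵀ := by
  have hint : ∀ i j, Integrable (fun x => R x i j) := by
    intro i j
    have hc : Continuous fun x => R x i j :=
      continuous_iff_continuousAt.2 fun x => (h.der x i j).continuousAt
    obtain ⟨M, hM⟩ := h.supp
    refine hc.integrable_of_hasCompactSupport ?_
    refine HasCompactSupport.intro (isCompact_Icc (a := -M) (b := M)) ?_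
    intro x hx
    have : M < |x| := by
      by_contra hcon
      exact hx (abs_le.1 (not_lt.1 hcon))
    simp [(hM x this).1]
  ext i j
  simp only [Tot, Matrix.of_apply, Matrix.mul_apply, Matrix.transpose_apply]
  rw [integral_finsetSum]
  · refine Finset.sum_congr rfl fun k _ => ?_
    rw [integral_mul_const, integral_finsetSum]
    · congr 1
      refine Finset.sum_congr rfl fun l _ => ?_
      rw [integral_const_mul]
    · intro l _
      exact (hint l k).const_mul _
  · intro k _
    refine Integrable.mul_const ?_ _
    exact integrable_finsetSum _ fun l _ => (hint l k).const_mul _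

end LTd
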