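import Pool.Agent.Helper717.LT.Defs
import Pool.Agent.Helper717.LT.P_blockB
import Pool.Agent.Helper717.LT.P_congr_sys
import Pool.Agent.Helper717.LT.P_congr_tot

set_option autoImplicit false

open MeasureTheory Set Filter Topology Real
open scoped Matrix

namespace LTd



theorem Sys.contR' {n : ℕ} {R S Q : ℝ → Mat n} (h : Sys R S Q) (i j : Fin n) :
    Continuous fun x => R x i j :=
  continuous_iff_continuousAt.2 fun x => (h.der x i j).continuousAt

theorem Sys.cs' {n : ℕ} {R S Q : ℝ → Mat n} (h : Sys R S Q) :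
    ∃ M : ℝ, ∀ x, x ∉ Icc (-M) M → R x = 0 ∧ Q x = 0 := by
  obtain ⟨M, hM⟩ := h.supp
  refine ⟨M, fun x hx => ?_⟩
  have : M < |x| := by
    by_contra hcon
    push Not at hcon
    exact hx (abs_le.1 hcon)
  exact ⟨(hM x this).1, (hM x this).2.2⟩

theorem C_tau {n : ℕ} {R S Q : ℝ → Mat n} (h : Sys R S Q) (l α : Fin n → ℝ)
    (hl : Tot R = Matrix.diagonal l) (hα : ∀ i, 0 ≤ α i) :
    4 / 3 * (∑ i, ∑ j, α i * α j * ∫ x, R x i j ^ 2) ≤
      (∑ i, α i * ∫ x, Q x i i) + 4 / 27 * ∑ i, (α i * l i) ^ 3 := by
  classical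
  set D : Mat n := Matrix.diagonal fun i => √(α i) with hD
  have hDt : Dᵀ = D := by rw [hD, Matrix.diagonal_transpose]
  have hent : ∀ (X : Mat n) i j, (D * X * Dᵀ) i j = √(α i) * √(α j) * X i j := by
    intro X i j
    rw [hDt, hD, Matrix.mul_diagonal, Matrix.diagonal_mul]
    ring
  have hB := blockB (congr_sys h D)
  obtain ⟨M, hM⟩ := h.cs'
  have hsq : ∀ i, √(α i) * √(α i) = α i := fun i => Real.mul_self_sqrt (hα i)
  -- first term
  have iR : ∀ i j, Integrable (fun x => R x i j ^ 2) volume := by
    intro i j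
    refine ((h.contR' i j).pow 2).integrable_of_hasCompactSupport ?_
    refine HasCompactSupport.intro (isCompact_Icc (a := -M) (b := M)) fun x hx => ?_
    show R x i j ^ 2 = 0
    rw [(hM x hx).1, Matrix.zero_apply]
    norm_num
  have iQ : ∀ i, Integrable (fun x => Q x i i) volume := by
    intro i
    refine (h.cQ i i).integrable_of_hasCompactSupport ?_
    refine HasCompactSupport.intro (isCompact_Icc (a := -M) (b := M)) fun x hx => ?_
    show Q x i i = 0
    rw [(hM x hx).2, Matrix.zero_apply]
  have e1 : ∫ x, ((D * R x * Dᵀ) * (D * R x * Dᵀ)).trace =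
      ∑ i, ∑ j, α i * α j * ∫ x, R x i j ^ 2 := by
    have h1 : ∀ x, ((D * R x * Dᵀ) * (D * R x * Dᵀ)).trace =
        ∑ i, ∑ j, α i * α j * R x i j ^ 2 := by
      intro x
      rw [Matrix.trace]
      refine Finset.sum_congr rfl fun i _ => ?_
      rw [Matrix.diag_apply, Matrix.mul_apply]
      refine Finset.sum_congr rfl fun j _ => ?_
      rw [hent, hent, h.symR x j i]
      calc √(α i) * √(α j) * R x i j * (√(α j) * √(α i) * R x i j) =
          (√(α i) * √(α i)) * (√(α j) * √(α j)) * R x i j ^ 2 := by ring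
        _ = _ := by rw [hsq, hsq]
    rw [integral_congr_ae (Eventually.of_forall h1)]
    rw [integral_finsetSum]
    · refine Finset.sum_congr rfl fun i _ => ?_
      rw [integral_finsetSum]
      · refine Finset.sum_congr rfl fun j _ => ?_
        rw [integral_const_mul]
      · intro j _
        exact (iR i j).const_mul _
    · intro i _
      exact integrable_finsetSum _ fun j _ => (iR i j).const_mul _
  have e2 : ∫ x, (D * Q x * Dᵀ).trace = ∑ i, α i * ∫ x, Q x i i := by
    have h1 : ∀ x, (D * Q x * Dᵀ).trace = ∑ i, α i * Q x i i := by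
      intro x
      rw [Matrix.trace]
      refine Finset.sum_congr rfl fun i _ => ?_
      rw [Matrix.diag_apply, hent, hsq]
    rw [integral_congr_ae (Eventually.of_forall h1), integral_finsetSum]
    · refine Finset.sum_congr rfl fun i _ => ?_
      rw [integral_const_mul]
    · intro i _
      exact (iQ i).const_mul _
  have e3 : (Tot (fun x => D * R x * Dᵀ) * Tot (fun x => D * R x * Dᵀ) *
      Tot (fun x => D * R x * Dᵀ)).trace = ∑ i, (α i * l i) ^ 3 := by
    have h1 : Tot (fun x => D * R x * Dᵀ) = Matrix.diagonal fun i => α i * l i := by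
      rw [congr_tot h D, hl, hDt, hD, Matrix.diagonal_mul_diagonal, Matrix.diagonal_mul_diagonal]
      congr 1
      funext i
      rw [← hsq i]
      rw [hsq i]
      calc √(α i) * l i * √(α i) = (√(α i) * √(α i)) * l i := by ring
        _ = _ := by rw [hsq]
    rw [h1, Matrix.diagonal_mul_diagonal, Matrix.diagonal_mul_diagonal, Matrix.trace_diagonal]
    refine Finset.sum_congr rfl fun i _ => ?_
    ring
  rw [e1, e2, e3] at hB
  exact hB

end LTd
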