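import Pool.Agent.Helper717.LT.Defs
import Pool.Agent.Helper717.LT.P_sys_psd

set_option autoImplicit false

open MeasureTheory Set Filter Topology Real
open scoped Matrix

namespace LTd



theorem tot_zero_quad {n : ℕ} {M : Mat n} (h : PSD M) (i j : Fin n) (t : ℝ) :
    0 ≤ t * t * M i i + 2 * t * M i j + M j j := by
  have h1 := h.2 (fun a => t * (if a = i then 1 else 0) + (if a = j then 1 else 0))
  have h2 : (∑ a, ∑ b, (t * (if a = i then (1:ℝ) else 0) + (if a = j then 1 else 0)) *
      (t * (if b = i then (1:ℝ) else 0) + (if b = j then 1 else 0)) * M a b)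
      = t * t * M i i + 2 * t * M i j + M j j := by
    have h3 : ∀ a, (∑ b, (t * (if a = i then (1:ℝ) else 0) + (if a = j then 1 else 0)) *
      (t * (if b = i then (1:ℝ) else 0) + (if b = j then 1 else 0)) * M a b)
      = (if a = i then t * (t * M a i + M a j) else 0) + (if a = j then (t * M a i + M a j) else 0) := by
      intro a
      have h4 : ∀ b, (t * (if a = i then (1:ℝ) else 0) + (if a = j then 1 else 0)) *
        (t * (if b = i then (1:ℝ) else 0) + (if b = j then 1 else 0)) * M a b =
        (if b = i then (t * (if a = i then (1:ℝ) else 0) + (if a = j then 1 else 0)) * t * M a b else 0)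
        + (if b = j then (t * (if a = i then (1:ℝ) else 0) + (if a = j then 1 else 0)) * M a b else 0) := by
        intro b
        split_ifs <;> ring
      rw [Finset.sum_congr rfl fun b _ => h4 b, Finset.sum_add_distrib, Finset.sum_ite_eq',
        Finset.sum_ite_eq']
      split_ifs <;> simp_all <;> ring
    rw [Finset.sum_congr rfl fun a _ => h3 a, Finset.sum_add_distrib, Finset.sum_ite_eq',
        Finset.sum_ite_eq']
    simp only [Finset.mem_univ, if_true]
    rw [h.1 j i]; ring
  rw [h2] at h1
  exact h1

theorem tot_zero_diag {n : ℕ} {M : Mat n} (h : PSD M) (i : Fin n) : 0 ≤ M i i := by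
  have := tot_zero_quad h i i 0
  simpa using this

theorem tot_zero_row {n : ℕ} {M : Mat n} (h : PSD M) (i : Fin n) (h0 : M i i = 0) (j : Fin n) :
    M i j = 0 := by
  by_contra hne
  have h1 := tot_zero_quad h i j (-(M j j + 1) / (2 * M i j))
  rw [h0] at h1
  have h2 : 2 * (-(M j j + 1) / (2 * M i j)) * M i j = -(M j j + 1) := by
    field_simp
  rw [h2] at h1
  linarith

theorem tot_zero {n : ℕ} {R S Q : ℝ → Mat n} (h : Sys R S Q) (l : Fin n → ℝ)
    (hl : Tot R = Matrix.diagonal l) :
    (∀ i, 0 ≤ l i) ∧ ∀ i, l i = 0 → ∀ x j, R x i j = 0 := by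
  have hT : ∀ i, l i = ∫ x, R x i i := by
    intro i
    have h1 := congrFun (congrFun hl i) i
    simp only [Tot, Matrix.of_apply, Matrix.diagonal_apply_eq] at h1
    exact h1.symm
  have hnn : ∀ i x, 0 ≤ R x i i := fun i x => tot_zero_diag (sys_psd h x) i
  refine ⟨fun i => ?_, fun i hi x j => ?_⟩
  · rw [hT i]
    exact integral_nonneg fun x => hnn i x
  · refine tot_zero_row (sys_psd h x) i ?_ j
    by_contra hne
    have hc : Continuous fun t => R t i i :=
      continuous_iff_continuousAt.2 fun x => (h.der x i i).continuousAt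
    obtain ⟨M, hM⟩ := h.supp
    have hcs : HasCompactSupport fun t => R t i i := by
      refine HasCompactSupport.intro (isCompact_closedBall (0:ℝ) M) fun t ht => ?_
      have h1 : M < |t| := by
        simpa [Metric.mem_closedBall, Real.dist_eq] using ht
      have h2 := (hM t h1).1
      simp [h2]
    have hpos := hc.integral_pos_of_hasCompactSupport_nonneg_nonzero (μ := volume) hcs
      (fun t => hnn i t) hne
    rw [← hT i, hi] at hpos
    exact lt_irrefl _ hpos

end LTd
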