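import Pool.Agent.Helper717.LT.Defs
import Pool.Agent.Helper717.LT.P_C_norm
import Pool.Agent.Helper717.LT.P_C_integrable
import Pool.Agent.Helper717.LT.P_C_tau
import Pool.Agent.Helper717.LT.P_tot_zero

set_option autoImplicit false

open MeasureTheory Set Filter Topology Real
open scoped Matrix

namespace LTd



theorem C_integrated {n : ℕ} {R S Q : ℝ → Mat n} (h : Sys R S Q) (l : Fin n → ℝ)
    (hl : Tot R = Matrix.diagonal l) {g : ℝ} (hg : 3 / 2 < g) :
    4 / 3 * (∑ i, ∑ j, kap g (l i) (l j) * ∫ x, R x i j ^ 2) ≤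
      (∫ x, (Q x).trace) + 4 / 27 * ∑ i, nuC g (l i) := by
  obtain ⟨hl0, -⟩ := tot_zero h l hl
  have hα : ∀ i τ, 0 ≤ aw (EE g (l i)) (l i) τ := by
    intro i τ
    unfold aw
    have := hl0 i
    positivity
  have hQ0 : ∀ i x, 0 ≤ Q x i i := by
    intro i x
    have := h.key x (Matrix.single i i 1) 0
    simpa [Matrix.trace_mul_comm (Matrix.single i i (1:ℝ) * Q x), Matrix.trace_mul_comm _ (Q x), Matrix.transpose_single, ← mul_assoc] using this
  have hQint : ∀ i, Integrable (fun x => Q x i i) := by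
    intro i
    obtain ⟨M, hM⟩ := h.supp
    refine (h.cQ i i).integrable_of_hasCompactSupport ?_
    refine HasCompactSupport.of_support_subset_isCompact (isCompact_Icc (a := -M) (b := M)) ?_
    intro x hx
    by_contra hcon
    apply hx
    have : M < |x| := by
      by_contra h'
      push Not at h'
      exact hcon (abs_le.1 h')
    simp [(hM x this).2.2]
  have hpt : ∀ τ ∈ Ioi (0:ℝ), 4 / 3 * (∑ i, ∑ j, (τ ^ (g - 5 / 2) *
      (aw (EE g (l i)) (l i) τ * aw (EE g (l j)) (l j) τ)) * ∫ x, R x i j ^ 2) ≤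
      (∑ i, (τ ^ (g - 5/2) * aw (EE g (l i)) (l i) τ) * ∫ x, Q x i i) +
        4 / 27 * ∑ i, τ ^ (g - 5/2) * (aw (EE g (l i)) (l i) τ * l i) ^ 3 := by
    intro τ hτ
    have hτ' : 0 ≤ τ ^ (g - 5/2) := rpow_nonneg (le_of_lt hτ) _
    have h1 := mul_le_mul_of_nonneg_left
      (C_tau h l (fun i => aw (EE g (l i)) (l i) τ) hl (fun i => hα i τ)) hτ'
    refine (le_of_eq ?_).trans (h1.trans (le_of_eq ?_))
    · rw [mul_left_comm (τ ^ (g - 5/2)) (4/3 : ℝ), Finset.mul_sum (a := τ ^ (g - 5/2))]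
      congr 1
      refine Finset.sum_congr rfl fun i _ => ?_
      rw [Finset.mul_sum]
      refine Finset.sum_congr rfl fun j _ => ?_
      ring
    · rw [mul_add, mul_left_comm (τ ^ (g - 5/2)) (4/27 : ℝ), Finset.mul_sum (a := τ ^ (g - 5/2)),
        Finset.mul_sum (a := τ ^ (g - 5/2))]
      congr 1
      refine Finset.sum_congr rfl fun i _ => ?_
      ring
  have i1 : ∀ i j, IntegrableOn (fun τ : ℝ => (τ ^ (g - 5 / 2) *
      (aw (EE g (l i)) (l i) τ * aw (EE g (l j)) (l j) τ)) * ∫ x, R x i j ^ 2) (Ioi 0) :=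
    fun i j => (C_integrable hg (l i) (l j) (hl0 i) (hl0 j)).2.1.mul_const _
  have i2 : ∀ i, IntegrableOn (fun τ : ℝ => (τ ^ (g - 5/2) * aw (EE g (l i)) (l i) τ) *
      ∫ x, Q x i i) (Ioi 0) :=
    fun i => (C_integrable hg (l i) (l i) (hl0 i) (hl0 i)).1.mul_const _
  have i3 : ∀ i, IntegrableOn (fun τ : ℝ => τ ^ (g - 5/2) *
      (aw (EE g (l i)) (l i) τ * l i) ^ 3) (Ioi 0) :=
    fun i => (C_integrable hg (l i) (l i) (hl0 i) (hl0 i)).2.2.2
  have i1' : IntegrableOn (fun τ : ℝ => 4 / 3 * (∑ i, ∑ j, (τ ^ (g - 5 / 2) *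
      (aw (EE g (l i)) (l i) τ * aw (EE g (l j)) (l j) τ)) * ∫ x, R x i j ^ 2)) (Ioi 0) :=
    (integrable_finsetSum _ fun i _ => integrable_finsetSum _ fun j _ => i1 i j).const_mul _
  have i2' : IntegrableOn (fun τ : ℝ => ∑ i, (τ ^ (g - 5/2) * aw (EE g (l i)) (l i) τ) *
      ∫ x, Q x i i) (Ioi 0) := integrable_finsetSum _ fun i _ => i2 i
  have i3' : IntegrableOn (fun τ : ℝ => 4 / 27 * ∑ i, τ ^ (g - 5/2) *
      (aw (EE g (l i)) (l i) τ * l i) ^ 3) (Ioi 0) :=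
    (integrable_finsetSum _ fun i _ => i3 i).const_mul _
  have hmono := setIntegral_mono_on i1' (i2'.add i3') measurableSet_Ioi hpt
  have hL : ∫ τ in Ioi (0:ℝ), 4 / 3 * (∑ i, ∑ j, (τ ^ (g - 5 / 2) *
      (aw (EE g (l i)) (l i) τ * aw (EE g (l j)) (l j) τ)) * ∫ x, R x i j ^ 2) =
      4 / 3 * (∑ i, ∑ j, kap g (l i) (l j) * ∫ x, R x i j ^ 2) := by
    rw [integral_const_mul, integral_finsetSum _ fun i _ =>
      integrable_finsetSum _ fun j _ => i1 i j]
    congr 1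
    refine Finset.sum_congr rfl fun i _ => ?_
    rw [integral_finsetSum _ fun j _ => i1 i j]
    refine Finset.sum_congr rfl fun j _ => ?_
    rw [integral_mul_const]
    rfl
  have hR : ∫ τ in Ioi (0:ℝ), ((∑ i, (τ ^ (g - 5/2) * aw (EE g (l i)) (l i) τ) * ∫ x, Q x i i) +
        4 / 27 * ∑ i, τ ^ (g - 5/2) * (aw (EE g (l i)) (l i) τ * l i) ^ 3) =
      (∑ i, (∫ τ in Ioi (0:ℝ), τ ^ (g - 5/2) * aw (EE g (l i)) (l i) τ) * ∫ x, Q x i i) +
        4 / 27 * ∑ i, nuC g (l i) := by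
    rw [integral_add i2' i3', integral_const_mul, integral_finsetSum _ fun i _ => i2 i,
      integral_finsetSum _ fun i _ => i3 i]
    congr 1
    refine Finset.sum_congr rfl fun i _ => ?_
    rw [integral_mul_const]
  have hmono' : 4 / 3 * (∑ i, ∑ j, kap g (l i) (l j) * ∫ x, R x i j ^ 2) ≤
      (∑ i, (∫ τ in Ioi (0:ℝ), τ ^ (g - 5/2) * aw (EE g (l i)) (l i) τ) * ∫ x, Q x i i) +
        4 / 27 * ∑ i, nuC g (l i) := by
    rw [← hL, ← hR]; exact hmono
  refine hmono'.trans (add_le_add ?_ le_rfl)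
  have htr : ∫ x, (Q x).trace = ∑ i, ∫ x, Q x i i := by
    rw [← integral_finsetSum _ fun i _ => hQint i]
    rfl
  rw [htr]
  refine Finset.sum_le_sum fun i _ => ?_
  have hq : 0 ≤ ∫ x, Q x i i := integral_nonneg fun x => hQ0 i x
  rcases (hl0 i).lt_or_eq with hli | hli
  · rw [(C_norm hg hli).2, one_mul]
  · have : ∀ τ : ℝ, τ ^ (g - 5/2) * aw (EE g (l i)) (l i) τ = 0 := by
      intro τ
      unfold aw
      rw [← hli]
      simp
    simp only [this, integral_zero, zero_mul]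
    exact hq

end LTd
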