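import Pool.Agent.Helper717.LT.Defs

set_option autoImplicit false

open MeasureTheory Set Filter Topology Real
open scoped Matrix

namespace LTd



theorem ct_sum4 {n : ℕ} (F : Fin n → Fin n → Fin n → Fin n → ℝ) :
    ∑ i, ∑ k, ∑ j, ∑ l, F i k j l = ∑ j, ∑ l, ∑ i, ∑ k, F i k j l := by
  calc ∑ i, ∑ k, ∑ j, ∑ l, F i k j l = ∑ i, ∑ j, ∑ k, ∑ l, F i k j l :=
        Finset.sum_congr rfl fun i _ => Finset.sum_comm
    _ = ∑ j, ∑ i, ∑ k, ∑ l, F i k j l := Finset.sum_comm
    _ = ∑ j, ∑ i, ∑ l, ∑ k, F i k j l :=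
        Finset.sum_congr rfl fun j _ => Finset.sum_congr rfl fun i _ => Finset.sum_comm
    _ = ∑ j, ∑ l, ∑ i, ∑ k, F i k j l := Finset.sum_congr rfl fun j _ => Finset.sum_comm

theorem C_trace {n : ℕ} (R V : Mat n) (r α : Fin n → ℝ) (hR : R = V * Matrix.diagonal r * Vᵀ)
    (hV : V * Vᵀ = 1) (hV' : Vᵀ * V = 1) (hr : ∀ i, 0 ≤ r i) (hα : ∀ i, 0 ≤ α i) :
    ∑ j, (r j * ∑ i, α i * V i j ^ 2) ^ 2 ≤ ∑ i, ∑ k, α i * α k * R i k ^ 2 ∧
    ∑ j, (r j * ∑ i, α i * V i j ^ 2) = ∑ i, α i * R i i := by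
  have hRe : ∀ i k, R i k = ∑ j, V i j * r j * V k j := by
    intro i k
    rw [hR, Matrix.mul_apply]
    refine Finset.sum_congr rfl fun j _ => ?_
    rw [Matrix.mul_diagonal, Matrix.transpose_apply]
  constructor
  · have key : ∑ i, ∑ k, α i * α k * R i k ^ 2 =
        ∑ j, ∑ l, r j * r l * (∑ i, α i * V i j * V i l) ^ 2 := by
      have e1 : ∀ i k, α i * α k * R i k ^ 2 = ∑ j, ∑ l,
          r j * r l * ((α i * V i j * V i l) * (α k * V k j * V k l)) := by
        intro i k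
        rw [hRe, sq, Finset.sum_mul_sum, Finset.mul_sum]
        refine Finset.sum_congr rfl fun j _ => ?_
        rw [Finset.mul_sum]
        refine Finset.sum_congr rfl fun l _ => ?_
        ring
      have e2 : ∀ j l, r j * r l * (∑ i, α i * V i j * V i l) ^ 2 = ∑ i, ∑ k,
          r j * r l * ((α i * V i j * V i l) * (α k * V k j * V k l)) := by
        intro j l
        rw [sq, Finset.sum_mul_sum, Finset.mul_sum]
        refine Finset.sum_congr rfl fun i _ => ?_
        rw [Finset.mul_sum]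
      simp only [e1, e2]
      exact ct_sum4 fun i k j l => r j * r l * ((α i * V i j * V i l) * (α k * V k j * V k l))
    rw [key]
    refine Finset.sum_le_sum fun j _ => ?_
    have h1 : r j * r j * (∑ i, α i * V i j * V i j) ^ 2 ≤
        ∑ l, r j * r l * (∑ i, α i * V i j * V i l) ^ 2 :=
      Finset.single_le_sum (f := fun l => r j * r l * (∑ i, α i * V i j * V i l) ^ 2)
        (fun l _ => mul_nonneg (mul_nonneg (hr j) (hr l)) (sq_nonneg _)) (Finset.mem_univ j)
    refine le_trans (le_of_eq ?_) h1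
    have h2 : ∑ i, α i * V i j ^ 2 = ∑ i, α i * V i j * V i j :=
      Finset.sum_congr rfl fun i _ => by ring
    rw [h2]
    ring
  · simp only [hRe, Finset.mul_sum]
    rw [Finset.sum_comm]
    refine Finset.sum_congr rfl fun i _ => Finset.sum_congr rfl fun j _ => ?_
    ring

end LTd
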