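import Pool.Agent.Helper717.LT.Defs
import Pool.Agent.Helper717.LT.P_C_norm
import Pool.Agent.Helper717.LT.P_C_integrable
import Pool.Agent.Helper717.LT.P_C_dual
import Pool.Agent.Helper717.LT.P_C_trace

set_option autoImplicit false

open MeasureTheory Set Filter Topology Real
open scoped Matrix

namespace LTd



theorem C_point {n : ℕ} {g : ℝ} (hg : 3 / 2 < g) (l : Fin n → ℝ) (hl : ∀ i, 0 ≤ l i)
    (R V : Mat n) (r : Fin n → ℝ) (hV : V * Vᵀ = 1) (hV' : Vᵀ * V = 1) (hr : ∀ i, 0 ≤ r i)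
    (hR : R = V * Matrix.diagonal r * Vᵀ) (h0 : ∀ i j, l i = 0 → R i j = 0) :
    b0C g * ∑ i, r i ^ pp (g + 1 / 2) ≤
      4 / 3 * (∑ i, ∑ j, kap g (l i) (l j) * R i j ^ 2) + ∑ i, muC g (l i) * R i i := by
  classical
  set α : Fin n → ℝ → ℝ := fun i τ => aw (EE g (l i)) (l i) τ with hα
  have hα0 : ∀ i τ, 0 ≤ α i τ := by
    intro i τ
    simp only [hα, aw]
    exact div_nonneg (mul_nonneg (by norm_num) (Real.sqrt_nonneg _)) (hl i)
  set ρ : Fin n → ℝ → ℝ := fun j τ => r j * ∑ i, α i τ * V i j ^ 2 with hρ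
  have hρ0 : ∀ j τ, 0 ≤ ρ j τ := fun j τ =>
    mul_nonneg (hr j) (Finset.sum_nonneg fun i _ => mul_nonneg (hα0 i τ) (sq_nonneg _))
  have hI1 : ∀ i, IntegrableOn (fun τ : ℝ => τ ^ (g - 5 / 2) * α i τ) (Ioi 0) := fun i =>
    (C_integrable hg (l i) (l i) (hl i) (hl i)).1
  have hI2 : ∀ i k, IntegrableOn (fun τ : ℝ => τ ^ (g - 5 / 2) * (α i τ * α k τ)) (Ioi 0) :=
    fun i k => (C_integrable hg (l i) (l k) (hl i) (hl k)).2.1
  have hI3 : ∀ i, IntegrableOn (fun τ : ℝ => τ ^ (g - 3 / 2) * α i τ) (Ioi 0) := fun i =>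
    (C_integrable hg (l i) (l i) (hl i) (hl i)).2.2.1
  -- expansions
  have x1 : ∀ j, (fun τ : ℝ => τ ^ (g - 5 / 2) * ρ j τ)
      = fun τ => ∑ i, (τ ^ (g - 5 / 2) * α i τ) * (r j * V i j ^ 2) := by
    intro j
    funext τ
    simp only [hρ, Finset.mul_sum]
    exact Finset.sum_congr rfl fun i _ => by ring
  have x2 : ∀ j, (fun τ : ℝ => τ ^ (g - 5 / 2) * ρ j τ ^ 2)
      = fun τ => ∑ i, ∑ k, (τ ^ (g - 5 / 2) * (α i τ * α k τ)) * (r j ^ 2 * V i j ^ 2 * V k j ^ 2) := by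
    intro j
    funext τ
    simp only [hρ]
    rw [mul_pow, sq (∑ i, α i τ * V i j ^ 2), Finset.sum_mul_sum, Finset.mul_sum, Finset.mul_sum]
    refine Finset.sum_congr rfl fun i _ => ?_
    rw [Finset.mul_sum, Finset.mul_sum]
    exact Finset.sum_congr rfl fun k _ => by ring
  have x3 : ∀ j, (fun τ : ℝ => τ ^ (g - 3 / 2) * ρ j τ)
      = fun τ => ∑ i, (τ ^ (g - 3 / 2) * α i τ) * (r j * V i j ^ 2) := by
    intro j
    funext τ
    simp only [hρ, Finset.mul_sum]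
    exact Finset.sum_congr rfl fun i _ => by ring
  have h1 : ∀ j, IntegrableOn (fun τ : ℝ => τ ^ (g - 5 / 2) * ρ j τ) (Ioi 0) := by
    intro j
    rw [x1 j]
    exact integrable_finsetSum _ fun i _ => (hI1 i).mul_const _
  have h2 : ∀ j, IntegrableOn (fun τ : ℝ => τ ^ (g - 5 / 2) * ρ j τ ^ 2) (Ioi 0) := by
    intro j
    rw [x2 j]
    exact integrable_finsetSum _ fun i _ => integrable_finsetSum _ fun k _ =>
      (hI2 i k).mul_const _
  have h3 : ∀ j, IntegrableOn (fun τ : ℝ => τ ^ (g - 3 / 2) * ρ j τ) (Ioi 0) := by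
    intro j
    rw [x3 j]
    exact integrable_finsetSum _ fun i _ => (hI3 i).mul_const _
  -- the diagonal of R
  have hRii : ∀ i, R i i = ∑ j, r j * V i j ^ 2 := by
    intro i
    rw [hR, Matrix.mul_apply]
    refine Finset.sum_congr rfl fun j _ => ?_
    rw [Matrix.mul_diagonal, Matrix.transpose_apply]
    ring
  have hz : ∀ i j, l i = 0 → r j * V i j ^ 2 = 0 := by
    intro i j hli
    have e := hRii i
    rw [h0 i i hli] at e
    exact (Finset.sum_eq_zero_iff_of_nonneg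
      (fun j _ => mul_nonneg (hr j) (sq_nonneg (V i j)))).1 e.symm j (Finset.mem_univ j)
  have hVV : ∀ j, ∑ i, V i j ^ 2 = 1 := by
    intro j
    have e := congrFun (congrFun hV' j) j
    rw [Matrix.mul_apply, Matrix.one_apply_eq] at e
    rw [← e]
    exact Finset.sum_congr rfl fun i _ => by rw [Matrix.transpose_apply, sq]
  have hn : ∀ j, ∫ τ in Ioi (0:ℝ), τ ^ (g - 5 / 2) * ρ j τ = r j := by
    intro j
    rw [x1 j, integral_finsetSum _ fun i _ => (hI1 i).mul_const _]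
    have e : ∀ i, ∫ τ in Ioi (0:ℝ), (τ ^ (g - 5 / 2) * α i τ) * (r j * V i j ^ 2)
        = r j * V i j ^ 2 := by
      intro i
      rw [integral_mul_const]
      rcases (hl i).eq_or_lt with hli | hli
      · rw [hz i j hli.symm, mul_zero]
      · rw [(C_norm hg hli).2, one_mul]
    simp only [e]
    rw [← Finset.mul_sum, hVV j, mul_one]
  have hdual : ∀ j, b0C g * r j ^ pp (g + 1 / 2) ≤
      4 / 3 * (∫ τ in Ioi (0:ℝ), τ ^ (g - 5 / 2) * ρ j τ ^ 2) +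
        ∫ τ in Ioi (0:ℝ), τ ^ (g - 3 / 2) * ρ j τ := fun j =>
    C_dual hg (hr j) (ρ j) (fun τ _ => hρ0 j τ) (h1 j) (h2 j) (h3 j) (hn j)
  have htr : ∀ τ, ∑ j, ρ j τ ^ 2 ≤ ∑ i, ∑ k, α i τ * α k τ * R i k ^ 2 ∧
      ∑ j, ρ j τ = ∑ i, α i τ * R i i := fun τ =>
    C_trace R V r (fun i => α i τ) hR hV hV' hr (fun i => hα0 i τ)
  have key1 : ∑ j, ∫ τ in Ioi (0:ℝ), τ ^ (g - 5 / 2) * ρ j τ ^ 2
      ≤ ∑ i, ∑ k, kap g (l i) (l k) * R i k ^ 2 := by
    have e : ∑ i, ∑ k, kap g (l i) (l k) * R i k ^ 2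
        = ∫ τ in Ioi (0:ℝ), ∑ i, ∑ k, (τ ^ (g - 5 / 2) * (α i τ * α k τ)) * R i k ^ 2 := by
      rw [integral_finsetSum _ fun i _ => integrable_finsetSum _ fun k _ =>
        (hI2 i k).mul_const _]
      refine Finset.sum_congr rfl fun i _ => ?_
      rw [integral_finsetSum _ fun k _ => (hI2 i k).mul_const _]
      refine Finset.sum_congr rfl fun k _ => ?_
      rw [integral_mul_const]
      rfl
    rw [← integral_finsetSum _ fun j _ => h2 j, e]
    refine setIntegral_mono_on (integrable_finsetSum _ fun j _ => h2 j)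
      (integrable_finsetSum _ fun i _ => integrable_finsetSum _ fun k _ =>
        (hI2 i k).mul_const _) measurableSet_Ioi ?_
    intro τ hτ
    have hτ0 : 0 ≤ τ ^ (g - 5 / 2) := Real.rpow_nonneg (le_of_lt hτ) _
    have e1 : ∑ i, ∑ k, (τ ^ (g - 5 / 2) * (α i τ * α k τ)) * R i k ^ 2
        = τ ^ (g - 5 / 2) * ∑ i, ∑ k, α i τ * α k τ * R i k ^ 2 := by
      rw [Finset.mul_sum]
      refine Finset.sum_congr rfl fun i _ => ?_
      rw [Finset.mul_sum]
      exact Finset.sum_congr rfl fun k _ => by ring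
    rw [e1, ← Finset.mul_sum]
    exact mul_le_mul_of_nonneg_left (htr τ).1 hτ0
  have key2 : ∑ j, ∫ τ in Ioi (0:ℝ), τ ^ (g - 3 / 2) * ρ j τ = ∑ i, muC g (l i) * R i i := by
    have e : ∑ i, muC g (l i) * R i i
        = ∫ τ in Ioi (0:ℝ), ∑ i, (τ ^ (g - 3 / 2) * α i τ) * R i i := by
      rw [integral_finsetSum _ fun i _ => (hI3 i).mul_const _]
      refine Finset.sum_congr rfl fun i _ => ?_
      rw [integral_mul_const]
      rfl
    rw [← integral_finsetSum _ fun j _ => h3 j, e]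
    congr 1
    funext τ
    rw [← Finset.mul_sum, (htr τ).2, Finset.mul_sum]
    exact Finset.sum_congr rfl fun i _ => by ring
  calc b0C g * ∑ j, r j ^ pp (g + 1 / 2) = ∑ j, b0C g * r j ^ pp (g + 1 / 2) := Finset.mul_sum _ _ _
    _ ≤ ∑ j, (4 / 3 * (∫ τ in Ioi (0:ℝ), τ ^ (g - 5 / 2) * ρ j τ ^ 2) +
        ∫ τ in Ioi (0:ℝ), τ ^ (g - 3 / 2) * ρ j τ) := Finset.sum_le_sum fun j _ => hdual j
    _ = 4 / 3 * (∑ j, ∫ τ in Ioi (0:ℝ), τ ^ (g - 5 / 2) * ρ j τ ^ 2) +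
        ∑ j, ∫ τ in Ioi (0:ℝ), τ ^ (g - 3 / 2) * ρ j τ := by
      rw [Finset.sum_add_distrib, Finset.mul_sum]
    _ ≤ 4 / 3 * (∑ i, ∑ k, kap g (l i) (l k) * R i k ^ 2) + ∑ i, muC g (l i) * R i i := by
      rw [key2]
      have := mul_le_mul_of_nonneg_left key1 (by norm_num : (0:ℝ) ≤ 4 / 3)
      linarith

end LTd
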