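import Pool.Agent.Helper717.LT.Defs

set_option autoImplicit false

open MeasureTheory Set Filter Topology Real
open scoped Matrix Convolution

namespace LTd



theorem conv_L2 {d : ℕ} (φ : ContDiffBump (0 : Fin d → ℝ)) {f : (Fin d → ℝ) → ℝ}
    (hf : MemLp f 2 volume) :
    Continuous (φ.normed volume ⋆[ContinuousLinearMap.lsmul ℝ ℝ, volume] f) ∧
    Integrable (fun x => (φ.normed volume ⋆[ContinuousLinearMap.lsmul ℝ ℝ, volume] f) x ^ 2) ∧
    ∫ x, (φ.normed volume ⋆[ContinuousLinearMap.lsmul ℝ ℝ, volume] f) x ^ 2 ≤ ∫ x, f x ^ 2 := by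
  have hψc : Continuous (φ.normed volume) := φ.continuous_normed
  have hψs : HasCompactSupport (φ.normed volume) := φ.hasCompactSupport_normed
  have hψi : Integrable (φ.normed volume) volume := hψc.integrable_of_hasCompactSupport hψs
  have hψ1 : ∫ t, φ.normed volume t = 1 := φ.integral_normed
  have hψ0 : ∀ t, 0 ≤ φ.normed volume t := fun t => φ.nonneg_normed t
  have hloc : LocallyIntegrable f volume := hf.locallyIntegrable (by norm_num)
  have hf2 : Integrable (fun x => f x ^ 2) volume := hf.integrable_sq
  have hcont : Continuous (φ.normed volume ⋆[ContinuousLinearMap.lsmul ℝ ℝ, volume] f) :=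
    hψs.continuous_convolution_left _ hψc hloc
  have hpt : ∀ x, (φ.normed volume ⋆[ContinuousLinearMap.lsmul ℝ ℝ, volume] f) x ^ 2 ≤
      (φ.normed volume ⋆[ContinuousLinearMap.lsmul ℝ ℝ, volume] (fun x => f x ^ 2)) x := by
    intro x
    have i1 : Integrable (fun t => φ.normed volume t * f (x - t)) volume :=
      (hψs.convolutionExists_left (ContinuousLinearMap.lsmul ℝ ℝ) hψc hloc) x
    have i2 : Integrable (fun t => φ.normed volume t * f (x - t) ^ 2) volume :=
      (hψs.convolutionExists_left (ContinuousLinearMap.lsmul ℝ ℝ) hψc hf2.locallyIntegrable) x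
    have e1 : (φ.normed volume ⋆[ContinuousLinearMap.lsmul ℝ ℝ, volume] f) x =
        ∫ t, φ.normed volume t * f (x - t) := rfl
    have e2 : (φ.normed volume ⋆[ContinuousLinearMap.lsmul ℝ ℝ, volume] (fun x => f x ^ 2)) x =
        ∫ t, φ.normed volume t * f (x - t) ^ 2 := rfl
    rw [e1, e2]
    set c := ∫ t, φ.normed volume t * f (x - t) with hc
    have h0 : 0 ≤ ∫ t, φ.normed volume t * (f (x - t) - c) ^ 2 :=
      integral_nonneg fun t => mul_nonneg (hψ0 t) (sq_nonneg _)
    have e3 : ∫ t, φ.normed volume t * (f (x - t) - c) ^ 2 =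
        (∫ t, φ.normed volume t * f (x - t) ^ 2) - c ^ 2 := by
      have h1 : ∀ t, φ.normed volume t * (f (x - t) - c) ^ 2 =
          φ.normed volume t * f (x - t) ^ 2 - (2 * c) * (φ.normed volume t * f (x - t)) +
            c ^ 2 * φ.normed volume t := by
        intro t
        ring
      have i3 : Integrable (fun t => φ.normed volume t * f (x - t) ^ 2 -
          (2 * c) * (φ.normed volume t * f (x - t))) volume := i2.sub (i1.const_mul _)
      have i4 : Integrable (fun t => c ^ 2 * φ.normed volume t) volume := hψi.const_mul _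
      have i5 : Integrable (fun t => (2 * c) * (φ.normed volume t * f (x - t))) volume :=
        i1.const_mul _
      rw [integral_congr_ae (Eventually.of_forall h1), integral_add i3 i4, integral_sub i2 i5,
        integral_const_mul, integral_const_mul, hψ1, ← hc]
      ring
    linarith
  have hint2 : Integrable
      (φ.normed volume ⋆[ContinuousLinearMap.lsmul ℝ ℝ, volume] (fun x => f x ^ 2)) volume :=
    hψi.integrable_convolution _ hf2
  have hint : Integrable
      (fun x => (φ.normed volume ⋆[ContinuousLinearMap.lsmul ℝ ℝ, volume] f) x ^ 2) volume := by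
    refine hint2.mono' (hcont.pow 2).aestronglyMeasurable (Eventually.of_forall fun x => ?_)
    rw [Real.norm_eq_abs, abs_of_nonneg (sq_nonneg _)]
    exact hpt x
  refine ⟨hcont, hint, ?_⟩
  refine (integral_mono hint hint2 hpt).trans ?_
  rw [integral_convolution _ hψi hf2, hψ1]
  simp

end LTd
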