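import Pool.Agent.Helper717.LT.Defs

set_option autoImplicit false

open MeasureTheory Set Filter Topology Real
open scoped Matrix Convolution

namespace LTd



theorem conv_ae {d : ℕ} : ∃ φ : ℕ → ContDiffBump (0 : Fin d → ℝ),
    ∀ f : (Fin d → ℝ) → ℝ, MemLp f 2 volume →
      ∀ᵐ x, Tendsto (fun k => ((φ k).normed volume ⋆[ContinuousLinearMap.lsmul ℝ ℝ, volume] f) x)
        atTop (𝓝 (f x)) := by
  have hin : ∀ k : ℕ, (0 : ℝ) < 1 / (2 * ((k : ℝ) + 1)) := fun k => by positivity
  have hlt : ∀ k : ℕ, 1 / (2 * ((k : ℝ) + 1)) < 1 / ((k : ℝ) + 1) := fun k => by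
    apply one_div_lt_one_div_of_lt (by positivity)
    have : (0 : ℝ) ≤ k := Nat.cast_nonneg k
    linarith
  refine ⟨fun k => ⟨1 / (2 * ((k : ℝ) + 1)), 1 / ((k : ℝ) + 1), hin k, hlt k⟩, ?_⟩
  intro f hf
  apply ContDiffBump.ae_convolution_tendsto_right_of_locallyIntegrable (K := 2)
  · exact tendsto_one_div_add_atTop_nhds_zero_nat
  · apply Filter.Eventually.of_forall
    intro k
    apply le_of_eq
    simp only
    have : ((k : ℝ) + 1) ≠ 0 := by positivity
    field_simp
  · exact hf.locallyIntegrable (by norm_num)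

end LTd
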