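import Pool.Agent.Helper717.LT.Defs

set_option autoImplicit false

open MeasureTheory Set Filter Topology Real
open scoped Matrix Convolution

namespace LTd



theorem conv_diff {d : ℕ} (φ : ContDiffBump (0 : Fin d → ℝ)) {f : (Fin d → ℝ) → ℝ}
    {g : Fin d → (Fin d → ℝ) → ℝ} (hf : WGrad f g) :
    ContDiff ℝ 1 (φ.normed volume ⋆[ContinuousLinearMap.lsmul ℝ ℝ, volume] f) ∧
    ∀ k x, pd k (φ.normed volume ⋆[ContinuousLinearMap.lsmul ℝ ℝ, volume] f) x =
      (φ.normed volume ⋆[ContinuousLinearMap.lsmul ℝ ℝ, volume] (g k)) x := by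
  have hloc : LocallyIntegrable f volume := hf.f2.locallyIntegrable (by norm_num)
  set ψ : (Fin d → ℝ) → ℝ := φ.normed volume with hψ
  have hψs : ContDiff ℝ (⊤ : ℕ∞) ψ := φ.contDiff_normed
  have hψ1 : ContDiff ℝ ((1 : ℕ∞) : WithTop ℕ∞) ψ := φ.contDiff_normed
  have hψ1' : ContDiff ℝ 1 ψ := by exact_mod_cast hψ1
  have hψc : HasCompactSupport ψ := φ.hasCompactSupport_normed
  refine ⟨?_, ?_⟩
  · have := hψc.contDiff_convolution_left (ContinuousLinearMap.lsmul ℝ ℝ) hψ1 hloc
    exact_mod_cast this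
  intro k x
  have h1 := hψc.hasFDerivAt_convolution_left (ContinuousLinearMap.lsmul ℝ ℝ) hψ1' hloc x
  have h2 : ConvolutionExistsAt (fderiv ℝ ψ) f x
      ((ContinuousLinearMap.lsmul ℝ ℝ : ℝ →L[ℝ] ℝ →L[ℝ] ℝ).precompL (Fin d → ℝ)) volume :=
    (hψc.fderiv ℝ).convolutionExists_left _ (hψ1'.continuous_fderiv (by norm_num)) hloc x
  have h3 : pd k (ψ ⋆[ContinuousLinearMap.lsmul ℝ ℝ, volume] f) x =
      ∫ t, pd k ψ t * f (x - t) := by
    unfold pd
    rw [h1.fderiv]
    unfold convolution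
    rw [ContinuousLinearMap.integral_apply h2]
    refine integral_congr_ae (Eventually.of_forall fun t => ?_)
    simp [ContinuousLinearMap.precompL_apply]
  have h4 : ∫ t, pd k ψ t * f (x - t) = ∫ y, f y * pd k ψ (x - y) := by
    rw [← integral_sub_left_eq_self (fun y => f y * pd k ψ (x - y)) volume x]
    refine integral_congr_ae (Eventually.of_forall fun t => ?_)
    simp [mul_comm]
  have hcs : HasCompactSupport (fun y => ψ (x - y)) :=
    hψc.comp_homeomorph (Homeomorph.subLeft x)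
  have hsm : ContDiff ℝ (⊤ : ℕ∞) (fun y => ψ (x - y)) :=
    hψs.comp (contDiff_const.sub contDiff_id)
  have hpd : ∀ y, pd k (fun y => ψ (x - y)) y = - pd k ψ (x - y) := by
    intro y
    unfold pd
    have e1 : HasFDerivAt (fun y : Fin d → ℝ => x - y)
        (-ContinuousLinearMap.id ℝ (Fin d → ℝ)) y := (hasFDerivAt_id y).const_sub x
    have e2 : HasFDerivAt ψ (fderiv ℝ ψ (x - y)) (x - y) :=
      (hψ1'.differentiable (by norm_num) (x - y)).hasFDerivAt
    have e3 := e2.comp y e1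
    have e4 : fderiv ℝ (fun y => ψ (x - y)) y =
        (fderiv ℝ ψ (x - y)).comp (-ContinuousLinearMap.id ℝ (Fin d → ℝ)) := e3.fderiv
    rw [e4]
    simp
  have h5 := hf.weak k (fun y => ψ (x - y)) hsm hcs
  have h6 : ∫ y, f y * pd k ψ (x - y) = ∫ y, g k y * ψ (x - y) := by
    have e1 : ∫ y, f y * pd k (fun y => ψ (x - y)) y = - ∫ y, f y * pd k ψ (x - y) := by
      rw [← integral_neg]
      refine integral_congr_ae (Eventually.of_forall fun y => ?_)
      simp only [hpd y]
      ring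
    rw [e1] at h5
    exact neg_injective h5
  have h7 : (ψ ⋆[ContinuousLinearMap.lsmul ℝ ℝ, volume] (g k)) x = ∫ y, g k y * ψ (x - y) := by
    unfold convolution
    rw [← integral_sub_left_eq_self (fun y => g k y * ψ (x - y)) volume x]
    refine integral_congr_ae (Eventually.of_forall fun t => ?_)
    simp [mul_comm]
  rw [h3, h4, h6, h7]

end LTd
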