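import Pool.Agent.Helper717.LT.Defs

set_option autoImplicit false

open MeasureTheory Set Filter Topology Real
open scoped Matrix Convolution

namespace LTd



theorem conv_sum {d n : ℕ} (φ : ContDiffBump (0 : Fin d → ℝ)) (f : Fin n → (Fin d → ℝ) → ℝ)
    (hf : ∀ i, MemLp (f i) 2 volume) (v : Fin n → ℝ) (x : Fin d → ℝ) :
    (φ.normed volume ⋆[ContinuousLinearMap.lsmul ℝ ℝ, volume] fun y => ∑ i, v i * f i y) x =
      ∑ i, v i * (φ.normed volume ⋆[ContinuousLinearMap.lsmul ℝ ℝ, volume] (f i)) x := by
  have hex : ∀ i, ConvolutionExists (φ.normed volume) (f i) (ContinuousLinearMap.lsmul ℝ ℝ)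
      (volume : Measure (Fin d → ℝ)) := fun i =>
    HasCompactSupport.convolutionExists_left _ (φ.hasCompactSupport_normed) (φ.continuous_normed)
      ((hf i).locallyIntegrable (by norm_num))
  rw [convolution_def]
  simp only [convolution_def]
  have hint : ∀ i, Integrable (fun t => (ContinuousLinearMap.lsmul ℝ ℝ) (φ.normed volume t)
      (f i (x - t))) (volume : Measure (Fin d → ℝ)) := fun i => hex i x
  have h1 : ∀ t, (ContinuousLinearMap.lsmul ℝ ℝ) (φ.normed volume t) (∑ i, v i * f i (x - t)) =
      ∑ i, v i * ((ContinuousLinearMap.lsmul ℝ ℝ) (φ.normed volume t) (f i (x - t))) := by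
    intro t
    simp only [ContinuousLinearMap.lsmul_apply, smul_eq_mul, Finset.mul_sum]
    refine Finset.sum_congr rfl fun i _ => ?_
    ring
  simp only [h1]
  rw [integral_finsetSum _ (fun i _ => (hint i).const_mul (v i))]
  refine Finset.sum_congr rfl fun i _ => ?_
  rw [integral_const_mul]

end LTd
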