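import Pool.Agent.Helper717.LT.Defs

set_option autoImplicit false

open MeasureTheory Set Filter Topology Real
open scoped Matrix

namespace LTd



theorem cutoff (d : ℕ) : ∃ C : ℝ, ∀ ρ : ℝ, 1 ≤ ρ → ∃ χ : (Fin d → ℝ) → ℝ,
    ContDiff ℝ 1 χ ∧ HasCompactSupport χ ∧ (∀ x, 0 ≤ χ x ∧ χ x ≤ 1) ∧
    (∀ x, ‖x‖ ≤ ρ → χ x = 1) ∧ ∀ k x, |pd k χ x| ≤ C / ρ := by
  let φ : ContDiffBump (0 : Fin d → ℝ) := ⟨1, 2, by norm_num, by norm_num⟩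
  have hφ : ContDiff ℝ 1 (φ : (Fin d → ℝ) → ℝ) := φ.contDiff (n := 1)
  have hcs : HasCompactSupport (φ : (Fin d → ℝ) → ℝ) := φ.hasCompactSupport
  obtain ⟨C, hC⟩ := (hφ.continuous_fderiv (by norm_num)).bounded_above_of_compact_support
    (hcs.fderiv ℝ)
  refine ⟨C, fun ρ hρ => ?_⟩
  have hρ0 : 0 < ρ := by linarith
  refine ⟨fun x => φ (ρ⁻¹ • x), ?_, ?_, ?_, ?_, ?_⟩
  · exact hφ.comp (contDiff_const_smul ρ⁻¹)
  · exact hcs.comp_homeomorph (Homeomorph.smulOfNeZero ρ⁻¹ (inv_ne_zero hρ0.ne'))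
  · exact fun x => ⟨φ.nonneg, φ.le_one⟩
  · intro x hx
    apply φ.one_of_mem_closedBall
    rw [Metric.mem_closedBall, dist_zero_right, norm_smul, norm_inv, Real.norm_of_nonneg hρ0.le]
    show ρ⁻¹ * ‖x‖ ≤ 1
    rw [inv_mul_le_iff₀ hρ0]
    linarith
  · intro k x
    have h1 : HasFDerivAt (fun x : Fin d → ℝ => φ (ρ⁻¹ • x))
        ((fderiv ℝ φ (ρ⁻¹ • x)).comp (ρ⁻¹ • ContinuousLinearMap.id ℝ (Fin d → ℝ))) x := by
      have h2 : HasFDerivAt (φ : (Fin d → ℝ) → ℝ) (fderiv ℝ φ (ρ⁻¹ • x)) (ρ⁻¹ • x) :=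
        (hφ.differentiable (by norm_num) _).hasFDerivAt
      have h3 : HasFDerivAt (fun x : Fin d → ℝ => ρ⁻¹ • x)
          (ρ⁻¹ • ContinuousLinearMap.id ℝ (Fin d → ℝ)) x := (hasFDerivAt_id x).const_smul ρ⁻¹
      exact h2.comp x h3
    have h4 : pd k (fun x : Fin d → ℝ => φ (ρ⁻¹ • x)) x =
        ρ⁻¹ * fderiv ℝ φ (ρ⁻¹ • x) (Pi.single k 1) := by
      unfold pd
      rw [h1.fderiv]
      simp
    rw [h4, abs_mul, abs_of_pos (inv_pos.mpr hρ0)]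
    have h5 : |fderiv ℝ φ (ρ⁻¹ • x) (Pi.single k 1)| ≤ C := by
      have h6 := (fderiv ℝ φ (ρ⁻¹ • x)).le_opNorm (Pi.single k 1)
      have h7 : ‖(Pi.single k 1 : Fin d → ℝ)‖ ≤ 1 := by
        rw [pi_norm_le_iff_of_nonneg (by norm_num)]
        intro j
        by_cases hj : j = k
        · subst hj; simp
        · simp [Pi.single_apply, hj]
      calc |fderiv ℝ φ (ρ⁻¹ • x) (Pi.single k 1)| ≤ ‖fderiv ℝ φ (ρ⁻¹ • x)‖ * ‖(Pi.single k 1 : Fin d → ℝ)‖ := h6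
        _ ≤ ‖fderiv ℝ φ (ρ⁻¹ • x)‖ * 1 := by gcongr
        _ ≤ C := by rw [mul_one]; exact hC _
    rw [div_eq_inv_mul]
    gcongr

end LTd
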