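import Pool.Agent.Helper717.LT.Defs
import Pool.Agent.Helper717.LT.P_cutoff

set_option autoImplicit false

open MeasureTheory Set Filter Topology Real
open scoped Matrix

namespace LTd



theorem cut_energy {d n : ℕ} (F : Fin n → (Fin d → ℝ) → ℝ) (hF : ∀ i, ContDiff ℝ 1 (F i))
    (h2 : ∀ i, Integrable fun x => F i x ^ 2) (h3 : ∀ k i, Integrable fun x => pd k (F i) x ^ 2)
    {ε : ℝ} (hε : 0 < ε) (ρ0 : ℝ) :
    ∃ χ : (Fin d → ℝ) → ℝ, ContDiff ℝ 1 χ ∧ HasCompactSupport χ ∧ (∀ x, 0 ≤ χ x ∧ χ x ≤ 1) ∧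
      (∀ x, ‖x‖ ≤ ρ0 → χ x = 1) ∧
      ∫ x, ∑ k, ∑ i, pd k (fun y => χ y * F i y) x ^ 2 ≤
        (∫ x, ∑ k, ∑ i, pd k (F i) x ^ 2) + ε := by
  obtain ⟨C, hC⟩ := cutoff d
  set A : ℝ := ∫ x, ∑ k, ∑ i, pd k (F i) x ^ 2 with hAdef
  set B : ℝ := ∫ x, ∑ i, F i x ^ 2 with hBdef
  have hA0 : 0 ≤ A := integral_nonneg fun x =>
    Finset.sum_nonneg fun k _ => Finset.sum_nonneg fun i _ => sq_nonneg _
  have hB0 : 0 ≤ B := integral_nonneg fun x => Finset.sum_nonneg fun i _ => sq_nonneg _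
  have hAi : Integrable (fun x => ∑ k, ∑ i, pd k (F i) x ^ 2) :=
    integrable_finsetSum _ fun k _ => integrable_finsetSum _ fun i _ => h3 k i
  have hBi : Integrable (fun x => ∑ i, F i x ^ 2) := integrable_finsetSum _ fun i _ => h2 i
  obtain ⟨η, hη, hηA⟩ : ∃ η : ℝ, 0 < η ∧ η * A ≤ ε / 2 := by
    refine ⟨ε / (2 * (A + 1)), by positivity, ?_⟩
    rw [div_mul_eq_mul_div, div_le_div_iff₀ (by positivity) (by norm_num)]
    nlinarith
  set K : ℝ := (1 + 1 / η) * C ^ 2 * d * B with hK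
  have hK0 : 0 ≤ K := by positivity
  set ρ : ℝ := max (max 1 ρ0) (2 * K / ε) with hρ
  have hρ1 : 1 ≤ ρ := (le_max_left _ _).trans (le_max_left _ _)
  have hρ0 : ρ0 ≤ ρ := (le_max_right _ _).trans (le_max_left _ _)
  have hρK : 2 * K / ε ≤ ρ := le_max_right _ _
  have hρp : 0 < ρ := by linarith
  have hKe : K / ρ ^ 2 ≤ ε / 2 := by
    rw [div_le_div_iff₀ (by positivity) (by norm_num)]
    rw [div_le_iff₀ hε] at hρK
    nlinarith [mul_pos hε hρp, mul_nonneg (mul_pos hε hρp).le (sub_nonneg.mpr hρ1)]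
  obtain ⟨χ, hχ1, hχ2, hχ3, hχ4, hχ5⟩ := hC ρ hρ1
  refine ⟨χ, hχ1, hχ2, hχ3, fun x hx => hχ4 x (hx.trans hρ0), ?_⟩
  have hpd : ∀ k i x, pd k (fun y => χ y * F i y) x = χ x * pd k (F i) x + F i x * pd k χ x := by
    intro k i x
    have h1 : DifferentiableAt ℝ χ x := (hχ1.differentiable one_ne_zero) x
    have h2 : DifferentiableAt ℝ (F i) x := ((hF i).differentiable one_ne_zero) x
    unfold pd
    rw [fderiv_fun_mul h1 h2]
    simp
  have hpt : ∀ x, ∑ k, ∑ i, pd k (fun y => χ y * F i y) x ^ 2 ≤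
      (1 + η) * (∑ k, ∑ i, pd k (F i) x ^ 2) +
        ((1 + 1 / η) * (C / ρ) ^ 2 * d) * ∑ i, F i x ^ 2 := by
    intro x
    have h1 : ∀ k i, pd k (fun y => χ y * F i y) x ^ 2 ≤
        (1 + η) * pd k (F i) x ^ 2 + ((1 + 1 / η) * (C / ρ) ^ 2) * F i x ^ 2 := by
      intro k i
      rw [hpd]
      have h2 : (χ x * pd k (F i) x + F i x * pd k χ x) ^ 2 ≤
          (1 + η) * (χ x * pd k (F i) x) ^ 2 + (1 + 1 / η) * (F i x * pd k χ x) ^ 2 := by
        have h3 : (1 + η) * (χ x * pd k (F i) x) ^ 2 + (1 + 1 / η) * (F i x * pd k χ x) ^ 2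
            - (χ x * pd k (F i) x + F i x * pd k χ x) ^ 2
            = (η * (χ x * pd k (F i) x) - F i x * pd k χ x) ^ 2 / η := by
          field_simp
          ring
        have h4 : 0 ≤ (η * (χ x * pd k (F i) x) - F i x * pd k χ x) ^ 2 / η := by positivity
        linarith
      have h5 : (χ x * pd k (F i) x) ^ 2 ≤ pd k (F i) x ^ 2 := by
        rw [mul_pow]
        have : χ x ^ 2 ≤ 1 := pow_le_one₀ (hχ3 x).1 (hχ3 x).2
        nlinarith [sq_nonneg (pd k (F i) x)]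
      have h6 : (F i x * pd k χ x) ^ 2 ≤ (C / ρ) ^ 2 * F i x ^ 2 := by
        rw [mul_pow]
        have h7 : pd k χ x ^ 2 ≤ (C / ρ) ^ 2 := by
          rw [← sq_abs (pd k χ x)]
          exact pow_le_pow_left₀ (abs_nonneg _) (hχ5 k x) 2
        nlinarith [sq_nonneg (F i x)]
      have h8 : 0 ≤ 1 + η := by positivity
      have h9 : 0 ≤ 1 + 1 / η := by positivity
      have h10 := mul_le_mul_of_nonneg_left h5 h8
      have h11 := mul_le_mul_of_nonneg_left h6 h9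
      calc _ ≤ _ := h2
        _ ≤ _ := by rw [mul_assoc (1 + 1 / η)]; linarith
    calc ∑ k, ∑ i, pd k (fun y => χ y * F i y) x ^ 2
        ≤ ∑ k : Fin d, ∑ i, ((1 + η) * pd k (F i) x ^ 2 +
          ((1 + 1 / η) * (C / ρ) ^ 2) * F i x ^ 2) :=
          Finset.sum_le_sum fun k _ => Finset.sum_le_sum fun i _ => h1 k i
      _ = _ := by
          simp only [Finset.sum_add_distrib, ← Finset.mul_sum, Finset.sum_const,
            Finset.card_univ, Fintype.card_fin, nsmul_eq_mul]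
          ring
  calc ∫ x, ∑ k, ∑ i, pd k (fun y => χ y * F i y) x ^ 2
      ≤ ∫ x, ((1 + η) * (∑ k, ∑ i, pd k (F i) x ^ 2) +
        ((1 + 1 / η) * (C / ρ) ^ 2 * d) * ∑ i, F i x ^ 2) := by
        apply integral_mono_of_nonneg
        · exact Filter.Eventually.of_forall fun x =>
            Finset.sum_nonneg fun k _ => Finset.sum_nonneg fun i _ => sq_nonneg _
        · exact (hAi.const_mul _).add (hBi.const_mul _)
        · exact Filter.Eventually.of_forall hpt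
    _ = (1 + η) * A + ((1 + 1 / η) * (C / ρ) ^ 2 * d) * B := by
        rw [integral_add (hAi.const_mul _) (hBi.const_mul _), integral_const_mul,
          integral_const_mul]
    _ = A + η * A + K / ρ ^ 2 := by
        rw [hK, div_pow]; ring
    _ ≤ A + ε := by linarith

end LTd
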