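import Pool.Agent.Helper717.LT.Defs

set_option autoImplicit false

open MeasureTheory Set Filter Topology Real
open scoped Matrix

namespace LTd



theorem bco_cc_pos {g : ℝ} (hg : 1 < g) : 0 < cc g :=
  div_pos (Real.rpow_pos_of_pos (by linarith) _) (Real.rpow_pos_of_pos (by linarith) _)

theorem bco_pos {h g a : ℝ} (hh : 0 ≤ h) (hg : 1 < g) (ha : 0 < a) : 0 < bco h g a := by
  unfold bco JJ
  have h1 : 0 < cc (g + h) := bco_cc_pos (by linarith)
  have h2 : 0 < cc g := bco_cc_pos hg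
  have h3 : 0 < Gamma (g + 1 + h) := Real.Gamma_pos_of_pos (by linarith)
  have h4 : 0 < Gamma (g + 1) := Real.Gamma_pos_of_pos (by linarith)
  have h5 : 0 < (4 * π) ^ h := Real.rpow_pos_of_pos (by positivity) _
  have h6 : 0 < a ^ (g - 1) := Real.rpow_pos_of_pos ha _
  exact Real.rpow_pos_of_pos (mul_pos (div_pos (mul_pos (mul_pos h1 h5) h3) (mul_pos h2 h4)) h6) _

end LTd
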