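import Pool.Agent.Helper717.LT.Defs

set_option autoImplicit false

open MeasureTheory Set Filter Topology Real
open scoped Matrix

namespace LTd



theorem bco_succ_cc_pos {g : ℝ} (hg : 1 < g) : 0 < cc g := by
  unfold cc
  have h1 : 0 < g - 1 := by linarith
  have h2 : 0 < g := by linarith
  positivity

theorem bco_succ_JJ_pos {h g : ℝ} (hh : 0 ≤ h) (hg : 1 < g) : 0 < JJ h g := by
  unfold JJ
  have h1 := bco_succ_cc_pos hg
  have h2 : 0 < cc (g + h) := bco_succ_cc_pos (by linarith)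
  have h3 : 0 < Gamma (g + 1 + h) := Gamma_pos_of_pos (by linarith)
  have h4 : 0 < Gamma (g + 1) := Gamma_pos_of_pos (by linarith)
  positivity

theorem bco_succ (m : ℕ) {g a : ℝ} (hg : 3 / 2 ≤ g) (ha : 0 < a) :
    bco (m / 2) (g + 1 / 2) (bco (1 / 2) g a) = bco (((m + 1 : ℕ) : ℝ) / 2) g a := by
  have hJ : JJ ((m : ℝ) / 2) (g + 1 / 2) * JJ (1 / 2) g = JJ (((m + 1 : ℕ) : ℝ) / 2) g := by
    unfold JJ
    have h1 : 0 < cc (g + 1 / 2) := bco_succ_cc_pos (by linarith)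
    have h2 : 0 < Gamma (g + 1 + 1 / 2) := Gamma_pos_of_pos (by linarith)
    have h3 : 0 < cc g := bco_succ_cc_pos (by linarith)
    have h4 : 0 < Gamma (g + 1) := Gamma_pos_of_pos (by linarith)
    have e1 : g + 1 / 2 + (m : ℝ) / 2 = g + ((m + 1 : ℕ) : ℝ) / 2 := by push_cast; ring
    have e2 : g + 1 / 2 + 1 + (m : ℝ) / 2 = g + 1 + ((m + 1 : ℕ) : ℝ) / 2 := by push_cast; ring
    have e3 : g + 1 / 2 + 1 = g + 1 + 1 / 2 := by ring
    have e4 : (4 * π) ^ (((m + 1 : ℕ) : ℝ) / 2) = (4 * π) ^ ((m : ℝ) / 2) * (4 * π) ^ ((1 : ℝ) / 2) := by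
      rw [← Real.rpow_add (by positivity)]
      congr 1
      push_cast; ring
    rw [e1, e2, e3, e4]
    generalize cc (g + 1 / 2) = c2 at *
    generalize Gamma (g + 1 + 1 / 2) = c3 at *
    generalize cc g = c4 at *
    generalize Gamma (g + 1) = c5 at *
    generalize cc (g + ((m + 1 : ℕ) : ℝ) / 2) = c6 at *
    generalize Gamma (g + 1 + ((m + 1 : ℕ) : ℝ) / 2) = c7 at *
    field_simp
  have hX : 0 < JJ (1 / 2) g * a ^ (g - 1) :=
    mul_pos (bco_succ_JJ_pos (by norm_num) (by linarith)) (Real.rpow_pos_of_pos ha _)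
  unfold bco
  have e : ((JJ (1 / 2) g * a ^ (g - 1)) ^ (1 / (g + 1 / 2 - 1))) ^ (g + 1 / 2 - 1) =
      JJ (1 / 2) g * a ^ (g - 1) := by
    rw [← Real.rpow_mul hX.le, one_div_mul_cancel (by linarith), Real.rpow_one]
  rw [e, ← mul_assoc, hJ]
  congr 2
  push_cast
  ring

end LTd
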