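import Pool.Agent.Helper717.LT.Defs
import Pool.Agent.Helper717.LT.P_blockB
import Pool.Agent.Helper717.LT.P_congr_sys
import Pool.Agent.Helper717.LT.P_congr_tot

set_option autoImplicit false

open MeasureTheory Set Filter Topology Real
open scoped Matrix

namespace LTd



theorem bco_half {a : ℝ} (ha : 0 < a) :
    bco (1 / 2) (3 / 2) a = 4 / 3 * √(27 * a / 4) := by
  have hG3 : Gamma ((3:ℝ) / 2 + 1 + 1 / 2) = 2 := by
    rw [show (3:ℝ) / 2 + 1 + 1 / 2 = (2:ℕ) + 1 by norm_num, Real.Gamma_nat_eq_factorial]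
    norm_num [Nat.factorial]
  have hG52 : Gamma ((3:ℝ) / 2 + 1) = 3 * √π / 4 := by
    rw [Real.Gamma_add_one (by norm_num), show (3:ℝ) / 2 = 1 / 2 + 1 by norm_num,
      Real.Gamma_add_one (by norm_num), Real.Gamma_one_half_eq]
    ring
  have hcc2 : cc ((3:ℝ) / 2 + 1 / 2) = 1 / 4 := by
    unfold cc
    rw [show (3:ℝ) / 2 + 1 / 2 = 2 by norm_num, show (2:ℝ) - 1 = 1 by norm_num, Real.rpow_one,
      Real.rpow_two]
    norm_num
  have hcc32 : cc ((3:ℝ) / 2) = 2 / (3 * √3) := by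
    unfold cc
    rw [show (3:ℝ) / 2 - 1 = 1 / 2 by norm_num]
    have h1 : ((3:ℝ) / 2) ^ ((3:ℝ) / 2) = 3 / 2 * √(3 / 2) := by
      rw [show (3:ℝ) / 2 = 1 + 1 / 2 by norm_num, Real.rpow_add (by norm_num), Real.rpow_one,
        ← Real.sqrt_eq_rpow]
    rw [h1, ← Real.sqrt_eq_rpow]
    have h2 : √((1:ℝ) / 2) = 1 / √2 := by
      rw [Real.sqrt_div (by norm_num), Real.sqrt_one]
    have h3 : √((3:ℝ) / 2) = √3 / √2 := by
      rw [Real.sqrt_div (by norm_num)]
    rw [h2, h3]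
    have h4 : √(2:ℝ) ≠ 0 := by positivity
    have h5 : √(3:ℝ) ≠ 0 := by positivity
    field_simp
  have hJJ : JJ (1 / 2) (3 / 2) = 2 * √3 := by
    unfold JJ
    rw [hG3, hG52, hcc2, hcc32, ← Real.sqrt_eq_rpow]
    have h1 : √(4 * π) = 2 * √π := by
      rw [Real.sqrt_mul (by norm_num), show (4:ℝ) = 2 ^ 2 by norm_num, Real.sqrt_sq (by norm_num)]
    rw [h1]
    have h4 : √π ≠ 0 := by positivity
    have h5 : √(3:ℝ) ≠ 0 := by positivity
    field_simp
  unfold bco
  rw [hJJ, show (3:ℝ) / 2 - 1 = 1 / 2 by norm_num, show 1 / ((3:ℝ) / 2 + 1 / 2 - 1) = 1 by norm_num,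
    Real.rpow_one, ← Real.sqrt_eq_rpow]
  have h1 : √(27 * a / 4) = 3 / 2 * (√3 * √a) := by
    rw [← Real.sqrt_mul (by norm_num) a, show 27 * a / 4 = (3 / 2) ^ 2 * (3 * a) by ring,
      Real.sqrt_mul (by norm_num), Real.sqrt_sq (by norm_num)]
  rw [h1]
  ring

theorem blockC0 {n : ℕ} {R S Q : ℝ → Mat n} (h : Sys R S Q) (l : Fin n → ℝ)
    (hl : Tot R = Matrix.diagonal l) {a : ℝ} (ha : 0 < a) :
    ∃ G : ℝ → ℝ, Continuous G ∧ HasCompactSupport G ∧
      (∀ (x : ℝ) (V : Mat n) (r : Fin n → ℝ), V * Vᵀ = 1 → Vᵀ * V = 1 → (∀ i, 0 ≤ r i) →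
        R x = V * Matrix.diagonal r * Vᵀ →
          bco (1 / 2) (3 / 2) a * ∑ i, r i ^ pp (3 / 2 + 1 / 2) ≤ G x) ∧
      ∫ x, G x ≤ (∫ x, (Q x).trace) + a * ∑ i, l i ^ pp (3 / 2) := by
  obtain ⟨κ, hκ⟩ : ∃ κ, κ = √(27 * a / 4) := ⟨_, rfl⟩
  have hκ0 : 0 < κ := by rw [hκ]; positivity
  have hκ2 : κ ^ 2 = 27 * a / 4 := by rw [hκ]; exact Real.sq_sqrt (by positivity)
  have hsq : √κ * √κ = κ := Real.mul_self_sqrt hκ0.le
  have hscale : ∀ M : Mat n, (√κ • (1 : Mat n)) * M * (√κ • (1 : Mat n))ᵀ = κ • M := by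
    intro M
    rw [Matrix.transpose_smul, Matrix.transpose_one, Matrix.smul_mul, Matrix.one_mul,
      Matrix.mul_smul, Matrix.mul_one, smul_smul, hsq]
  have hB := blockB (congr_sys h (√κ • (1 : Mat n)))
  rw [congr_tot h] at hB
  simp only [hscale] at hB
  have h1 : ∀ x, ((κ • R x) * (κ • R x)).trace = κ ^ 2 * (R x * R x).trace := by
    intro x
    rw [Matrix.smul_mul, Matrix.mul_smul, Matrix.trace_smul, Matrix.trace_smul, smul_eq_mul,
      smul_eq_mul]
    ring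
  have h2 : ∀ x, (κ • Q x).trace = κ * (Q x).trace := by
    intro x
    rw [Matrix.trace_smul, smul_eq_mul]
  have h3 : ((κ • Tot R) * (κ • Tot R) * (κ • Tot R)).trace = κ ^ 3 * (Tot R * Tot R * Tot R).trace := by
    simp only [Matrix.smul_mul, Matrix.mul_smul, Matrix.trace_smul, smul_eq_mul]
    ring
  simp only [h1, h2, h3] at hB
  rw [integral_const_mul, integral_const_mul] at hB
  have h4 : (Tot R * Tot R * Tot R).trace = ∑ i, l i ^ 3 := by
    rw [hl, Matrix.diagonal_mul_diagonal, Matrix.diagonal_mul_diagonal, Matrix.trace_diagonal]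
    refine Finset.sum_congr rfl fun i _ => ?_
    ring
  rw [h4] at hB
  have hpp2 : pp ((3:ℝ) / 2 + 1 / 2) = ((2:ℕ) : ℝ) := by unfold pp; norm_num
  have hpp3 : pp ((3:ℝ) / 2) = ((3:ℕ) : ℝ) := by unfold pp; norm_num
  have hRc : ∀ i j, Continuous fun x => R x i j := fun i j =>
    continuous_iff_continuousAt.2 fun x => (h.der x i j).continuousAt
  refine ⟨fun x => 4 / 3 * κ * (R x * R x).trace, ?_, ?_, ?_, ?_⟩
  · refine continuous_const.mul ?_
    simp only [Matrix.trace, Matrix.diag_apply, Matrix.mul_apply]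
    exact continuous_finsetSum _ fun i _ => continuous_finsetSum _ fun j _ => (hRc i j).mul (hRc j i)
  · obtain ⟨M, hM⟩ := h.supp
    refine HasCompactSupport.intro (K := Set.Icc (-M) M) isCompact_Icc ?_
    intro x hx
    have h5 : M < |x| := by
      by_contra hcon
      push Not at hcon
      exact hx (Set.mem_Icc.2 (abs_le.1 hcon))
    show 4 / 3 * κ * (R x * R x).trace = 0
    rw [(hM x h5).1]
    simp
  · intro x V r hV1 hV2 hr hRx
    rw [bco_half ha, hpp2, ← hκ]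
    simp only [Real.rpow_natCast]
    have h5 : (R x * R x).trace = ∑ i, r i ^ 2 := by
      rw [hRx]
      have h6 : V * Matrix.diagonal r * Vᵀ * (V * Matrix.diagonal r * Vᵀ) =
          V * (Matrix.diagonal r * Matrix.diagonal r) * Vᵀ := by
        calc V * Matrix.diagonal r * Vᵀ * (V * Matrix.diagonal r * Vᵀ) =
            V * Matrix.diagonal r * (Vᵀ * V) * Matrix.diagonal r * Vᵀ := by
              simp only [Matrix.mul_assoc]
          _ = _ := by rw [hV2, Matrix.mul_one]; simp only [Matrix.mul_assoc]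
      rw [h6, Matrix.trace_mul_comm, ← Matrix.mul_assoc, hV2, Matrix.one_mul,
        Matrix.diagonal_mul_diagonal, Matrix.trace_diagonal]
      refine Finset.sum_congr rfl fun i _ => ?_
      ring
    rw [h5]
  · rw [integral_const_mul, hpp3]
    simp only [Real.rpow_natCast]
    have h5 : κ * (4 / 3 * κ * ∫ x, (R x * R x).trace) ≤
        κ * ((∫ x, (Q x).trace) + a * ∑ i, l i ^ 3) := by
      have h6 : κ ^ 3 = κ * (27 * a / 4) := by rw [← hκ2]; ring
      rw [h6] at hB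
      calc κ * (4 / 3 * κ * ∫ x, (R x * R x).trace) = 4 / 3 * (κ ^ 2 * ∫ x, (R x * R x).trace) := by
            ring
        _ ≤ _ := hB
        _ = _ := by ring
    exact le_of_mul_le_mul_left h5 hκ0

end LTd
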