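import Pool.Agent.Helper717.LT.Defs
import Pool.Agent.Helper717.LT.P_C_energy
import Pool.Agent.Helper717.LT.P_C_point
import Pool.Agent.Helper717.LT.P_C_integrated
import Pool.Agent.Helper717.LT.P_tot_zero

set_option autoImplicit false

open MeasureTheory Set Filter Topology Real
open scoped Matrix

namespace LTd



theorem blockC1 {n : ℕ} {R S Q : ℝ → Mat n} (h : Sys R S Q) (l : Fin n → ℝ)
    (hl : Tot R = Matrix.diagonal l) {g : ℝ} (hg : 3 / 2 < g) :
    ∃ G : ℝ → ℝ, Continuous G ∧ HasCompactSupport G ∧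
      (∀ (x : ℝ) (V : Mat n) (r : Fin n → ℝ), V * Vᵀ = 1 → Vᵀ * V = 1 → (∀ i, 0 ≤ r i) →
        R x = V * Matrix.diagonal r * Vᵀ → b0C g * ∑ i, r i ^ pp (g + 1 / 2) ≤ G x) ∧
      ∫ x, G x ≤ (∫ x, (Q x).trace) + a0C g * ∑ i, l i ^ pp g := by
  obtain ⟨hl0, hz⟩ := tot_zero h l hl
  have hRc : ∀ i j, Continuous fun x => R x i j := fun i j =>
    continuous_iff_continuousAt.2 fun x => (h.der x i j).continuousAt
  obtain ⟨M, hM⟩ := h.supp
  have hout : ∀ x, x ∉ Icc (-M) M → R x = 0 := by
    intro x hx
    refine (hM x ?_).1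
    by_contra hcon
    push Not at hcon
    exact hx (abs_le.1 hcon)
  have hRs : ∀ i j, HasCompactSupport fun x => R x i j := fun i j =>
    HasCompactSupport.intro (isCompact_Icc (a := -M) (b := M)) fun x hx => by
      rw [hout x hx]; rfl
  have hRi : ∀ i j, Integrable fun x => R x i j := fun i j =>
    (hRc i j).integrable_of_hasCompactSupport (hRs i j)
  have hR2i : ∀ i j, Integrable fun x => R x i j ^ 2 := fun i j =>
    ((hRc i j).pow 2).integrable_of_hasCompactSupport
      (HasCompactSupport.intro (isCompact_Icc (a := -M) (b := M)) fun x hx => by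
        show R x i j ^ 2 = 0
        rw [hout x hx]
        show (0 : ℝ) ^ 2 = 0
        norm_num)
  refine ⟨fun x => 4 / 3 * (∑ i, ∑ j, kap g (l i) (l j) * R x i j ^ 2) +
    ∑ i, muC g (l i) * R x i i, ?_, ?_, ?_, ?_⟩
  · fun_prop
  · refine HasCompactSupport.intro (isCompact_Icc (a := -M) (b := M)) fun x hx => ?_
    rw [hout x hx]
    simp
  · intro x V r hV hV' hr hR
    exact C_point hg l hl0 (R x) V r hV hV' hr hR fun i j h0 => hz i h0 x j
  · have e1 : (∫ x, (4 / 3 * (∑ i, ∑ j, kap g (l i) (l j) * R x i j ^ 2) +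
        ∑ i, muC g (l i) * R x i i)) =
        4 / 3 * (∑ i, ∑ j, kap g (l i) (l j) * ∫ x, R x i j ^ 2) +
          ∑ i, muC g (l i) * ∫ x, R x i i := by
      have i1 : Integrable (fun x => 4 / 3 * (∑ i, ∑ j, kap g (l i) (l j) * R x i j ^ 2)) :=
        (integrable_finsetSum _ fun i _ => integrable_finsetSum _ fun j _ =>
          (hR2i i j).const_mul _).const_mul _
      have i2 : Integrable (fun x => ∑ i, muC g (l i) * R x i i) :=
        integrable_finsetSum _ fun i _ => (hRi i i).const_mul _
      rw [integral_add i1 i2, integral_const_mul, integral_finsetSum _ fun i _ =>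
        integrable_finsetSum _ fun j _ => (hR2i i j).const_mul _,
        integral_finsetSum _ fun i _ => (hRi i i).const_mul _]
      congr 1
      · congr 1
        refine Finset.sum_congr rfl fun i _ => ?_
        rw [integral_finsetSum _ fun j _ => (hR2i i j).const_mul _]
        exact Finset.sum_congr rfl fun j _ => integral_const_mul _ _
      · exact Finset.sum_congr rfl fun i _ => integral_const_mul _ _
    have e2 : ∀ i, ∫ x, R x i i = l i := by
      intro i
      have h1 : Tot R i i = l i := by rw [hl, Matrix.diagonal_apply_eq]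
      exact h1
    rw [e1]
    have e3 := C_integrated h l hl hg
    have e4 : ∑ i, muC g (l i) * ∫ x, R x i i = ∑ i, l i * muC g (l i) := by
      refine Finset.sum_congr rfl fun i _ => ?_
      rw [e2 i, mul_comm]
    have e5 : ∑ i, l i * muC g (l i) + 4 / 27 * ∑ i, nuC g (l i) =
        a0C g * ∑ i, l i ^ pp g := by
      rw [Finset.mul_sum, Finset.mul_sum, ← Finset.sum_add_distrib]
      exact Finset.sum_congr rfl fun i _ => C_energy hg (hl0 i)
    rw [e4]
    linarith

end LTd
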