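import Pool.Agent.Helper717.LT.Defs
import Pool.Agent.Helper717.LT.P_congr_sys
import Pool.Agent.Helper717.LT.P_congr_tot
import Pool.Agent.Helper717.LT.P_C_const
import Pool.Agent.Helper717.LT.P_blockC1
import Pool.Agent.Helper717.LT.P_blockC0

set_option autoImplicit false

open MeasureTheory Set Filter Topology Real
open scoped Matrix

namespace LTd



theorem blockC_conj {n : ℕ} {κ : ℝ} (hκ : 0 ≤ κ) (M : Mat n) :
    (√κ • (1 : Mat n)) * M * (√κ • (1 : Mat n))ᵀ = κ • M := by
  rw [Matrix.transpose_smul, Matrix.transpose_one, smul_mul_assoc, one_mul, mul_smul_comm, mul_one, smul_smul,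
    Real.mul_self_sqrt hκ]

theorem blockC_diag_nonneg {n : ℕ} {R S Q : ℝ → Mat n} (h : Sys R S Q) (x : ℝ) (i : Fin n) : 0 ≤ R x i i := by
  have h1 := h.key x 0 (Matrix.diagonal (Pi.single i 1))
  have h2 : (Matrix.diagonal (Pi.single i (1:ℝ)) * R x * (Matrix.diagonal (Pi.single i (1:ℝ)))ᵀ).trace = R x i i := by
    rw [Matrix.diagonal_transpose, Matrix.trace]
    simp only [Matrix.diag_apply, Matrix.mul_diagonal, Matrix.diagonal_mul]
    rw [Finset.sum_eq_single i]
    · simp
    · intro j _ hj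
      simp [Pi.single_apply, hj]
    · simp
  rw [h2] at h1
  simpa using h1

theorem blockC_consts {g a : ℝ} (hg : 3 / 2 < g) (ha : 0 < a) : ∃ κ : ℝ, 0 < κ ∧
    a0C g * κ ^ (pp g - 1) = a ∧ b0C g * κ ^ (pp (g + 1 / 2) - 1) = bco (1 / 2) g a := by
  have hg1 : 0 < g - 1 := by linarith
  have hLam : 0 < LamC g := by
    unfold LamC
    have h1 : 0 < Gamma (g - 3 / 2) := Real.Gamma_pos_of_pos (by linarith)
    have h2 : 0 < Gamma (3 / 2 : ℝ) := Real.Gamma_pos_of_pos (by norm_num)
    have h3 : 0 < Gamma g := Real.Gamma_pos_of_pos (by linarith)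
    positivity
  have ha0 : 0 < a0C g := by
    unfold a0C
    have h1 : 0 < 1 - 1 / g := by
      rw [sub_pos, div_lt_one (by linarith)]; linarith
    positivity
  have hcc : ∀ t : ℝ, 1 < t → 0 < cc t := by
    intro t ht
    unfold cc
    have h1 : 0 < t - 1 := by linarith
    have h2 : 0 < t := by linarith
    positivity
  have hJJ : 0 < JJ (1 / 2) g := by
    unfold JJ
    have h1 := hcc (g + 1 / 2) (by linarith)
    have h2 := hcc g (by linarith)
    have h3 : 0 < Gamma (g + 1 + 1 / 2) := Real.Gamma_pos_of_pos (by linarith)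
    have h4 : 0 < Gamma (g + 1) := Real.Gamma_pos_of_pos (by linarith)
    have h5 := Real.pi_pos
    positivity
  have hq : 0 < a / a0C g := by positivity
  refine ⟨(a / a0C g) ^ (g - 1), by positivity, ?_, ?_⟩
  · have e1 : (g - 1) * (pp g - 1) = 1 := by
      unfold pp; field_simp; ring
    rw [← Real.rpow_mul hq.le, e1, Real.rpow_one]
    field_simp
  · rw [← C_const hg]
    have e0 : ∀ x : ℝ, x - 1 ≠ 0 → pp x - 1 = 1 / (x - 1) := by
      intro x hx
      unfold pp
      field_simp
      ring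
    have e1 : pp (g + 1 / 2) - 1 = 1 / (g + 1 / 2 - 1) := e0 _ (by linarith)
    rw [e1]
    unfold bco
    rw [← Real.mul_rpow (by positivity) (by positivity)]
    congr 1
    rw [Real.div_rpow ha.le ha0.le]
    have : 0 < a0C g ^ (g - 1) := by positivity
    field_simp

theorem blockC {n : ℕ} {R S Q : ℝ → Mat n} (h : Sys R S Q) (l : Fin n → ℝ)
    (hl : Tot R = Matrix.diagonal l) {g a : ℝ} (hg : 3 / 2 ≤ g) (ha : 0 < a) :
    ∃ G : ℝ → ℝ, Continuous G ∧ HasCompactSupport G ∧
      (∀ (x : ℝ) (V : Mat n) (r : Fin n → ℝ), V * Vᵀ = 1 → Vᵀ * V = 1 → (∀ i, 0 ≤ r i) →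
        R x = V * Matrix.diagonal r * Vᵀ →
          bco (1 / 2) g a * ∑ i, r i ^ pp (g + 1 / 2) ≤ G x) ∧
      ∫ x, G x ≤ (∫ x, (Q x).trace) + a * ∑ i, l i ^ pp g := by
  rcases hg.eq_or_lt with h0 | hg'
  · subst h0
    exact blockC0 h l hl ha
  · obtain ⟨κ, hκ, hκa, hκb⟩ := blockC_consts hg' ha
    have hl0 : ∀ i, 0 ≤ l i := by
      intro i
      have h1 : Tot R i i = l i := by rw [hl, Matrix.diagonal_apply_eq]
      rw [← h1]
      exact integral_nonneg fun x => blockC_diag_nonneg h x i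
    have hsys := congr_sys h (√κ • (1 : Mat n))
    have htot := congr_tot h (√κ • (1 : Mat n))
    simp only [blockC_conj hκ.le] at hsys htot
    rw [hl] at htot
    have htot' : Tot (fun x => κ • R x) = Matrix.diagonal (fun i => κ * l i) := by
      rw [htot]
      ext i j
      by_cases hij : i = j
      · subst hij; simp
      · simp [hij]
    obtain ⟨G, hG1, hG2, hG3, hG4⟩ := blockC1 hsys (fun i => κ * l i) htot' hg'
    refine ⟨fun x => κ⁻¹ * G x, continuous_const.mul hG1, hG2.mul_left, ?_, ?_⟩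
    · intro x V r hV1 hV2 hr hR
      have h1 := hG3 x V (fun i => κ * r i) hV1 hV2 (fun i => mul_nonneg hκ.le (hr i)) (by
        rw [hR]
        have : Matrix.diagonal (fun i => κ * r i) = κ • Matrix.diagonal r := by
          ext i j
          by_cases hij : i = j
          · subst hij; simp
          · simp [hij]
        rw [this, mul_smul_comm, smul_mul_assoc])
      have h2 : ∀ i, (κ * r i) ^ pp (g + 1 / 2) = κ ^ pp (g + 1 / 2) * r i ^ pp (g + 1 / 2) :=
        fun i => Real.mul_rpow hκ.le (hr i)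
      simp only [h2, ← Finset.mul_sum] at h1
      rw [← hκb, le_inv_mul_iff₀ hκ]
      refine le_trans (le_of_eq ?_) h1
      have h3 : κ ^ pp (g + 1 / 2) = κ * κ ^ (pp (g + 1 / 2) - 1) := by
        rw [Real.rpow_sub_one hκ.ne']
        field_simp
      rw [h3]
      ring
    · rw [integral_const_mul]
      have h2 : ∀ i, (κ * l i) ^ pp g = κ ^ pp g * l i ^ pp g := fun i => Real.mul_rpow hκ.le (hl0 i)
      simp only [h2, ← Finset.mul_sum, Matrix.trace_smul, smul_eq_mul, integral_const_mul] at hG4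
      rw [inv_mul_le_iff₀ hκ]
      refine hG4.trans (le_of_eq ?_)
      have h3 : κ ^ pp g = κ * κ ^ (pp g - 1) := by
        rw [Real.rpow_sub_one hκ.ne']
        field_simp
      rw [h3]
      conv_rhs => rw [← hκa]
      ring

end LTd
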