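import Pool.Agent.Helper717.LT.Defs

set_option autoImplicit false

open MeasureTheory Set Filter Topology Real
open scoped Matrix

namespace LTd



theorem pd_basic {m : ℕ} {f : (Fin m → ℝ) → ℝ} (hf : ContDiff ℝ 1 f)
    (hc : HasCompactSupport f) (k : Fin m) :
    Continuous (pd k f) ∧ HasCompactSupport (pd k f) := by
  have h1 : Continuous (fderiv ℝ f) := hf.continuous_fderiv (by norm_num)
  refine ⟨?_, ?_⟩
  · exact h1.clm_apply continuous_const
  · have h2 : HasCompactSupport (fderiv ℝ f) := hc.fderiv (𝕜 := ℝ)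
    exact h2.comp_left (g := fun L : (Fin m → ℝ) →L[ℝ] ℝ => L (Pi.single k 1)) (by simp)

end LTd
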