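import Pool.Agent.Helper717.LT.Defs

set_option autoImplicit false

open MeasureTheory Set Filter Topology Real
open scoped Matrix

namespace LTd



theorem slice_cont {m : ℕ} {f : (Fin (m + 1) → ℝ) → ℝ} (hf : Continuous f)
    (hc : HasCompactSupport f) :
    Continuous (fun x : ℝ => ∫ y : Fin m → ℝ, f (Fin.cons x y : Fin (m + 1) → ℝ)) ∧
    (∀ x : ℝ, Continuous fun y : Fin m → ℝ => f (Fin.cons x y : Fin (m + 1) → ℝ)) ∧
    (∀ x : ℝ, HasCompactSupport fun y : Fin m → ℝ => f (Fin.cons x y : Fin (m + 1) → ℝ)) ∧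
    ∃ M : ℝ, ∀ x : ℝ, M < |x| → ∀ y : Fin m → ℝ, f (Fin.cons x y : Fin (m + 1) → ℝ) = 0 := by
  have hcons : Continuous fun p : ℝ × (Fin m → ℝ) => (Fin.cons p.1 p.2 : Fin (m + 1) → ℝ) := by
    refine continuous_pi fun i => ?_
    refine Fin.cases ?_ (fun j => ?_) i
    · exact continuous_fst
    · exact (continuous_apply j).comp continuous_snd
  have hF : Continuous fun p : ℝ × (Fin m → ℝ) => f (Fin.cons p.1 p.2 : Fin (m + 1) → ℝ) :=
    hf.comp hcons
  obtain ⟨M, hM⟩ := hc.isCompact.isBounded.subset_closedBall 0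
  have hz : ∀ z : Fin (m + 1) → ℝ, M < ‖z‖ → f z = 0 := by
    intro z hz
    by_contra h
    have h1 := hM (subset_tsupport f h)
    rw [mem_closedBall_zero_iff] at h1
    linarith
  have h0 : ∀ (x : ℝ) (y : Fin m → ℝ), M < |x| → f (Fin.cons x y : Fin (m + 1) → ℝ) = 0 := by
    intro x y hx
    refine hz _ (hx.trans_le ?_)
    have h1 := norm_le_pi_norm (Fin.cons x y : Fin (m + 1) → ℝ) 0
    rwa [Fin.cons_zero, Real.norm_eq_abs] at h1
  have h1 : ∀ (x : ℝ) (y : Fin m → ℝ), y ∉ Metric.closedBall (0 : Fin m → ℝ) M →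
      f (Fin.cons x y : Fin (m + 1) → ℝ) = 0 := by
    intro x y hy
    rw [mem_closedBall_zero_iff, not_le] at hy
    refine hz _ (hy.trans_le ?_)
    refine (pi_norm_le_iff_of_nonneg (norm_nonneg _)).2 fun j => ?_
    have h1 := norm_le_pi_norm (Fin.cons x y : Fin (m + 1) → ℝ) j.succ
    rwa [Fin.cons_succ] at h1
  refine ⟨?_, ?_, ?_, M, ?_⟩
  · have h2 : (fun x : ℝ => ∫ y : Fin m → ℝ, f (Fin.cons x y : Fin (m + 1) → ℝ)) =
        fun x : ℝ => ∫ y in Metric.closedBall (0 : Fin m → ℝ) M,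
          f (Fin.cons x y : Fin (m + 1) → ℝ) := by
      funext x
      exact (setIntegral_eq_integral_of_forall_compl_eq_zero fun y hy => h1 x y hy).symm
    rw [h2]
    exact continuous_parametric_integral_of_continuous
      (f := fun (x : ℝ) (y : Fin m → ℝ) => f (Fin.cons x y : Fin (m + 1) → ℝ)) hF
      (isCompact_closedBall 0 M)
  · intro x
    exact hF.comp (Continuous.prodMk_right x)
  · intro x
    exact HasCompactSupport.intro (isCompact_closedBall 0 M) fun y hy => h1 x y hy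
  · intro x hx y
    exact h0 x y hx

end LTd
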