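import Pool.Agent.Helper717.LT.Defs

set_option autoImplicit false

open MeasureTheory Set Filter Topology Real
open scoped Matrix

namespace LTd



theorem slice_int {m : ℕ} {f : (Fin (m + 1) → ℝ) → ℝ} (hf : Continuous f)
    (hc : HasCompactSupport f) :
    ∫ z, f z = ∫ x : ℝ, ∫ y : Fin m → ℝ, f (Fin.cons x y : Fin (m + 1) → ℝ) := by
  have h := (volume_preserving_piFinSuccAbove (fun _ : Fin (m + 1) => ℝ) 0).symm
  have hi : Integrable f := hf.integrable_of_hasCompactSupport hc
  rw [← h.integral_comp' f]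
  have hi2 : Integrable (fun p : ℝ × (Fin m → ℝ) =>
      f ((MeasurableEquiv.piFinSuccAbove (fun _ : Fin (m + 1) => ℝ) 0).symm p)) :=
    (h.integrable_comp_emb (MeasurableEquiv.measurableEmbedding _)).2 hi
  rw [Measure.volume_eq_prod] at hi2 ⊢
  rw [integral_prod _ hi2]
  refine integral_congr_ae (ae_of_all _ fun x => integral_congr_ae (ae_of_all _ fun y => ?_))
  show f (Fin.insertNth 0 x y) = f (Fin.cons x y)
  rw [Fin.insertNth_zero']

end LTd
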