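import Pool.Agent.Helper717.LT.Defs

set_option autoImplicit false

open MeasureTheory Set Filter Topology Real
open scoped Matrix

namespace LTd



/-- derivative of `y ↦ cons x y` -/
noncomputable def spL (m : ℕ) : (Fin m → ℝ) →L[ℝ] (Fin (m + 1) → ℝ) :=
  ContinuousLinearMap.pi
    (fun j : Fin (m + 1) => Fin.cases (motive := fun _ => (Fin m → ℝ) →L[ℝ] ℝ) 0
      (fun k => ContinuousLinearMap.proj k) j)

theorem spL_hasFDerivAt {m : ℕ} (x : ℝ) (y : Fin m → ℝ) :
    HasFDerivAt (fun y : Fin m → ℝ => (Fin.cons x y : Fin (m + 1) → ℝ)) (spL m) y := by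
  rw [hasFDerivAt_pi']
  intro j
  refine Fin.cases ?_ (fun k => ?_) j
  · have h1 : (fun y : Fin m → ℝ => (Fin.cons x y : Fin (m + 1) → ℝ) 0) = fun _ => x := by
      ext y; simp
    have h2 : (ContinuousLinearMap.proj 0).comp (spL m) = (0 : (Fin m → ℝ) →L[ℝ] ℝ) := by
      ext v; simp [spL]
    rw [h1, h2]
    exact hasFDerivAt_const x y
  · have h1 : (fun y : Fin m → ℝ => (Fin.cons x y : Fin (m + 1) → ℝ) k.succ) = fun y => y k := by
      ext y; simp
    have h2 : (ContinuousLinearMap.proj k.succ).comp (spL m)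
        = (ContinuousLinearMap.proj k : (Fin m → ℝ) →L[ℝ] ℝ) := by
      ext v; simp [spL]
    rw [h1, h2]
    exact hasFDerivAt_apply k y

theorem spL_single {m : ℕ} (k : Fin m) :
    spL m (Pi.single k 1) = Pi.single k.succ 1 := by
  ext j
  refine Fin.cases ?_ (fun l => ?_) j
  · simp [spL]
  · simp [spL, Pi.single_apply]

theorem spL_contDiff {m : ℕ} (x : ℝ) :
    ContDiff ℝ 1 (fun y : Fin m → ℝ => (Fin.cons x y : Fin (m + 1) → ℝ)) := by
  rw [contDiff_pi]
  intro j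
  refine Fin.cases ?_ (fun k => ?_) j
  · have h1 : (fun y : Fin m → ℝ => (Fin.cons x y : Fin (m + 1) → ℝ) 0) = fun _ => x := by
      ext y; simp
    rw [h1]; exact contDiff_const
  · have h1 : (fun y : Fin m → ℝ => (Fin.cons x y : Fin (m + 1) → ℝ) k.succ) = fun y => y k := by
      ext y; simp
    rw [h1]; exact contDiff_apply ℝ ℝ k

theorem slice_pd {m : ℕ} {f : (Fin (m + 1) → ℝ) → ℝ} (hf : ContDiff ℝ 1 f) (x : ℝ) :
    (ContDiff ℝ 1 fun y : Fin m → ℝ => f (Fin.cons x y : Fin (m + 1) → ℝ)) ∧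
    ∀ (k : Fin m) (y : Fin m → ℝ), pd k (fun y : Fin m → ℝ => f (Fin.cons x y : Fin (m + 1) → ℝ)) y =
      pd k.succ f (Fin.cons x y : Fin (m + 1) → ℝ) := by
  refine ⟨hf.comp (spL_contDiff x), fun k y => ?_⟩
  have hd : DifferentiableAt ℝ f (Fin.cons x y : Fin (m + 1) → ℝ) :=
    (hf.differentiable (by norm_num)).differentiableAt
  have h1 : HasFDerivAt (fun y : Fin m → ℝ => f (Fin.cons x y : Fin (m + 1) → ℝ))
      ((fderiv ℝ f (Fin.cons x y : Fin (m + 1) → ℝ)).comp (spL m)) y :=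
    hd.hasFDerivAt.comp y (spL_hasFDerivAt x y)
  unfold pd
  rw [h1.fderiv, ContinuousLinearMap.comp_apply, spL_single]

end LTd
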