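import Pool.Agent.Helper717.LT.Defs
import Pool.Agent.Helper717.LT.P_slice_cont
import Pool.Agent.Helper717.LT.P_pd_basic

set_option autoImplicit false

open MeasureTheory Set Filter Topology Real
open scoped Matrix

namespace LTd



theorem slice_der {m : ℕ} {f : (Fin (m + 1) → ℝ) → ℝ} (hf : ContDiff ℝ 1 f)
    (hc : HasCompactSupport f) (x : ℝ) :
    HasDerivAt (fun x : ℝ => ∫ y : Fin m → ℝ, f (Fin.cons x y : Fin (m + 1) → ℝ))
      (∫ y : Fin m → ℝ, pd 0 f (Fin.cons x y : Fin (m + 1) → ℝ)) x := by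
  obtain ⟨hpc, hps⟩ := pd_basic hf hc (0 : Fin (m + 1))
  obtain ⟨-, hsl, hsc, -⟩ := slice_cont hf.continuous hc
  obtain ⟨-, hpl, -, -⟩ := slice_cont hpc hps
  obtain ⟨C, hC⟩ := hps.exists_bound_of_continuous hpc
  obtain ⟨R, hR⟩ := hps.isCompact.isBounded.subset_closedBall (0 : Fin (m + 1) → ℝ)
  have hC0 : 0 ≤ C := le_trans (norm_nonneg _) (hC 0)
  have hvan : ∀ (t : ℝ) (y : Fin m → ℝ), y ∉ Metric.closedBall (0 : Fin m → ℝ) R →
      pd 0 f (Fin.cons t y : Fin (m + 1) → ℝ) = 0 := by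
    intro t y hy
    by_contra hne
    apply hy
    have h1 : (Fin.cons t y : Fin (m + 1) → ℝ) ∈ Metric.closedBall (0 : Fin (m + 1) → ℝ) R :=
      hR (subset_tsupport _ hne)
    rw [mem_closedBall_zero_iff] at h1 ⊢
    have hR0 : 0 ≤ R := le_trans (norm_nonneg _) h1
    rw [pi_norm_le_iff_of_nonneg hR0] at h1 ⊢
    intro i
    have := h1 (Fin.succ i)
    simpa using this
  have hder : ∀ (y : Fin m → ℝ) (t : ℝ), HasDerivAt (fun t : ℝ => f (Fin.cons t y : Fin (m + 1) → ℝ))
      (pd 0 f (Fin.cons t y : Fin (m + 1) → ℝ)) t := by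
    intro y t
    have h1 : HasDerivAt (fun t : ℝ => (Fin.cons t y : Fin (m + 1) → ℝ))
        (Pi.single 0 1 : Fin (m + 1) → ℝ) t := by
      rw [hasDerivAt_pi]
      intro i
      refine Fin.cases ?_ (fun j => ?_) i
      · simpa using hasDerivAt_id' (𝕜 := ℝ) t
      · simpa using hasDerivAt_const t (y j)
    have h2 : HasFDerivAt f (fderiv ℝ f (Fin.cons t y : Fin (m + 1) → ℝ))
        (Fin.cons t y : Fin (m + 1) → ℝ) :=
      (hf.differentiable (by norm_num)).differentiableAt.hasFDerivAt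
    exact h2.comp_hasDerivAt t h1
  have key := hasDerivAt_integral_of_dominated_loc_of_deriv_le (μ := (volume : Measure (Fin m → ℝ)))
    (F := fun (t : ℝ) (y : Fin m → ℝ) => f (Fin.cons t y : Fin (m + 1) → ℝ))
    (F' := fun (t : ℝ) (y : Fin m → ℝ) => pd 0 f (Fin.cons t y : Fin (m + 1) → ℝ))
    (x₀ := x) (s := Set.univ)
    (bound := (Metric.closedBall (0 : Fin m → ℝ) R).indicator (fun _ => C))
    Filter.univ_mem
    (Filter.Eventually.of_forall fun t => (hsl t).aestronglyMeasurable)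
    ((hsl x).integrable_of_hasCompactSupport (hsc x))
    (hpl x).aestronglyMeasurable
    (Filter.Eventually.of_forall fun y t _ => ?_)
    ?_
    (Filter.Eventually.of_forall fun y t _ => hder y t)
  · exact key.2
  · by_cases hy : y ∈ Metric.closedBall (0 : Fin m → ℝ) R
    · rw [Set.indicator_of_mem hy]
      exact hC _
    · rw [Set.indicator_of_notMem hy]
      show ‖pd 0 f (Fin.cons t y : Fin (m + 1) → ℝ)‖ ≤ 0
      rw [hvan t y hy, norm_zero]
  · rw [integrable_indicator_iff measurableSet_closedBall]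
    exact integrableOn_const (measure_closedBall_lt_top.ne)

end LTd
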