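import Pool.Agent.Helper717.LT.Defs
import Pool.Agent.Helper717.LT.P_slice_cont
import Pool.Agent.Helper717.LT.P_slice_der
import Pool.Agent.Helper717.LT.P_pd_basic

set_option autoImplicit false

open MeasureTheory Set Filter Topology Real
open scoped Matrix

namespace LTd



theorem j14718_trace {α : Type*} [MeasurableSpace α] {μ : Measure α} {n : ℕ}
    (a b : Fin n → α → ℝ) (hint : ∀ i j, Integrable (fun y => a i y * b j y) μ) (X Y : Mat n) :
    (X * (Matrix.of fun i j => ∫ y, a i y * b j y ∂μ : Mat n) * Yᵀ).trace =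
      ∫ y, ∑ k, (∑ i, X k i * a i y) * (∑ j, Y k j * b j y) ∂μ ∧
    Integrable (fun y => ∑ k, (∑ i, X k i * a i y) * (∑ j, Y k j * b j y)) μ := by
  have e : (fun y => ∑ k, (∑ i, X k i * a i y) * (∑ j, Y k j * b j y)) =
      fun y => ∑ k, ∑ j, ∑ i, (X k i * Y k j) * (a i y * b j y) := by
    funext y
    refine Finset.sum_congr rfl fun k _ => ?_
    rw [Finset.mul_sum]
    refine Finset.sum_congr rfl fun j _ => ?_
    rw [Finset.sum_mul]
    refine Finset.sum_congr rfl fun i _ => ?_
    ring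
  have hI : ∀ k j i, Integrable (fun y => (X k i * Y k j) * (a i y * b j y)) μ := fun k j i =>
    (hint i j).const_mul _
  have hI2 : ∀ k j, Integrable (fun y => ∑ i, (X k i * Y k j) * (a i y * b j y)) μ := fun k j =>
    integrable_finsetSum _ fun i _ => hI k j i
  have hI3 : ∀ k, Integrable (fun y => ∑ j, ∑ i, (X k i * Y k j) * (a i y * b j y)) μ := fun k =>
    integrable_finsetSum _ fun j _ => hI2 k j
  constructor
  · rw [e, integral_finsetSum _ fun k _ => hI3 k]
    unfold Matrix.trace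
    refine Finset.sum_congr rfl fun k _ => ?_
    rw [integral_finsetSum _ fun j _ => hI2 k j, Matrix.diag_apply, Matrix.mul_apply]
    refine Finset.sum_congr rfl fun j _ => ?_
    rw [integral_finsetSum _ fun i _ => hI k j i, Matrix.mul_apply, Finset.sum_mul]
    refine Finset.sum_congr rfl fun i _ => ?_
    rw [integral_const_mul, Matrix.transpose_apply, Matrix.of_apply]
    ring
  · rw [e]
    exact integrable_finsetSum _ fun k _ => hI3 k

theorem j14718_int {m : ℕ} {f : (Fin (m + 1) → ℝ) → ℝ} (hf : Continuous f)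
    (hc : HasCompactSupport f) (x : ℝ) :
    Integrable (fun y : Fin m → ℝ => f (Fin.cons x y : Fin (m + 1) → ℝ)) := by
  obtain ⟨_, h2, h3, _⟩ := slice_cont hf hc
  exact (h2 x).integrable_of_hasCompactSupport (h3 x)

theorem slice_sys {m n : ℕ} (w : Fin n → (Fin (m + 1) → ℝ) → ℝ) (hw : ∀ i, ContDiff ℝ 1 (w i))
    (hc : ∀ i, HasCompactSupport (w i)) : Sys (RS w) (SS w) (QS w) := by
  have cw : ∀ i, Continuous (w i) := fun i => (hw i).continuous
  have cd : ∀ i, Continuous (pd 0 (w i)) := fun i => (pd_basic (hw i) (hc i) 0).1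
  have kd : ∀ i, HasCompactSupport (pd 0 (w i)) := fun i => (pd_basic (hw i) (hc i) 0).2
  have cR : ∀ i j, Continuous (fun z => w i z * w j z) := fun i j => (cw i).mul (cw j)
  have kR : ∀ i j, HasCompactSupport (fun z => w i z * w j z) := fun i j => (hc i).mul_right
  have cS : ∀ i j, Continuous (fun z => pd 0 (w i) z * w j z) := fun i j => (cd i).mul (cw j)
  have kS : ∀ i j, HasCompactSupport (fun z => pd 0 (w i) z * w j z) := fun i j =>
    (kd i).mul_right
  have cQ : ∀ i j, Continuous (fun z => pd 0 (w i) z * pd 0 (w j) z) := fun i j =>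
    (cd i).mul (cd j)
  have kQ : ∀ i j, HasCompactSupport (fun z => pd 0 (w i) z * pd 0 (w j) z) := fun i j =>
    (kd i).mul_right
  refine ⟨?_, ?_, ?_, ?_, ?_, ?_⟩
  · intro x i j
    show ∫ y : Fin m → ℝ, w i (Fin.cons x y : Fin (m + 1) → ℝ) *
        w j (Fin.cons x y : Fin (m + 1) → ℝ) =
      ∫ y : Fin m → ℝ, w j (Fin.cons x y : Fin (m + 1) → ℝ) *
        w i (Fin.cons x y : Fin (m + 1) → ℝ)
    refine integral_congr_ae (Eventually.of_forall fun y => ?_)
    exact mul_comm _ _
  · intro x i j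
    have h1 := slice_der ((hw i).mul (hw j)) ((hc i).mul_right (f' := w j)) x
    have h2 : ∀ z, pd 0 (w i * w j) z = pd 0 (w i) z * w j z + pd 0 (w j) z * w i z := by
      intro z
      unfold pd
      rw [fderiv_mul ((hw i).differentiable (by norm_num) z)
        ((hw j).differentiable (by norm_num) z)]
      simp only [add_apply, smul_apply, smul_eq_mul]
      ring
    have h3 : ∫ y : Fin m → ℝ, pd 0 (w i * w j) (Fin.cons x y : Fin (m + 1) → ℝ) =
        SS w x i j + SS w x j i := by
      have hA := j14718_int (cS i j) (kS i j) x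
      have hB := j14718_int (cS j i) (kS j i) x
      have h4 := integral_add hA hB
      rw [show SS w x i j + SS w x j i = _ from h4.symm]
      refine integral_congr_ae (Eventually.of_forall fun y => ?_)
      exact h2 _
    exact HasDerivAt.congr_deriv h1 h3
  · intro i j
    exact (slice_cont (cS i j) (kS i j)).1
  · intro i j
    exact (slice_cont (cQ i j) (kQ i j)).1
  · choose M hM using fun i => (slice_cont (cw i) (hc i)).2.2.2
    choose N hN using fun i => (slice_cont (cd i) (kd i)).2.2.2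
    refine ⟨∑ i, (|M i| + |N i|), fun x hx => ?_⟩
    have h1 : ∀ i, |M i| + |N i| < |x| := fun i =>
      lt_of_le_of_lt (Finset.single_le_sum (f := fun i => |M i| + |N i|)
        (fun j _ => by positivity) (Finset.mem_univ i)) hx
    have hw0 : ∀ i (y : Fin m → ℝ), w i (Fin.cons x y : Fin (m + 1) → ℝ) = 0 := fun i y =>
      hM i x (lt_of_le_of_lt (by have := le_abs_self (M i); have := abs_nonneg (N i); linarith)
        (h1 i)) y
    have hd0 : ∀ i (y : Fin m → ℝ), pd 0 (w i) (Fin.cons x y : Fin (m + 1) → ℝ) = 0 := fun i y =>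
      hN i x (lt_of_le_of_lt (by have := le_abs_self (N i); have := abs_nonneg (M i); linarith)
        (h1 i)) y
    refine ⟨?_, ?_, ?_⟩
    · ext i j
      show ∫ y : Fin m → ℝ, w i (Fin.cons x y : Fin (m + 1) → ℝ) *
        w j (Fin.cons x y : Fin (m + 1) → ℝ) = 0
      simp only [hw0, mul_zero, integral_zero]
    · ext i j
      show ∫ y : Fin m → ℝ, pd 0 (w i) (Fin.cons x y : Fin (m + 1) → ℝ) *
        w j (Fin.cons x y : Fin (m + 1) → ℝ) = 0
      simp only [hw0, mul_zero, integral_zero]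
    · ext i j
      show ∫ y : Fin m → ℝ, pd 0 (w i) (Fin.cons x y : Fin (m + 1) → ℝ) *
        pd 0 (w j) (Fin.cons x y : Fin (m + 1) → ℝ) = 0
      simp only [hd0, mul_zero, integral_zero]
  · intro x X Y
    have hQ := j14718_trace
      (fun i (y : Fin m → ℝ) => pd 0 (w i) (Fin.cons x y : Fin (m + 1) → ℝ))
      (fun i (y : Fin m → ℝ) => pd 0 (w i) (Fin.cons x y : Fin (m + 1) → ℝ))
      (μ := volume) (fun i j => j14718_int (cQ i j) (kQ i j) x) X X
    have hS := j14718_trace
      (fun i (y : Fin m → ℝ) => pd 0 (w i) (Fin.cons x y : Fin (m + 1) → ℝ))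
      (fun i (y : Fin m → ℝ) => w i (Fin.cons x y : Fin (m + 1) → ℝ))
      (μ := volume) (fun i j => j14718_int (cS i j) (kS i j) x) X Y
    have hR := j14718_trace
      (fun i (y : Fin m → ℝ) => w i (Fin.cons x y : Fin (m + 1) → ℝ))
      (fun i (y : Fin m → ℝ) => w i (Fin.cons x y : Fin (m + 1) → ℝ))
      (μ := volume) (fun i j => j14718_int (cR i j) (kR i j) x) Y Y
    unfold QS SS RS
    have hsub : Integrable (fun y : Fin m → ℝ =>
        (∑ k, (∑ i, X k i * pd 0 (w i) (Fin.cons x y : Fin (m + 1) → ℝ)) *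
          (∑ j, X k j * pd 0 (w j) (Fin.cons x y : Fin (m + 1) → ℝ))) -
        2 * ∑ k, (∑ i, X k i * pd 0 (w i) (Fin.cons x y : Fin (m + 1) → ℝ)) *
          (∑ j, Y k j * w j (Fin.cons x y : Fin (m + 1) → ℝ))) := hQ.2.sub (hS.2.const_mul 2)
    rw [hQ.1, hS.1, hR.1, ← integral_const_mul, ← integral_sub hQ.2 (hS.2.const_mul 2),
      ← integral_add hsub hR.2]
    refine integral_nonneg fun y => ?_
    show 0 ≤ (∑ k, (∑ i, X k i * pd 0 (w i) (Fin.cons x y : Fin (m + 1) → ℝ)) *
        (∑ i, X k i * pd 0 (w i) (Fin.cons x y : Fin (m + 1) → ℝ)) -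
      2 * ∑ k, (∑ i, X k i * pd 0 (w i) (Fin.cons x y : Fin (m + 1) → ℝ)) *
        (∑ i, Y k i * w i (Fin.cons x y : Fin (m + 1) → ℝ))) +
      ∑ k, (∑ i, Y k i * w i (Fin.cons x y : Fin (m + 1) → ℝ)) *
        (∑ i, Y k i * w i (Fin.cons x y : Fin (m + 1) → ℝ))
    rw [Finset.mul_sum, ← Finset.sum_sub_distrib, ← Finset.sum_add_distrib]
    refine Finset.sum_nonneg fun k _ => ?_
    nlinarith [sq_nonneg ((∑ i, X k i * pd 0 (w i) (Fin.cons x y : Fin (m + 1) → ℝ)) -
      (∑ i, Y k i * w i (Fin.cons x y : Fin (m + 1) → ℝ)))]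

end LTd
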