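import Pool.Agent.Helper717.LT.Defs
import Pool.Agent.Helper717.LT.P_specP
import Pool.Agent.Helper717.LT.P_sys_psd
import Pool.Agent.Helper717.LT.P_blockC
import Pool.Agent.Helper717.LT.P_slice_cont
import Pool.Agent.Helper717.LT.P_slice_int
import Pool.Agent.Helper717.LT.P_slice_pd
import Pool.Agent.Helper717.LT.P_pd_basic
import Pool.Agent.Helper717.LT.P_slice_sys
import Pool.Agent.Helper717.LT.P_bco_pos
import Pool.Agent.Helper717.LT.P_bco_succ
import Pool.Agent.Helper717.LT.P_T_slice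

set_option autoImplicit false

open MeasureTheory Set Filter Topology Real
open scoped Matrix

namespace LTd



theorem ts_slice_integrable {m : ℕ} {f : (Fin (m + 1) → ℝ) → ℝ} (hf : Continuous f)
    (hc : HasCompactSupport f) :
    Integrable (fun x : ℝ => ∫ y : Fin m → ℝ, f (Fin.cons x y : Fin (m + 1) → ℝ)) := by
  obtain ⟨h1, h2, h3, M, hM⟩ := slice_cont hf hc
  refine h1.integrable_of_hasCompactSupport ?_
  refine HasCompactSupport.intro (isCompact_Icc (a := -M) (b := M)) (fun x hx => ?_)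
  have hx' : M < |x| := by
    by_contra hcon
    exact hx (abs_le.1 (not_lt.1 hcon))
  simp only [hM x hx']
  simp

theorem T_succ {m : ℕ} {g : ℝ} (hg : 3 / 2 ≤ g) (hT : Tm m (g + 1 / 2)) : Tm (m + 1) g := by
  intro a ha n w l hw hc hgram
  have hwc : ∀ i, Continuous (w i) := fun i => (hw i).continuous
  have hm0 : (0 : ℝ) ≤ (m : ℝ) := Nat.cast_nonneg m
  have hsys := slice_sys w hw hc
  have hcw2 : ∀ i j, HasCompactSupport (fun z => w i z * w j z) := fun i j =>
    (hc i).mul_right (f' := w j)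
  have hTot : Tot (RS w) = Matrix.diagonal l := by
    ext i j
    have h1 : ∫ z, w i z * w j z = ∫ x : ℝ, ∫ y : Fin m → ℝ,
        w i (Fin.cons x y : Fin (m + 1) → ℝ) * w j (Fin.cons x y : Fin (m + 1) → ℝ) :=
      slice_int (f := fun z => w i z * w j z) ((hwc i).mul (hwc j)) (hcw2 i j)
    rw [hgram i j] at h1
    rw [Matrix.diagonal_apply]
    exact h1.symm
  obtain ⟨G, hGc, hGs, hG1, hG2⟩ := blockC hsys l hTot hg ha
  have ha' : 0 < bco (1 / 2) g a := bco_pos (by norm_num) (by linarith) ha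
  have hpd : ∀ (k : Fin (m + 1)) (i : Fin n), Continuous (pd k (w i)) ∧
      HasCompactSupport (pd k (w i)) := fun k i => pd_basic (hw i) (hc i) k
  have hsqc : ∀ (k : Fin (m + 1)) (i : Fin n), Continuous (fun z => pd k (w i) z ^ 2) :=
    fun k i => (hpd k i).1.pow 2
  have hsqs : ∀ (k : Fin (m + 1)) (i : Fin n), HasCompactSupport (fun z => pd k (w i) z ^ 2) :=
    fun k i => (hpd k i).2.comp_left (g := fun t : ℝ => t ^ 2) (by norm_num)
  have hsqi : ∀ (k : Fin (m + 1)) (i : Fin n), Integrable (fun z => pd k (w i) z ^ 2) :=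
    fun k i => (hsqc k i).integrable_of_hasCompactSupport (hsqs k i)
  -- the exponent
  have hpp : 0 < pp (g + 1 / 2 + m / 2) := by
    unfold pp
    apply div_pos <;> linarith
  have hexp : g + 1 / 2 + (m : ℝ) / 2 = g + ((m + 1 : ℕ) : ℝ) / 2 := by
    push_cast
    ring
  -- the density
  have hρc : Continuous (fun z => (∑ i, w i z ^ 2) ^ pp (g + 1 / 2 + m / 2)) :=
    (continuous_finsetSum _ fun i _ => (hwc i).pow 2).rpow_const (fun _ => Or.inr hpp.le)
  have hρs : HasCompactSupport (fun z => (∑ i, w i z ^ 2) ^ pp (g + 1 / 2 + m / 2)) := by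
    refine HasCompactSupport.intro (isCompact_iUnion (fun i => hc i)) (fun z hz => ?_)
    have h0 : ∀ i, w i z = 0 := fun i =>
      image_eq_zero_of_notMem_tsupport (fun h => hz (Set.mem_iUnion.2 ⟨i, h⟩))
    have h00 : ∑ i, w i z ^ 2 = 0 := by simp [h0]
    show (∑ i, w i z ^ 2) ^ pp (g + 1 / 2 + m / 2) = 0
    rw [h00, Real.zero_rpow hpp.ne']
  -- the gradient part
  have hDc : Continuous (fun z => ∑ k : Fin m, ∑ i, pd k.succ (w i) z ^ 2) :=
    continuous_finsetSum _ fun k _ => continuous_finsetSum _ fun i _ => hsqc k.succ i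
  have hDs : HasCompactSupport (fun z => ∑ k : Fin m, ∑ i, pd k.succ (w i) z ^ 2) := by
    refine HasCompactSupport.intro (isCompact_iUnion (fun k : Fin m =>
      isCompact_iUnion (fun i : Fin n => (hsqs k.succ i)))) (fun z hz => ?_)
    have h0 : ∀ (k : Fin m) (i : Fin n), pd k.succ (w i) z ^ 2 = 0 := fun k i =>
      image_eq_zero_of_notMem_tsupport (f := fun z => pd k.succ (w i) z ^ 2)
        (fun h => hz (Set.mem_iUnion.2 ⟨k, Set.mem_iUnion.2 ⟨i, h⟩⟩))
    simp only [h0]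
    simp
  -- pointwise inequality
  have hpoint : ∀ x : ℝ, bco (((m + 1 : ℕ) : ℝ) / 2) g a *
      (∫ y : Fin m → ℝ, (∑ i, w i (Fin.cons x y : Fin (m + 1) → ℝ) ^ 2) ^ pp (g + 1 / 2 + m / 2)) ≤
      (∫ y : Fin m → ℝ, ∑ k : Fin m, ∑ i, pd k.succ (w i) (Fin.cons x y : Fin (m + 1) → ℝ) ^ 2) +
        G x := by
    intro x
    obtain ⟨V, r, hV, hV', hr, hR⟩ := specP (sys_psd hsys x)
    have h1 := T_slice ha' hT (fun i (y : Fin m → ℝ) => w i (Fin.cons x y : Fin (m + 1) → ℝ))
      (fun i => (slice_pd (hw i) x).1) (fun i => (slice_cont (hwc i) (hc i)).2.2.1 x) V r hV hV' hR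
    have h2 := hG1 x V r hV hV' hr hR
    have h3 : ∀ (k : Fin m) (i : Fin n) (y : Fin m → ℝ),
        pd k (fun y : Fin m → ℝ => w i (Fin.cons x y : Fin (m + 1) → ℝ)) y =
          pd k.succ (w i) (Fin.cons x y : Fin (m + 1) → ℝ) := fun k i y =>
      (slice_pd (hw i) x).2 k y
    simp only [h3] at h1
    rw [bco_succ m hg ha] at h1
    linarith
  -- integrate
  have hint := integral_mono
    ((ts_slice_integrable hρc hρs).const_mul (bco (((m + 1 : ℕ) : ℝ) / 2) g a))
    ((ts_slice_integrable hDc hDs).add (hGc.integrable_of_hasCompactSupport hGs)) hpoint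
  rw [integral_const_mul, ← slice_int hρc hρs] at hint
  have hadd : ∫ x : ℝ, ((fun x : ℝ => ∫ y : Fin m → ℝ,
      ∑ k : Fin m, ∑ i, pd k.succ (w i) (Fin.cons x y : Fin (m + 1) → ℝ) ^ 2) + G) x =
      (∫ z, ∑ k : Fin m, ∑ i, pd k.succ (w i) z ^ 2) + ∫ x, G x := by
    rw [slice_int hDc hDs]
    exact integral_add (ts_slice_integrable hDc hDs) (hGc.integrable_of_hasCompactSupport hGs)
  have htr : ∫ x, (QS w x).trace = ∫ z, ∑ i, pd 0 (w i) z ^ 2 := by
    rw [integral_finsetSum _ (fun i _ => hsqi 0 i)]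
    have h4 : ∀ x, (QS w x).trace = ∑ i, ∫ y : Fin m → ℝ,
        pd 0 (w i) (Fin.cons x y : Fin (m + 1) → ℝ) ^ 2 := by
      intro x
      unfold Matrix.trace
      refine Finset.sum_congr rfl fun i _ => ?_
      simp only [QS, Matrix.diag_apply, Matrix.of_apply, ← sq]
    simp_rw [h4]
    rw [integral_finsetSum _ (fun i _ => ts_slice_integrable (hsqc 0 i) (hsqs 0 i))]
    refine Finset.sum_congr rfl fun i _ => ?_
    exact (slice_int (hsqc 0 i) (hsqs 0 i)).symm
  have hsplit : ∫ z, ∑ k : Fin (m + 1), ∑ i, pd k (w i) z ^ 2 =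
      (∫ z, ∑ i, pd 0 (w i) z ^ 2) + ∫ z, ∑ k : Fin m, ∑ i, pd k.succ (w i) z ^ 2 := by
    simp_rw [Fin.sum_univ_succ]
    exact integral_add (integrable_finsetSum _ fun i _ => hsqi 0 i)
      (hDc.integrable_of_hasCompactSupport hDs)
  rw [← hexp, hsplit]
  rw [htr] at hG2
  have hint' : bco (((m + 1 : ℕ) : ℝ) / 2) g a *
      (∫ z, (∑ i, w i z ^ 2) ^ pp (g + 1 / 2 + m / 2)) ≤
      (∫ z, ∑ k : Fin m, ∑ i, pd k.succ (w i) z ^ 2) + ∫ x, G x := hint.trans (le_of_eq hadd)
  linarith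

end LTd
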