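import Pool.Agent.Helper717.LT.Defs

set_option autoImplicit false

open MeasureTheory Set Filter Topology Real
open scoped Matrix

namespace LTd



theorem T_zero_bco {g a : ℝ} (hg : 1 < g) (ha : 0 < a) : bco (((0:ℕ):ℝ) / 2) g a = a := by
  have hcc : 0 < cc g := by
    unfold cc
    have : 0 < g - 1 := by linarith
    positivity
  have hG : 0 < Gamma (g + 1) := Real.Gamma_pos_of_pos (by linarith)
  have hJ : JJ (((0:ℕ):ℝ) / 2) g = 1 := by
    unfold JJ
    have h0 : (((0:ℕ):ℝ) / 2) = 0 := by simp
    rw [h0, add_zero, Real.rpow_zero, mul_one, add_zero]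
    exact div_self (mul_pos hcc hG).ne'
  unfold bco
  rw [hJ, one_mul, ← Real.rpow_mul ha.le]
  have h1 : (g - 1) * (1 / (g + ((0:ℕ):ℝ) / 2 - 1)) = 1 := by
    have : g - 1 ≠ 0 := (sub_pos.mpr hg).ne'
    simp only [Nat.cast_zero, zero_div, add_zero]
    field_simp
  rw [h1, Real.rpow_one]

theorem T_zero {g : ℝ} (hg : 1 < g) : Tm 0 g := by
  intro a ha n w l hw hwc hwl
  have key : ∀ f : (Fin 0 → ℝ) → ℝ, ∫ x, f x = f default := by
    intro f
    rw [MeasureTheory.Measure.volume_pi_eq_dirac (default : Fin 0 → ℝ), integral_dirac]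
  have hp : pp g ≠ 0 := by
    unfold pp
    have h1 : g - 1 ≠ 0 := (sub_pos.mpr hg).ne'
    have h2 : g ≠ 0 := by linarith
    exact div_ne_zero h2 h1
  have hpe : pp (g + ((0:ℕ):ℝ) / 2) = pp g := by simp
  rw [T_zero_bco hg ha, hpe, key, key]
  have hl : ∀ i j, w i default * w j default = if i = j then l i else 0 := by
    intro i j
    rw [← hwl i j, key]
  have h0 : (∑ k : Fin 0, ∑ i, pd k (w i) default ^ 2) = 0 := by simp
  rw [h0, zero_add]
  apply mul_le_mul_of_nonneg_left _ ha.le
  have hli : ∀ i, l i = w i default ^ 2 := by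
    intro i
    have := hl i i
    rw [if_pos rfl] at this
    rw [← this, sq]
  by_cases hall : ∀ i, w i default = 0
  · have h1 : ∑ i, w i default ^ 2 = 0 := by
      apply Finset.sum_eq_zero
      intro i _
      rw [hall i]; simp
    rw [h1, Real.zero_rpow hp]
    apply Finset.sum_nonneg
    intro i _
    rw [hli i, hall i]
    simp [Real.zero_rpow hp]
  · push Not at hall
    obtain ⟨i0, hi0⟩ := hall
    have hz : ∀ j, j ≠ i0 → w j default = 0 := by
      intro j hj
      have := hl i0 j
      rw [if_neg (Ne.symm hj)] at this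
      rcases mul_eq_zero.mp this with h | h
      · exact absurd h hi0
      · exact h
    have h1 : ∑ i, w i default ^ 2 = w i0 default ^ 2 := by
      apply Finset.sum_eq_single i0
      · intro j _ hj
        rw [hz j hj]; simp
      · intro h; exact absurd (Finset.mem_univ i0) h
    have h2 : ∑ i, l i ^ pp g = l i0 ^ pp g := by
      apply Finset.sum_eq_single i0
      · intro j _ hj
        rw [hli j, hz j hj]
        simp [Real.zero_rpow hp]
      · intro h; exact absurd (Finset.mem_univ i0) h
    rw [h1, h2, hli i0]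

end LTd
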