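import Pool.Agent.Helper717.LT.Defs
import Pool.Agent.Helper717.LT.P_T_zero
import Pool.Agent.Helper717.LT.P_T_succ

set_option autoImplicit false

open MeasureTheory Set Filter Topology Real
open scoped Matrix

namespace LTd



theorem T_all (m : ℕ) : ∀ g : ℝ, 3 / 2 ≤ g → Tm m g := by
  induction m with
  | zero => exact fun g hg => T_zero (by linarith)
  | succ m ih => exact fun g hg => T_succ hg (ih _ (by linarith))

end LTd
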