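import Pool.Agent.Helper717.LT.Defs

set_option autoImplicit false

open MeasureTheory Set Filter Topology Real
open scoped Matrix

namespace LTd



theorem pd_sum {m n : ℕ} (w : Fin n → (Fin m → ℝ) → ℝ) (hw : ∀ i, ContDiff ℝ 1 (w i))
    (v : Fin n → ℝ) (k : Fin m) (x : Fin m → ℝ) :
    pd k (fun y => ∑ i, v i * w i y) x = ∑ i, v i * pd k (w i) x := by
  unfold pd
  have hd : ∀ i, DifferentiableAt ℝ (w i) x := fun i =>
    (hw i).differentiable (by norm_num) x
  have h1 : HasFDerivAt (fun y => ∑ i, v i * w i y) (∑ i, v i • fderiv ℝ (w i) x) x :=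
    HasFDerivAt.fun_sum fun i _ => (hd i).hasFDerivAt.const_mul (v i)
  rw [h1.fderiv]
  simp

end LTd
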