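import Pool.Agent.Helper717.LT.Defs
import Pool.Agent.Helper717.LT.P_pd_sum

set_option autoImplicit false

open MeasureTheory Set Filter Topology Real
open scoped Matrix

namespace LTd



theorem tsl_rot {n : ℕ} (V : Mat n) (hV : V * Vᵀ = 1) (c : Fin n → ℝ) :
    ∑ i, (∑ j, V j i * c j) ^ 2 = ∑ j, c j ^ 2 := by
  have h1 : ∑ i, (∑ j, V j i * c j) ^ 2 = (Vᵀ *ᵥ c) ⬝ᵥ (Vᵀ *ᵥ c) := by
    unfold dotProduct Matrix.mulVec
    apply Finset.sum_congr rfl
    intro i _
    rw [pow_two]
    rfl
  have h2 : ∑ j, c j ^ 2 = c ⬝ᵥ c := by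
    unfold dotProduct
    apply Finset.sum_congr rfl
    intro i _
    rw [pow_two]
  rw [h1, h2, Matrix.dotProduct_mulVec, Matrix.vecMul_transpose, Matrix.mulVec_mulVec, hV,
    Matrix.one_mulVec]

theorem T_slice {m n : ℕ} {g a : ℝ} (ha : 0 < a) (hT : Tm m g)
    (w : Fin n → (Fin m → ℝ) → ℝ) (hw : ∀ i, ContDiff ℝ 1 (w i))
    (hc : ∀ i, HasCompactSupport (w i)) (V : Mat n) (r : Fin n → ℝ) (hV : V * Vᵀ = 1)
    (hV' : Vᵀ * V = 1)
    (hR : (Matrix.of fun i j => ∫ x, w i x * w j x : Mat n) = V * Matrix.diagonal r * Vᵀ) :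
    bco (m / 2) g a * ∫ x, (∑ i, w i x ^ 2) ^ pp (g + m / 2) ≤
      (∫ x, ∑ k, ∑ i, pd k (w i) x ^ 2) + a * ∑ i, r i ^ pp g := by
  have h1 := hT a ha n (fun i x => ∑ j, V j i * w j x) r
    (fun i => ContDiff.sum fun j _ => contDiff_const.mul (hw j)) (by
      intro i
      apply HasCompactSupport.intro (K := ⋃ j, tsupport (w j)) (isCompact_iUnion fun j => hc j)
      intro x hx
      rw [Set.mem_iUnion, not_exists] at hx
      apply Finset.sum_eq_zero
      intro j _
      rw [image_eq_zero_of_notMem_tsupport (hx j), mul_zero]) (by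
      intro i j
      have hint : ∀ p q : Fin n, Integrable (fun x => w p x * w q x) := by
        intro p q
        apply Continuous.integrable_of_hasCompactSupport
        · exact (hw p).continuous.mul (hw q).continuous
        · exact (hc p).mul_right
      have h2 : (fun x => (∑ p, V p i * w p x) * (∑ q, V q j * w q x)) =
          fun x => ∑ p, ∑ q, (V p i * V q j) * (w p x * w q x) := by
        funext x
        rw [Finset.sum_mul_sum]
        apply Finset.sum_congr rfl
        intro p _
        apply Finset.sum_congr rfl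
        intro q _
        ring
      show ∫ x, (∑ p, V p i * w p x) * (∑ q, V q j * w q x) = _
      rw [h2, integral_finset_sum]
      · have h3 : ∀ p ∈ (Finset.univ : Finset (Fin n)),
            ∫ x, ∑ q, (V p i * V q j) * (w p x * w q x) =
            ∑ q, (V p i * V q j) * (Matrix.of fun i j => ∫ x, w i x * w j x : Mat n) p q := by
          intro p _
          rw [integral_finset_sum]
          · apply Finset.sum_congr rfl
            intro q _
            rw [integral_const_mul]
            rfl
          · intro q _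
            exact (hint p q).const_mul _
        rw [Finset.sum_congr rfl h3, hR]
        have h4 : Vᵀ * (V * Matrix.diagonal r * Vᵀ) * V = Matrix.diagonal r := by
          rw [← Matrix.mul_assoc, ← Matrix.mul_assoc, hV', Matrix.one_mul, Matrix.mul_assoc, hV',
            Matrix.mul_one]
        have h5 : (Vᵀ * (V * Matrix.diagonal r * Vᵀ) * V) i j =
            ∑ p, ∑ q, (V p i * V q j) * (V * Matrix.diagonal r * Vᵀ) p q := by
          rw [Matrix.mul_apply, Finset.sum_comm]
          apply Finset.sum_congr rfl
          intro q _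
          rw [Matrix.mul_apply, Finset.sum_mul]
          apply Finset.sum_congr rfl
          intro p _
          rw [Matrix.transpose_apply]
          ring
        rw [← h5, h4, Matrix.diagonal_apply]
      · intro p _
        apply integrable_finset_sum
        intro q _
        exact (hint p q).const_mul _)
  have h2 : ∀ x, ∑ i, (∑ j, V j i * w j x) ^ 2 = ∑ i, w i x ^ 2 := fun x => tsl_rot V hV _
  have h3 : ∀ x, ∑ k, ∑ i, pd k (fun y => ∑ j, V j i * w j y) x ^ 2 =
      ∑ k, ∑ i, pd k (w i) x ^ 2 := by
    intro x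
    apply Finset.sum_congr rfl
    intro k _
    rw [← tsl_rot V hV (fun j => pd k (w j) x)]
    apply Finset.sum_congr rfl
    intro i _
    rw [pd_sum w hw (fun j => V j i) k x]
  simp only [h2, h3] at h1
  exact h1

end LTd
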