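import Pool.Agent.Helper717.LT.Defs
import Pool.Agent.Helper717.LT.P_A_main

set_option autoImplicit false

open MeasureTheory Set Filter Topology Real
open scoped Matrix

namespace LTd



theorem blockA {n : ℕ} {R S Q : ℝ → Mat n} (h : Sys R S Q) (hT : PSD (1 - Tot R)) :
    π ^ 2 / 4 * ∫ x, (R x * R x * R x).trace ≤ ∫ x, (Q x).trace := by
  obtain ⟨I, hI⟩ : ∃ I : ℝ, I = ∫ x, (R x * R x * R x).trace := ⟨_, rfl⟩
  obtain ⟨J, hJ⟩ : ∃ J : ℝ, J = ∫ x, (Q x).trace := ⟨_, rfl⟩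
  rw [← hI, ← hJ]
  have h1 : ∀ θ : ℝ, 0 < θ → θ < π → θ ^ 2 / 4 * I ≤ J := by
    intro θ hθ0 hθ
    have h2 : Filter.Tendsto (fun ε : ℝ => (θ ^ 2 / 4 - ε * (n : ℝ) ^ 5) * I)
        (nhdsWithin 0 (Set.Ioi 0)) (nhds ((θ ^ 2 / 4 - 0 * (n : ℝ) ^ 5) * I)) := by
      have h3 : Continuous (fun ε : ℝ => (θ ^ 2 / 4 - ε * (n : ℝ) ^ 5) * I) := by fun_prop
      exact (h3.tendsto 0).mono_left nhdsWithin_le_nhds
    rw [zero_mul, sub_zero] at h2
    refine le_of_tendsto h2 ?_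
    filter_upwards [self_mem_nhdsWithin] with ε hε
    have := A_main h hT hθ0 hθ (ε := ε) hε
    rw [← hI, ← hJ] at this
    exact this
  have h2 : Filter.Tendsto (fun θ : ℝ => θ ^ 2 / 4 * I)
      (nhdsWithin π (Set.Iio π)) (nhds (π ^ 2 / 4 * I)) := by
    have h3 : Continuous (fun θ : ℝ => θ ^ 2 / 4 * I) := by fun_prop
    exact (h3.tendsto π).mono_left nhdsWithin_le_nhds
  refine le_of_tendsto h2 ?_
  filter_upwards [Ioo_mem_nhdsLT Real.pi_pos] with θ hθ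
  exact h1 θ hθ.1 hθ.2

end LTd
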