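import Pool.Agent.Helper717.LT.Defs
import Pool.Agent.Helper717.LT.P_specP
import Pool.Agent.Helper717.LT.P_sys_psd
import Pool.Agent.Helper717.LT.P_blockA
import Pool.Agent.Helper717.LT.P_slice_cont
import Pool.Agent.Helper717.LT.P_slice_int
import Pool.Agent.Helper717.LT.P_slice_pd
import Pool.Agent.Helper717.LT.P_pd_basic
import Pool.Agent.Helper717.LT.P_slice_sys
import Pool.Agent.Helper717.LT.P_T_slice
import Pool.Agent.Helper717.LT.P_T_all

set_option autoImplicit false

open MeasureTheory Set Filter Topology Real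
open scoped Matrix

namespace LTd



theorem cs_fam' {X : Type*} [TopologicalSpace X] [R1Space X] {ι : Type*} [Finite ι]
    (f : ι → X → ℝ) (hc : ∀ i, HasCompactSupport (f i)) (F : X → ℝ)
    (h : ∀ x, (∀ i, f i x = 0) → F x = 0) : HasCompactSupport F := by
  refine HasCompactSupport.intro (isCompact_iUnion hc) fun x hx => h x fun i => ?_
  exact image_eq_zero_of_notMem_tsupport fun hi => hx (mem_iUnion.2 ⟨i, hi⟩)

theorem slice_integrable' {m : ℕ} {f : (Fin (m + 1) → ℝ) → ℝ} (hf : Continuous f)
    (hc : HasCompactSupport f) :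
    Integrable (fun x : ℝ => ∫ y : Fin m → ℝ, f (Fin.cons x y : Fin (m + 1) → ℝ)) volume := by
  obtain ⟨h1, -, -, M, hM⟩ := slice_cont hf hc
  refine h1.integrable_of_hasCompactSupport ?_
  refine HasCompactSupport.intro (isCompact_Icc (a := -M) (b := M)) fun x hx => ?_
  have h2 : M < |x| := by
    by_contra hcon
    push Not at hcon
    exact hx (abs_le.1 hcon)
  rw [integral_congr_ae (Eventually.of_forall (hM x h2))]
  simp

theorem PSD_one_sub_tot' {m n : ℕ} (w : Fin n → (Fin (m + 1) → ℝ) → ℝ)
    (hw : ∀ i, Continuous (w i)) (hc : ∀ i, HasCompactSupport (w i))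
    (hG : ∀ v : Fin n → ℝ, ∫ x, (∑ i, v i * w i x) ^ 2 ≤ ∑ i, v i ^ 2) :
    PSD (1 - Tot (RS w)) := by
  classical
  have hT : ∀ i j, Tot (RS w) i j = ∫ z, w i z * w j z := by
    intro i j
    show ∫ x, ∫ y : Fin m → ℝ, w i (Fin.cons x y : Fin (m + 1) → ℝ) *
      w j (Fin.cons x y : Fin (m + 1) → ℝ) = _
    rw [slice_int (f := fun z => w i z * w j z) ((hw i).mul (hw j)) ((hc i).mul_right)]
  have iW : ∀ i j, Integrable (fun z => w i z * w j z) volume := fun i j =>
    ((hw i).mul (hw j)).integrable_of_hasCompactSupport ((hc i).mul_right)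
  refine ⟨?_, ?_⟩
  · intro i j
    rw [Matrix.sub_apply, Matrix.sub_apply, hT, hT, Matrix.one_apply, Matrix.one_apply]
    congr 1
    · simp only [eq_comm]
    · congr 1
      funext z
      ring
  · intro v
    have e1 : ∑ i, ∑ j, v i * v j * (1 - Tot (RS w)) i j =
        ∑ i, v i ^ 2 - ∫ x, (∑ i, v i * w i x) ^ 2 := by
      have h1 : ∫ x, (∑ i, v i * w i x) ^ 2 = ∑ i, ∑ j, v i * v j * ∫ z, w i z * w j z := by
        have h2 : ∀ x, (∑ i, v i * w i x) ^ 2 = ∑ i, ∑ j, v i * v j * (w i x * w j x) := by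
          intro x
          rw [sq, Finset.sum_mul_sum]
          refine Finset.sum_congr rfl fun i _ => Finset.sum_congr rfl fun j _ => ?_
          ring
        rw [integral_congr_ae (Eventually.of_forall h2), integral_finsetSum]
        · refine Finset.sum_congr rfl fun i _ => ?_
          rw [integral_finsetSum]
          · refine Finset.sum_congr rfl fun j _ => ?_
            rw [integral_const_mul]
          · intro j _
            exact (iW i j).const_mul _
        · intro i _
          exact integrable_finsetSum _ fun j _ => (iW i j).const_mul _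
      rw [h1, ← Finset.sum_sub_distrib]
      refine Finset.sum_congr rfl fun i _ => ?_
      have h3 : ∀ j, v i * v j * (1 - Tot (RS w)) i j =
          (if i = j then v i * v j else 0) - v i * v j * ∫ z, w i z * w j z := by
        intro j
        rw [Matrix.sub_apply, hT, Matrix.one_apply]
        split_ifs <;> ring
      rw [Finset.sum_congr rfl fun j _ => h3 j, Finset.sum_sub_distrib]
      congr 1
      rw [Finset.sum_ite_eq]
      simp [sq]
    rw [e1]
    linarith [hG v]

theorem core (m n : ℕ) (w : Fin n → (Fin (m + 1) → ℝ) → ℝ) (hw : ∀ i, ContDiff ℝ 1 (w i))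
    (hc : ∀ i, HasCompactSupport (w i))
    (hG : ∀ v : Fin n → ℝ, ∫ x, (∑ i, v i * w i x) ^ 2 ≤ ∑ i, v i ^ 2) :
    bco (m / 2) (3 / 2) (π ^ 2 / 4) * ∫ x, (∑ i, w i x ^ 2) ^ pp (3 / 2 + m / 2) ≤
      ∫ x, ∑ k, ∑ i, pd k (w i) x ^ 2 := by
  classical
  have hwc : ∀ i, Continuous (w i) := fun i => (hw i).continuous
  have h := slice_sys w hw hc
  have hA := blockA h (PSD_one_sub_tot' w hwc hc hG)
  set p : ℝ := pp (3 / 2 + m / 2) with hp
  have hp0 : 0 < p := by
    rw [hp, pp]
    have hm : (0 : ℝ) ≤ m := Nat.cast_nonneg m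
    apply div_pos <;> linarith
  -- the density
  set F : (Fin (m + 1) → ℝ) → ℝ := fun z => (∑ i, w i z ^ 2) ^ p with hF
  have hFc : Continuous F := by
    refine Continuous.rpow_const ?_ fun z => Or.inr hp0.le
    exact continuous_finsetSum _ fun i _ => (hwc i).pow 2
  have hFs : HasCompactSupport F := by
    refine cs_fam' w hc F fun z hz => ?_
    show (∑ i, w i z ^ 2) ^ p = 0
    rw [Finset.sum_eq_zero fun i _ => by rw [hz i]; norm_num]
    exact Real.zero_rpow hp0.ne'
  -- the tangential derivatives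
  set D : (Fin (m + 1) → ℝ) → ℝ := fun z => ∑ k : Fin m, ∑ i, pd k.succ (w i) z ^ 2 with hD
  have hDc : Continuous D := by
    refine continuous_finsetSum _ fun k _ => continuous_finsetSum _ fun i _ => ?_
    exact ((pd_basic (hw i) (hc i) k.succ).1).pow 2
  have hDs : HasCompactSupport D := by
    refine cs_fam' (ι := Fin m × Fin n) (fun q => pd q.1.succ (w q.2))
      (fun q => (pd_basic (hw q.2) (hc q.2) q.1.succ).2) D fun z hz => ?_
    refine Finset.sum_eq_zero fun k _ => Finset.sum_eq_zero fun i _ => ?_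
    rw [hz (k, i)]
    norm_num
  -- the normal derivatives
  set E : (Fin (m + 1) → ℝ) → ℝ := fun z => ∑ i, pd 0 (w i) z ^ 2 with hE
  have hEc : Continuous E := by
    refine continuous_finsetSum _ fun i _ => ?_
    exact ((pd_basic (hw i) (hc i) 0).1).pow 2
  have hEs : HasCompactSupport E := by
    refine cs_fam' (fun i => pd 0 (w i)) (fun i => (pd_basic (hw i) (hc i) 0).2) E fun z hz => ?_
    refine Finset.sum_eq_zero fun i _ => ?_
    rw [hz i]
    norm_num
  have hQ : ∫ x, (QS w x).trace = ∫ z, E z := by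
    rw [slice_int hEc hEs]
    refine integral_congr_ae (Eventually.of_forall fun x => ?_)
    show (QS w x).trace = ∫ y : Fin m → ℝ, E (Fin.cons x y : Fin (m + 1) → ℝ)
    have h2 : ∀ i, Integrable (fun y : Fin m → ℝ => pd 0 (w i) (Fin.cons x y : Fin (m + 1) → ℝ) ^ 2)
        volume := by
      intro i
      have h3 := slice_cont (f := fun z => pd 0 (w i) z ^ 2)
        (((pd_basic (hw i) (hc i) 0).1).pow 2)
        (cs_fam' (ι := Unit) (fun _ => pd 0 (w i)) (fun _ => (pd_basic (hw i) (hc i) 0).2) _
          fun z hz => by rw [hz ()]; norm_num)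
      exact (h3.2.1 x).integrable_of_hasCompactSupport (h3.2.2.1 x)
    rw [hE]
    dsimp only
    rw [integral_finsetSum _ fun i _ => h2 i, Matrix.trace]
    refine Finset.sum_congr rfl fun i _ => ?_
    rw [Matrix.diag_apply]
    show ∫ y : Fin m → ℝ, pd 0 (w i) (Fin.cons x y : Fin (m + 1) → ℝ) *
      pd 0 (w i) (Fin.cons x y : Fin (m + 1) → ℝ) = _
    congr 1
    funext y
    ring
  have htr : Integrable (fun x => (RS w x * RS w x * RS w x).trace) volume := by
    have hRc : ∀ i j, Continuous fun x => RS w x i j := fun i j =>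
      continuous_iff_continuousAt.2 fun x => (h.der x i j).continuousAt
    have hcont : Continuous fun x => (RS w x * RS w x * RS w x).trace := by
      have hR : Continuous fun x => RS w x := continuous_matrix hRc
      exact ((hR.matrix_mul hR).matrix_mul hR).matrix_trace
    obtain ⟨M, hM⟩ := h.supp
    refine hcont.integrable_of_hasCompactSupport ?_
    refine HasCompactSupport.intro (isCompact_Icc (a := -M) (b := M)) fun x hx => ?_
    have h2 : M < |x| := by
      by_contra hcon
      push Not at hcon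
      exact hx (abs_le.1 hcon)
    rw [(hM x h2).1]
    simp
  -- the slices
  have hslice : ∀ x : ℝ, bco (m / 2) (3 / 2) (π ^ 2 / 4) *
      ∫ y : Fin m → ℝ, F (Fin.cons x y : Fin (m + 1) → ℝ) ≤
      (∫ y : Fin m → ℝ, D (Fin.cons x y : Fin (m + 1) → ℝ)) +
        π ^ 2 / 4 * (RS w x * RS w x * RS w x).trace := by
    intro x
    obtain ⟨V, r, hV, hV', hr, hR⟩ := specP (sys_psd h x)
    have h1 := T_slice (m := m) (n := n) (g := 3 / 2) (a := π ^ 2 / 4) (by positivity)
      (T_all m (3 / 2) le_rfl) (fun i y => w i (Fin.cons x y : Fin (m + 1) → ℝ))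
      (fun i => (slice_pd (hw i) x).1) (fun i => (slice_cont (hwc i) (hc i)).2.2.1 x) V r hV hV'
      hR
    have e1 : ∑ i, r i ^ pp (3 / 2) = (RS w x * RS w x * RS w x).trace := by
      have e2 : pp (3 / 2) = ((3 : ℕ) : ℝ) := by
        rw [pp]
        norm_num
      have e3 : RS w x * RS w x * RS w x = V * Matrix.diagonal (fun i => r i ^ 3) * Vᵀ := by
        have e4 : ∀ X Y : Mat n, (V * X * Vᵀ) * (V * Y * Vᵀ) = V * (X * Y) * Vᵀ := by
          intro X Y
          calc (V * X * Vᵀ) * (V * Y * Vᵀ) = V * X * (Vᵀ * V) * Y * Vᵀ := by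
                simp only [Matrix.mul_assoc]
            _ = _ := by rw [hV', Matrix.mul_one]; simp only [Matrix.mul_assoc]
        rw [hR, e4, e4, Matrix.diagonal_mul_diagonal, Matrix.diagonal_mul_diagonal]
        congr 3
        funext i
        ring
      rw [e3, Matrix.trace_mul_comm, ← Matrix.mul_assoc, hV', Matrix.one_mul,
        Matrix.trace_diagonal]
      refine Finset.sum_congr rfl fun i _ => ?_
      rw [e2, Real.rpow_natCast]
    rw [e1] at h1
    have e5 : ∀ y : Fin m → ℝ, (∑ k, ∑ i, pd k (fun y : Fin m → ℝ =>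
        w i (Fin.cons x y : Fin (m + 1) → ℝ)) y ^ 2) = D (Fin.cons x y : Fin (m + 1) → ℝ) := by
      intro y
      refine Finset.sum_congr rfl fun k _ => Finset.sum_congr rfl fun i _ => ?_
      rw [(slice_pd (hw i) x).2 k y]
    rw [integral_congr_ae (Eventually.of_forall e5)] at h1
    exact h1
  have hint := integral_mono ((slice_integrable' hFc hFs).const_mul _)
    ((slice_integrable' hDc hDs).add (htr.const_mul _)) hslice
  rw [integral_const_mul, ← slice_int hFc hFs] at hint
  have hsum : ∫ x, ((∫ y : Fin m → ℝ, D (Fin.cons x y : Fin (m + 1) → ℝ)) +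
        π ^ 2 / 4 * (RS w x * RS w x * RS w x).trace) =
      (∫ z, D z) + π ^ 2 / 4 * ∫ x, (RS w x * RS w x * RS w x).trace := by
    rw [integral_add (slice_integrable' hDc hDs) (htr.const_mul _), integral_const_mul,
      ← slice_int hDc hDs]
  have hfin : ∫ x, ∑ k, ∑ i, pd k (w i) x ^ 2 = (∫ z, E z) + ∫ z, D z := by
    rw [← integral_add (hEc.integrable_of_hasCompactSupport hEs)
      (hDc.integrable_of_hasCompactSupport hDs)]
    refine integral_congr_ae (Eventually.of_forall fun z => ?_)
    show ∑ k, ∑ i, pd k (w i) z ^ 2 = (∑ i, pd 0 (w i) z ^ 2) +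
      ∑ k : Fin m, ∑ i, pd k.succ (w i) z ^ 2
    rw [Fin.sum_univ_succ]
  rw [hfin]
  have hint' := hint.trans_eq hsum
  rw [hQ] at hA
  linarith

end LTd
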