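import Pool.Agent.Helper717.LT.Defs
import Pool.Agent.Helper717.LT.P_bco_pos
import Pool.Agent.Helper717.LT.P_core
import Pool.Agent.Helper717.LT.P_H_approx

set_option autoImplicit false

open MeasureTheory Set Filter Topology Real
open scoped Matrix

namespace LTd



theorem H_real (m n : ℕ) (f : Fin n → (Fin (m + 1) → ℝ) → ℝ)
    (g : Fin n → Fin (m + 1) → (Fin (m + 1) → ℝ) → ℝ) (hf : ∀ i, WGrad (f i) (g i))
    (hG : ∀ v : Fin n → ℝ, ∫ x, (∑ i, v i * f i x) ^ 2 ≤ ∑ i, v i ^ 2) :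
    Integrable (fun x => (∑ i, f i x ^ 2) ^ pp (3 / 2 + m / 2)) ∧
    bco (m / 2) (3 / 2) (π ^ 2 / 4) * ∫ x, (∑ i, f i x ^ 2) ^ pp (3 / 2 + m / 2) ≤
      ∫ x, ∑ j, ∑ i, g i j x ^ 2 := by
  have hp : 0 < pp (3 / 2 + (m:ℝ) / 2) := by
    unfold pp
    have h0 : (0:ℝ) ≤ m := Nat.cast_nonneg m
    have h1 : (3 / 2 + (m:ℝ) / 2) - 1 = 1 / 2 + (m:ℝ) / 2 := by ring
    rw [h1]; positivity
  have hb : 0 < bco ((m:ℝ) / 2) (3 / 2) (π ^ 2 / 4) :=
    bco_pos (by positivity) (by norm_num) (by positivity)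
  set p := pp (3 / 2 + (m:ℝ) / 2) with hpdef
  set b := bco ((m:ℝ) / 2) (3 / 2) (π ^ 2 / 4) with hbdef
  set E := ∫ x, ∑ j, ∑ i, g i j x ^ 2 with hE
  have hE0 : 0 ≤ E := integral_nonneg fun x =>
    Finset.sum_nonneg fun j _ => Finset.sum_nonneg fun i _ => sq_nonneg _
  obtain ⟨F, hF1, hF2, hF3, hF4, hF5⟩ := H_approx f g hf
  have hcont : ∀ k, Continuous fun x => (∑ i, F k i x ^ 2) ^ p := by
    intro k
    refine Continuous.rpow_const ?_ (fun x => Or.inr hp.le)
    exact continuous_finsetSum _ fun i _ => ((hF1 k i).continuous.pow 2)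
  have hcs : ∀ k, HasCompactSupport fun x => (∑ i, F k i x ^ 2) ^ p := by
    intro k
    refine HasCompactSupport.intro (K := ⋃ i, tsupport (F k i))
      (isCompact_iUnion fun i => hF2 k i) ?_
    intro x hx
    have : ∀ i, F k i x = 0 := by
      intro i
      by_contra h
      exact hx (mem_iUnion.2 ⟨i, subset_tsupport _ h⟩)
    simp only [this]
    simp [Real.zero_rpow hp.ne']
  have hint : ∀ k, Integrable fun x => (∑ i, F k i x ^ 2) ^ p := fun k =>
    (hcont k).integrable_of_hasCompactSupport (hcs k)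
  have hnn : ∀ k x, 0 ≤ (∑ i, F k i x ^ 2) ^ p := fun k x =>
    Real.rpow_nonneg (Finset.sum_nonneg fun i _ => sq_nonneg _) _
  have hnn' : ∀ x, 0 ≤ (∑ i, f i x ^ 2) ^ p := fun x =>
    Real.rpow_nonneg (Finset.sum_nonneg fun i _ => sq_nonneg _) _
  have hbound : ∀ k : ℕ, ∫ x, (∑ i, F k i x ^ 2) ^ p ≤ (E + 1 / ((k:ℝ) + 1)) / b := by
    intro k
    rw [le_div_iff₀' hb]
    exact (core m n (F k) (hF1 k) (hF2 k) (fun v => (hF3 k v).trans (hG v))).trans (hF5 k)
  have hlim : ∀ᵐ x, Tendsto (fun k => (∑ i, F k i x ^ 2) ^ p) atTop (𝓝 ((∑ i, f i x ^ 2) ^ p)) := by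
    filter_upwards [hF4] with x hx
    exact (tendsto_finsetSum _ fun i _ => (hx i).pow 2).rpow_const (Or.inr hp.le)
  have haesm : AEStronglyMeasurable (fun x => (∑ i, f i x ^ 2) ^ p) volume :=
    aestronglyMeasurable_of_tendsto_ae atTop (fun k => (hint k).aestronglyMeasurable) hlim
  have hfatou : ∫⁻ x, ENNReal.ofReal ((∑ i, f i x ^ 2) ^ p) ≤ ENNReal.ofReal (E / b) := by
    calc ∫⁻ x, ENNReal.ofReal ((∑ i, f i x ^ 2) ^ p)
        = ∫⁻ x, liminf (fun k => ENNReal.ofReal ((∑ i, F k i x ^ 2) ^ p)) atTop := by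
          apply lintegral_congr_ae
          filter_upwards [hlim] with x hx
          exact ((ENNReal.continuous_ofReal.tendsto _).comp hx).liminf_eq.symm
      _ ≤ liminf (fun k => ∫⁻ x, ENNReal.ofReal ((∑ i, F k i x ^ 2) ^ p)) atTop :=
          lintegral_liminf_le' fun k => (hcont k).measurable.ennreal_ofReal.aemeasurable
      _ ≤ liminf (fun k : ℕ => ENNReal.ofReal ((E + 1 / ((k:ℝ) + 1)) / b)) atTop := by
          refine liminf_le_liminf (Eventually.of_forall fun k => ?_)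
          change ∫⁻ x, ENNReal.ofReal ((∑ i, F k i x ^ 2) ^ p) ≤ _
          rw [← ofReal_integral_eq_lintegral_ofReal (hint k) (Eventually.of_forall (hnn k))]
          exact ENNReal.ofReal_le_ofReal (hbound k)
      _ = ENNReal.ofReal (E / b) := by
          apply Tendsto.liminf_eq
          apply (ENNReal.continuous_ofReal.tendsto _).comp
          have h1 : Tendsto (fun k : ℕ => (E + 1 / ((k:ℝ) + 1)) / b) atTop (𝓝 ((E + 0) / b)) :=
            (tendsto_one_div_add_atTop_nhds_zero_nat.const_add E).div_const b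
          rwa [add_zero] at h1
  have hI : Integrable (fun x => (∑ i, f i x ^ 2) ^ p) := by
    refine ⟨haesm, ?_⟩
    rw [hasFiniteIntegral_iff_ofReal (Eventually.of_forall hnn')]
    exact lt_of_le_of_lt hfatou ENNReal.ofReal_lt_top
  refine ⟨hI, ?_⟩
  rw [← le_div_iff₀' hb, integral_eq_lintegral_of_nonneg_ae (Eventually.of_forall hnn') haesm]
  exact ENNReal.toReal_le_of_le_ofReal (by positivity) hfatou

end LTd
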