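import Pool.Agent.Helper717.LT.Defs

set_option autoImplicit false

open MeasureTheory Set Filter Topology Real
open scoped Matrix

namespace LTd



theorem cf_gamma52 : Gamma (3 / 2 + 1 : ℝ) = 3 / 4 * √π := by
  rw [Real.Gamma_add_one (by norm_num)]
  have : (3 / 2 : ℝ) = 1 / 2 + 1 := by norm_num
  rw [this, Real.Gamma_add_one (by norm_num), Real.Gamma_one_half_eq]
  ring

theorem cf_cc32 : cc (3 / 2) = 2 / (3 * √3) := by
  unfold cc
  have e1 : ((3 / 2 : ℝ) - 1) = 1 / 2 := by norm_num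
  have e2 : (3 / 2 : ℝ) ^ (3 / 2 : ℝ) = (3 / 2) * √(3 / 2) := by
    have : (3 / 2 : ℝ) = 1 + 1 / 2 := by norm_num
    conv_lhs => rw [show ((3 / 2 : ℝ) ^ (3 / 2 : ℝ)) = (3 / 2 : ℝ) ^ (1 + 1 / 2 : ℝ) by norm_num]
    rw [Real.rpow_add (by norm_num), Real.rpow_one, ← Real.sqrt_eq_rpow]
  rw [e1, e2, ← Real.sqrt_eq_rpow]
  have h3 : √(3 / 2 : ℝ) = √3 * √(1 / 2) := by
    rw [← Real.sqrt_mul (by norm_num)]; norm_num
  rw [h3]
  have hp : 0 < √(1 / 2 : ℝ) := Real.sqrt_pos.mpr (by norm_num)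
  have hq : 0 < √(3 : ℝ) := Real.sqrt_pos.mpr (by norm_num)
  field_simp

theorem cf_JJ (m : ℕ) (t : ℝ) (ht : t = ((m : ℝ) + 1) / 2) :
    JJ ((m : ℝ) / 2) (3 / 2) * (π ^ 2 / 4 : ℝ) ^ ((3 / 2 : ℝ) - 1) =
      √3 / 2 * ((t / (1 + t)) ^ t * (4 * π) ^ t * Gamma (t + 1)) := by
  have htp : 0 < t := by rw [ht]; positivity
  have hpi := Real.pi_pos
  unfold JJ
  rw [cf_gamma52, cf_cc32]
  have e1 : (3 / 2 : ℝ) + (m : ℝ) / 2 = 1 + t := by rw [ht]; ring
  have e2 : (3 / 2 : ℝ) + 1 + (m : ℝ) / 2 = (t + 1) + 1 := by rw [ht]; ring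
  have e3 : (m : ℝ) / 2 = t - 1 / 2 := by rw [ht]; ring
  rw [e1, e2, e3, Real.Gamma_add_one (by positivity)]
  have e4 : (π ^ 2 / 4 : ℝ) ^ ((3 / 2 : ℝ) - 1) = π / 2 := by
    rw [show ((3 / 2 : ℝ) - 1) = 1 / 2 by norm_num, ← Real.sqrt_eq_rpow]
    rw [show (π ^ 2 / 4 : ℝ) = (π / 2) ^ 2 by ring]
    exact Real.sqrt_sq (by positivity)
  rw [e4]
  have e5 : cc (1 + t) = (t / (1 + t)) ^ t / (1 + t) := by
    unfold cc
    rw [show (1 + t - 1) = t by ring, Real.rpow_add (by positivity), Real.rpow_one,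
      Real.div_rpow htp.le (by positivity)]
    field_simp
  rw [e5]
  have e6 : (4 * π : ℝ) ^ (t - 1 / 2) = (4 * π) ^ t / (2 * √π) := by
    rw [Real.rpow_sub (by positivity), ← Real.sqrt_eq_rpow]
    congr 1
    rw [Real.sqrt_mul (by norm_num)]
    congr 1
    rw [show (4 : ℝ) = 2 ^ 2 by norm_num]
    exact Real.sqrt_sq (by norm_num)
  rw [e6]
  have hs : 0 < √π := Real.sqrt_pos.mpr hpi
  have hss : √π * √π = π := Real.mul_self_sqrt hpi.le
  have h3 : 0 < √(3 : ℝ) := Real.sqrt_pos.mpr (by norm_num)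
  have h33 : √(3 : ℝ) * √3 = 3 := Real.mul_self_sqrt (by norm_num)
  have hG : 0 < Gamma (t + 1) := Real.Gamma_pos_of_pos (by positivity)
  set P := (t / (1 + t)) ^ t
  set Q := (4 * π : ℝ) ^ t
  set g := Gamma (t + 1)
  have hP : 0 < 1 + t := by positivity
  have : P / (1 + t) * (Q / (2 * √π)) * ((t + 1) * g) / (2 / (3 * √3) * (3 / 4 * √π)) * (π / 2)
      = √3 / 2 * (P * Q * g) * (π / (√π * √π)) := by
    field_simp
    ring
  rw [this, hss]
  field_simp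

theorem const_final (m : ℕ) :
    bco (m / 2) (3 / 2) (π ^ 2 / 4) = (3 / 4 : ℝ) ^ (1 / ((m:ℝ) + 1)) * Kcl (m + 1) := by
  set t : ℝ := ((m : ℝ) + 1) / 2 with ht
  have htp : 0 < t := by rw [ht]; positivity
  have hpi := Real.pi_pos
  have hG : 0 < Gamma (t + 1) := Real.Gamma_pos_of_pos (by positivity)
  unfold bco
  rw [cf_JJ m t ht]
  have e1 : (1 / ((3 / 2 : ℝ) + (m : ℝ) / 2 - 1)) = 1 / t := by
    rw [ht]; congr 1; ring
  rw [e1]
  have hvol : (volume (Metric.ball (0 : EuclideanSpace ℝ (Fin (m + 1))) 1)).toReal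
      = π ^ t / Gamma (t + 1) := by
    rw [EuclideanSpace.volume_ball]
    simp only [Fintype.card_fin, ENNReal.ofReal_one, one_pow, one_mul]
    have e2 : (((m + 1 : ℕ) : ℝ) / 2 + 1) = t + 1 := by rw [ht]; push_cast; ring
    rw [e2]
    have e3 : √π ^ (m + 1) = π ^ t := by
      rw [Real.sqrt_eq_rpow, ← Real.rpow_natCast, ← Real.rpow_mul hpi.le]
      congr 1
      rw [ht]; push_cast; ring
    rw [e3, ENNReal.toReal_ofReal (by positivity)]
  unfold Kcl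
  rw [hvol]
  have hr : ∀ x : ℝ, 0 ≤ x → (x ^ t) ^ (1 / t) = x := by
    intro x hx
    rw [← Real.rpow_mul hx, mul_one_div_cancel htp.ne', Real.rpow_one]
  have e4 : ((2 : ℝ) / ((m + 1 : ℕ) : ℝ)) = 1 / t := by
    rw [ht]; push_cast; field_simp
  rw [e4, Real.div_rpow (by positivity) hG.le, hr π hpi.le]
  rw [Real.mul_rpow (by positivity) (by positivity), Real.mul_rpow (by positivity) hG.le,
    Real.mul_rpow (by positivity) (by positivity), hr _ (by positivity), hr _ (by positivity)]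
  have e5 : (√3 / 2 : ℝ) ^ (1 / t) = (3 / 4 : ℝ) ^ (1 / ((m : ℝ) + 1)) := by
    have : (√3 / 2 : ℝ) = (3 / 4 : ℝ) ^ (1 / 2 : ℝ) := by
      rw [← Real.sqrt_eq_rpow, Real.sqrt_div (by norm_num)]
      congr 1
      rw [show (4 : ℝ) = 2 ^ 2 by norm_num]
      exact (Real.sqrt_sq (by norm_num)).symm
    rw [this, ← Real.rpow_mul (by norm_num)]
    congr 1
    rw [ht]; field_simp
  rw [e5]
  have hGt : 0 < Gamma (t + 1) ^ (1 / t) := Real.rpow_pos_of_pos hG _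
  have e6 : t / (1 + t) = ((m + 1 : ℕ) : ℝ) / (((m + 1 : ℕ) : ℝ) + 2) := by
    rw [ht]; push_cast; field_simp; ring
  rw [e6]
  field_simp
  ring

end LTd
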