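import Pool.Agent.Helper717.LT.Defs

set_option autoImplicit false

open MeasureTheory Set Filter Topology Real
open scoped Matrix

namespace LTd



theorem gram_complex {d N : ℕ} (u : Fin N → (Fin d → ℝ) → ℂ) (hu : ∀ i, MemLp (u i) 2 volume)
    (ho : ∀ i j, ∫ x, (starRingEnd ℂ) (u i x) * u j x = if i = j then 1 else 0)
    (a b : Fin N → ℝ) :
    ∫ x, (∑ i, (a i * (u i x).re + b i * (u i x).im)) ^ 2 ≤ ∑ i, (a i ^ 2 + b i ^ 2) := by
  have hint : ∀ i j, Integrable (fun x => (starRingEnd ℂ) (u i x) * u j x) volume := by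
    intro i j
    have h1 : MemLp (fun x => (starRingEnd ℂ) (u i x)) 2 volume := (hu i).star
    exact h1.integrable_mul (hu j)
  let c : Fin N → ℂ := fun i => (a i : ℂ) - (b i : ℂ) * Complex.I
  let U : (Fin d → ℝ) → ℂ := fun x => ∑ i, c i * u i x
  have hU : ∀ x, ((‖U x‖ ^ 2 : ℝ) : ℂ) =
      ∑ i, ∑ j, ((starRingEnd ℂ) (c i) * c j) * ((starRingEnd ℂ) (u i x) * u j x) := by
    intro x
    have h1 : ((‖U x‖ ^ 2 : ℝ) : ℂ) = (starRingEnd ℂ) (U x) * U x := by
      rw [Complex.conj_mul']
      push_cast
      rfl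
    rw [h1]
    simp only [U, map_sum, map_mul, Finset.sum_mul_sum]
    exact Finset.sum_congr rfl fun i _ => Finset.sum_congr rfl fun j _ => by ring
  have hIntC : Integrable (fun x => ((‖U x‖ ^ 2 : ℝ) : ℂ)) volume := by
    simp only [hU]
    exact integrable_finsetSum _ fun i _ => integrable_finsetSum _ fun j _ => (hint i j).const_mul _
  have hInt : Integrable (fun x => ‖U x‖ ^ 2) volume := by
    have h := hIntC.re
    refine h.congr (Filter.Eventually.of_forall fun x => ?_)
    exact Complex.ofReal_re _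
  have hval : ∫ x, ‖U x‖ ^ 2 = ∑ i, (a i ^ 2 + b i ^ 2) := by
    apply Complex.ofReal_injective
    rw [← integral_complex_ofReal]
    simp only [hU]
    rw [integral_finsetSum _ fun i _ => integrable_finsetSum _ fun j _ => (hint i j).const_mul _]
    push_cast
    refine Finset.sum_congr rfl fun i _ => ?_
    rw [integral_finsetSum _ fun j _ => (hint i j).const_mul _]
    simp only [integral_const_mul, ho]
    rw [Finset.sum_eq_single i]
    · rw [if_pos rfl, mul_one]
      simp only [c, map_sub, map_mul, Complex.conj_ofReal, Complex.conj_I]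
      ring_nf
      rw [Complex.I_sq]
      ring
    · intro j _ hj
      rw [if_neg (Ne.symm hj), mul_zero]
    · intro h
      exact absurd (Finset.mem_univ i) h
  rw [← hval]
  have hre : ∀ x, (∑ i, (a i * (u i x).re + b i * (u i x).im)) = (U x).re := by
    intro x
    simp only [U, c, Complex.re_sum]
    refine Finset.sum_congr rfl fun i _ => ?_
    simp [Complex.mul_re, Complex.sub_re, Complex.sub_im]
  have hle : ∀ x, (∑ i, (a i * (u i x).re + b i * (u i x).im)) ^ 2 ≤ ‖U x‖ ^ 2 := by
    intro x
    rw [hre, sq_le_sq, abs_of_nonneg (norm_nonneg (U x))]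
    exact Complex.abs_re_le_norm _
  refine integral_mono_of_nonneg (Filter.Eventually.of_forall fun x => sq_nonneg _) hInt
    (Filter.Eventually.of_forall hle)

end LTd
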