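import Pool.Agent.Helper717.LT.Defs

set_option autoImplicit false

open MeasureTheory Set Filter Topology Real
open scoped Matrix

namespace LTd



theorem split_complex_aux {d : ℕ} (v : (Fin d → ℝ) → ℂ) (hv : MemLp v 2 volume)
    (ψ : (Fin d → ℝ) → ℝ) (hc : Continuous ψ) (hs : HasCompactSupport ψ) :
    (∫ x, v x * (ψ x : ℂ)).re = ∫ x, (v x).re * ψ x ∧
    (∫ x, v x * (ψ x : ℂ)).im = ∫ x, (v x).im * ψ x := by
  have hψ : MemLp ψ 2 volume := hc.memLp_of_hasCompactSupport hs
  have hψ' : MemLp (fun x => (ψ x : ℂ)) 2 volume := hψ.ofReal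
  have hint : Integrable (fun x => v x * (ψ x : ℂ)) volume := hv.integrable_mul hψ'
  constructor
  · have h1 := integral_re hint
    have h2 : (fun x => RCLike.re (v x * (ψ x : ℂ))) = fun x => (v x).re * ψ x := by
      funext x
      simp
    rw [h2] at h1
    exact h1.symm
  · have h1 := integral_im hint
    have h2 : (fun x => RCLike.im (v x * (ψ x : ℂ))) = fun x => (v x).im * ψ x := by
      funext x
      simp
    rw [h2] at h1
    exact h1.symm

theorem split_complex {d : ℕ} {u : (Fin d → ℝ) → ℂ} {g : Fin d → (Fin d → ℝ) → ℂ}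
    (h : WGradC u g) :
    WGrad (fun x => (u x).re) (fun k x => (g k x).re) ∧
    WGrad (fun x => (u x).im) (fun k x => (g k x).im) := by
  have key : ∀ k (φ : (Fin d → ℝ) → ℝ), ContDiff ℝ (⊤ : ℕ∞) φ → HasCompactSupport φ →
      (∫ x, (u x).re * pd k φ x = - ∫ x, (g k x).re * φ x) ∧
      (∫ x, (u x).im * pd k φ x = - ∫ x, (g k x).im * φ x) := by
    intro k φ hφ hs
    have hpdc : Continuous (pd k φ) := by
      have h1 : Continuous (fderiv ℝ φ) := hφ.continuous_fderiv (by simp)
      exact h1.clm_apply continuous_const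
    have hpds : HasCompactSupport (pd k φ) := by
      have h1 : HasCompactSupport (fderiv ℝ φ) := hs.fderiv (𝕜 := ℝ)
      exact h1.comp_left (g := fun L : (Fin d → ℝ) →L[ℝ] ℝ => L (Pi.single k 1)) rfl
    have e1 := split_complex_aux u h.f2 (pd k φ) hpdc hpds
    have e2 := split_complex_aux (g k) (h.g2 k) φ hφ.continuous hs
    have e3 := h.weak k φ hφ hs
    rw [← e1.1, ← e1.2, ← e2.1, ← e2.2, e3]
    exact ⟨Complex.neg_re _, Complex.neg_im _⟩
  exact ⟨⟨h.f2.re, fun k => (h.g2 k).re, fun k φ h1 h2 => (key k φ h1 h2).1⟩,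
    ⟨h.f2.im, fun k => (h.g2 k).im, fun k φ h1 h2 => (key k φ h1 h2).2⟩⟩

end LTd
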